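import Pool.Agent.Work.MP_75c89d_cub.Interface

/-!
# Block ALF (helper1): the test elements, by the Chinese remainder theorem
-/

set_option autoImplicit false

namespace Pool.EMC

theorem p_ALF (hG : Stmt_GAM) (hP : Stmt_PSI) : Stmt_ALF := by
  intro W q hW h3 hq hqW
  have hq3 : q ≠ 3 := by
    rintro rfl
    exact h3 hqW
  obtain ⟨γ, k, hγ, hk, hpsi⟩ := hG q hq hq3
  set W₁ : ℕ := ∏ s ∈ W.primeFactors.erase q, s with hW₁
  have hcop : Nat.Coprime (3 * W₁) q := by
    refine Nat.Coprime.mul_left ?_ ?_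
    · exact (Nat.coprime_primes Nat.prime_three hq).2 (Ne.symm hq3)
    · rw [hW₁]
      refine Nat.Coprime.prod_left fun s hs => ?_
      have hs1 := Finset.mem_erase.1 hs
      exact (Nat.coprime_primes (Nat.prime_of_mem_primeFactors hs1.2) hq).2 hs1.1
  have h3W : ¬ 3 ∣ W₁ := by
    intro h
    rw [hW₁, Prime.dvd_finset_prod_iff Nat.prime_three.prime] at h
    obtain ⟨s, hs, hs3⟩ := h
    have hs1 := Finset.mem_erase.1 hs
    have hsp := Nat.prime_of_mem_primeFactors hs1.2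
    have := (Nat.prime_dvd_prime_iff_eq Nat.prime_three hsp).1 hs3
    subst this
    exact h3 (Nat.dvd_of_mem_primeFactors hs1.2)
  have h9 : Nat.Coprime 9 q := by
    have : Nat.Coprime (3 ^ 2) q := Nat.Coprime.pow_left 2
      ((Nat.coprime_primes Nat.prime_three hq).2 (Ne.symm hq3))
    simpa using this
  obtain ⟨u, v, huv⟩ := Nat.isCoprime_iff_coprime.2 hcop
  obtain ⟨t, t', ht⟩ := Nat.isCoprime_iff_coprime.2 h9
  push_cast at huv ht
  have ht' : t * 9 - 1 = -t' * q := by linear_combination ht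
  have hu' : u * (3 * W₁) - 1 = -v * q := by linear_combination huv
  set a : ℤ := 1 + (3 * W₁) * u * (γ.re - 1) with ha
  set b₁ : ℤ := W₁ + (3 * W₁) * u * (t * γ.im - W₁) with hb
  have hdvd : ((q : ℤ) : E) ∣ γ - ⟨a, 9 * b₁⟩ := by
    rw [intCast_dvd]
    constructor
    · refine ⟨v * (γ.re - 1), ?_⟩
      simp only [QuadraticAlgebra.re_sub]
      rw [ha]
      linear_combination (-(γ.re - 1)) * hu'
    · refine ⟨9 * v * (t * γ.im - W₁) + t' * γ.im, ?_⟩
      simp only [QuadraticAlgebra.im_sub]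
      rw [hb]
      linear_combination (-9 * (t * γ.im - W₁)) * hu' - γ.im * ht'
  refine ⟨a, b₁, k, ?_, ?_, ?_, ?_, hk, hP.congr q γ _ k hq hdvd hpsi⟩
  · rw [ha]
    exact (Int.modEq_iff_dvd.2 ⟨-(W₁ * u * (γ.re - 1)), by ring⟩)
  · intro h
    have h4 : (3 : ℤ) ∣ (W₁ : ℤ) := by
      have h5 : (3 : ℤ) ∣ (3 * W₁) * u * (t * γ.im - W₁) := ⟨W₁ * u * (t * γ.im - W₁), by ring⟩
      have h6 := dvd_sub h h5
      rwa [hb, add_sub_cancel_right] at h6
    exact h3W (by exact_mod_cast h4)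
  · intro s hs hsW hsq
    have hs1 : (s : ℤ) ∣ (W₁ : ℤ) := by
      have : s ∣ W₁ := by
        rw [hW₁]
        exact Finset.dvd_prod_of_mem _ (Finset.mem_erase.2
          ⟨hsq, Nat.mem_primeFactors.2 ⟨hs, hsW, hW.ne'⟩⟩)
      exact_mod_cast this
    obtain ⟨c, hc⟩ := hs1
    constructor
    · refine ⟨3 * c * u * (γ.re - 1), ?_⟩
      rw [ha, hc]
      ring
    · refine ⟨c + 3 * c * u * (t * γ.im - W₁), ?_⟩
      rw [hb]
      linear_combination (1 + 3 * u * (t * γ.im - W₁)) * hc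
  · intro h
    apply hγ
    have h7 := nm_congr hdvd
    have h8 := dvd_add h7 h
    simpa using h8

end Pool.EMC
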