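import Pool.Agent.Work.MP_75c89d_cub.Interface

/-!
# Block BLA (helper1): Cauchy-Schwarz for the bilinear sum
-/

set_option autoImplicit false

namespace Pool.EMC

theorem p_BLA : Stmt_BLA := by
  intro G _ _ f D hD hc A B
  classical
  set g : G → ℂ := fun x => ∑ b ∈ B, f (x + b) with hg
  have h1 : ‖∑ a ∈ A, g a‖ ^ 2 ≤ (A.card : ℝ) * ∑ a ∈ A, ‖g a‖ ^ 2 := by
    calc ‖∑ a ∈ A, g a‖ ^ 2 ≤ (∑ a ∈ A, ‖g a‖) ^ 2 := by
          gcongr
          exact norm_sum_le _ _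
      _ ≤ (A.card : ℝ) * ∑ a ∈ A, ‖g a‖ ^ 2 := sq_sum_le_card_mul_sum_sq
  have h2 : ∑ a ∈ A, ‖g a‖ ^ 2 ≤ ∑ x : G, ‖g x‖ ^ 2 :=
    Finset.sum_le_sum_of_subset_of_nonneg (Finset.subset_univ A) (fun _ _ _ => by positivity)
  have h3 : ∀ x, ‖g x‖ ^ 2 =
      ∑ b ∈ B, ∑ b' ∈ B, (f (x + b) * (starRingEnd ℂ) (f (x + b'))).re := by
    intro x
    have h : ((‖g x‖ ^ 2 : ℝ) : ℂ) = g x * (starRingEnd ℂ) (g x) := by
      rw [Complex.mul_conj, Complex.normSq_eq_norm_sq]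
    have h' : ‖g x‖ ^ 2 = (g x * (starRingEnd ℂ) (g x)).re := by
      rw [← h, Complex.ofReal_re]
    rw [h', hg]
    simp only [map_sum]
    rw [Finset.sum_mul_sum]
    simp only [Complex.re_sum]
  have h4 : ∑ x : G, ‖g x‖ ^ 2 =
      ∑ b ∈ B, ∑ b' ∈ B, (∑ x : G, f (x + b) * (starRingEnd ℂ) (f (x + b'))).re := by
    simp only [h3]
    rw [Finset.sum_comm]
    refine Finset.sum_congr rfl fun b _ => ?_
    rw [Finset.sum_comm]
    refine Finset.sum_congr rfl fun b' _ => ?_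
    rw [Complex.re_sum]
  have h5 : ∀ b ∈ B, ∀ b' ∈ B,
      (∑ x : G, f (x + b) * (starRingEnd ℂ) (f (x + b'))).re ≤ (if b = b' then D else 0) + 1 := by
    intro b _ b' _
    have hs : ∑ x : G, f (x + b) * (starRingEnd ℂ) (f (x + b')) =
        ∑ x : G, f (x + (b - b')) * (starRingEnd ℂ) (f x) := by
      refine Fintype.sum_equiv (Equiv.addRight b') _ _ fun x => ?_
      simp only [Equiv.coe_addRight]
      rw [show x + b' + (b - b') = x + b by abel]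
    rw [hs]
    split_ifs with hb
    · rw [hb, sub_self]
      have : (∑ x : G, f (x + 0) * (starRingEnd ℂ) (f x)).re = ∑ x : G, ‖f x‖ ^ 2 := by
        rw [Complex.re_sum]
        refine Finset.sum_congr rfl fun x _ => ?_
        rw [add_zero, Complex.mul_conj, Complex.normSq_eq_norm_sq, Complex.ofReal_re]
      rw [this]
      linarith
    · have := hc (b - b') (sub_ne_zero.2 hb)
      linarith
  have h6 : ∑ x : G, ‖g x‖ ^ 2 ≤ (B.card : ℝ) * (D + B.card) := by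
    rw [h4]
    calc ∑ b ∈ B, ∑ b' ∈ B, (∑ x : G, f (x + b) * (starRingEnd ℂ) (f (x + b'))).re
        ≤ ∑ b ∈ B, ∑ b' ∈ B, ((if b = b' then D else 0) + 1) :=
          Finset.sum_le_sum fun b hb => Finset.sum_le_sum fun b' hb' => h5 b hb b' hb'
      _ = ∑ b ∈ B, (D + B.card) := by
          refine Finset.sum_congr rfl fun b hb => ?_
          rw [Finset.sum_add_distrib, Finset.sum_ite_eq, if_pos hb]
          simp
      _ = (B.card : ℝ) * (D + B.card) := by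
          rw [Finset.sum_const, nsmul_eq_mul]
  calc ‖∑ a ∈ A, ∑ b ∈ B, f (a + b)‖ ^ 2 = ‖∑ a ∈ A, g a‖ ^ 2 := rfl
    _ ≤ (A.card : ℝ) * ∑ a ∈ A, ‖g a‖ ^ 2 := h1
    _ ≤ (A.card : ℝ) * ∑ x : G, ‖g x‖ ^ 2 := by gcongr
    _ ≤ (A.card : ℝ) * ((B.card : ℝ) * (D + B.card)) := by gcongr
    _ = (A.card : ℝ) * B.card * (D + B.card) := by ring

end Pool.EMC
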