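import Pool.Agent.Work.MP_75c89d_cub.Interface

set_option autoImplicit false

open Polynomial

namespace Pool.EMC

theorem BLI_field (F : Type) [Field F] [Fintype F] (h3 : 3 ∣ Fintype.card F - 1) :
    (∃ θ : F, θ ^ 2 + θ + 1 = 0) ∧
    ∃ χ : MulChar F ℂ, χ ≠ 1 ∧ ∀ x : F, x ^ ((Fintype.card F - 1) / 3) = 1 → χ x = 1 := by
  classical
  have h1c := Fintype.one_lt_card (α := F)
  obtain ⟨n, hn⟩ := h3
  have hn0 : 0 < n := by omega
  obtain ⟨g, hg⟩ := IsCyclic.exists_generator (α := Fˣ)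
  have h1 : orderOf g = Fintype.card F - 1 := by
    rw [orderOf_eq_card_of_forall_mem_zpowers hg, Nat.card_eq_fintype_card, Fintype.card_units]
  constructor
  · refine ⟨(g : F) ^ n, ?_⟩
    have hne : (g : F) ^ n ≠ 1 := by
      intro h
      have h' : g ^ n = 1 := Units.ext (by simpa using h)
      have h'' := orderOf_dvd_of_pow_eq_one h'
      rw [h1, hn] at h''
      have := Nat.le_of_dvd hn0 h''
      omega
    have hc : ((g : F) ^ n) ^ 3 = 1 := by
      have := congrArg Units.val (pow_orderOf_eq_one g)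
      rw [h1, hn] at this
      rw [← pow_mul, mul_comm]
      simpa using this
    have h : ((g : F) ^ n - 1) * (((g : F) ^ n) ^ 2 + (g : F) ^ n + 1) = 0 := by
      linear_combination hc
    rcases mul_eq_zero.1 h with h | h
    · exact absurd (sub_eq_zero.1 h) hne
    · exact h
  · obtain ⟨χ, hχ⟩ := MulChar.exists_mulChar_orderOf F (n := 3) ⟨n, hn⟩
      (Complex.isPrimitiveRoot_exp 3 (by norm_num))
    refine ⟨χ, ?_, ?_⟩
    · rintro rfl
      simp at hχ
    · intro x hx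
      rw [hn, Nat.mul_div_cancel_left _ (by norm_num)] at hx
      have hx0 : x ≠ 0 := by
        rintro rfl
        simp [hn0.ne'] at hx
      obtain ⟨k, hk⟩ : ∃ k : ℕ, g ^ k = Units.mk0 x hx0 :=
        mem_powers_iff_mem_zpowers.2 (hg (Units.mk0 x hx0))
      have h2 : g ^ (k * n) = 1 := by
        rw [pow_mul, hk]
        exact Units.ext (by simpa using hx)
      have h3 := orderOf_dvd_of_pow_eq_one h2
      rw [h1, hn] at h3
      have h4 : 3 ∣ k := Nat.dvd_of_mul_dvd_mul_right hn0 h3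
      obtain ⟨j, rfl⟩ := h4
      have h5 : x = ((g : F) ^ j) ^ 3 := by
        rw [← pow_mul, mul_comm j 3]
        simpa using (congrArg Units.val hk).symm
      have h6 : (χ ^ 3) ((g : F) ^ j) = 1 := by
        rw [← hχ, pow_orderOf_eq_one]
        exact MulChar.one_apply ((Units.isUnit g).pow j)
      rw [h5, map_pow, ← h6, MulChar.pow_apply' _ (by norm_num)]

theorem BLI_aniso (p : ℕ) [Fact p.Prime] (h : p % 3 = 2) (a b : ZMod p)
    (hab : a ^ 2 - a * b + b ^ 2 = 0) : a = 0 ∧ b = 0 := by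
  by_cases hb : b = 0
  · subst hb
    simp at hab
    exact ⟨hab, rfl⟩
  · exfalso
    set t : ZMod p := -a / b with ht
    have h1 : t ^ 2 + t + 1 = 0 := by
      have : t ^ 2 + t + 1 = (a ^ 2 - a * b + b ^ 2) / b ^ 2 := by
        rw [ht]; field_simp; ring
      rw [this, hab, zero_div]
    have h3 : t ^ 3 = 1 := by linear_combination (t - 1) * h1
    have ht0 : t ≠ 0 := by
      intro h0
      rw [h0] at h1
      simp at h1
    have h4 : t ^ (p - 1) = 1 := ZMod.pow_card_sub_one_eq_one ht0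
    have h5 : p - 1 = 3 * (p / 3) + 1 := by omega
    rw [h5, pow_succ, pow_mul, h3, one_pow, one_mul] at h4
    rw [h4] at h1
    have h6 : ((3 : ℕ) : ZMod p) = 0 := by
      push_cast
      linear_combination h1
    rw [ZMod.natCast_eq_zero_iff] at h6
    have := (Nat.prime_dvd_prime_iff_eq (Fact.out : p.Prime) Nat.prime_three).1 h6
    omega

open Classical in
theorem BLI_norm (F : Type) [Field F] [Fintype F] (χ : MulChar F ℂ) (x : F) : ‖χ x‖ ≤ 1 := by
  by_cases hx : x = 0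
  · rw [hx, MulChar.map_zero]
    simp
  · have h1c := Fintype.one_lt_card (α := F)
    have h1 : χ x ^ (Fintype.card F - 1) = 1 := by
      rw [← map_pow, FiniteField.pow_card_sub_one_eq_one x hx, map_one]
    exact (Complex.norm_eq_one_of_pow_eq_one h1 (by omega)).le

open Classical in
theorem p_BLI (_hPUN : Stmt_PUN) (hBLA : Stmt_BLA) (hCOR : Stmt_COR) : Stmt_BLI := by
  intro p hp hp3 Y hY M hM c
  have : Fact p.Prime := ⟨hp⟩
  let F := GaloisField p 2
  have : Fintype F := Fintype.ofFinite F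
  have hcard : Fintype.card F = p ^ 2 := by
    rw [← Nat.card_eq_fintype_card]
    exact GaloisField.card p 2 (by norm_num)
  have h3 : 3 ∣ Fintype.card F - 1 := by
    rw [hcard]
    obtain ⟨k, hk⟩ : ∃ k, p = 3 * k + 2 := ⟨p / 3, by omega⟩
    rw [hk]
    refine ⟨3 * k ^ 2 + 4 * k + 1, ?_⟩
    have : (3 * k + 2) ^ 2 = 3 * (3 * k ^ 2 + 4 * k + 1) + 1 := by ring
    omega
  obtain ⟨⟨θ, hθ⟩, χ, hχ, hχ1⟩ := BLI_field F h3
  have hpF : ((p : ℤ) : F) = 0 := by
    have : ((p : ℕ) : F) = 0 := CharP.cast_eq_zero F p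
    exact_mod_cast this
  have hker : ∀ z : E, ev θ z = 0 → (p : ℤ) ∣ z.re ∧ (p : ℤ) ∣ z.im := by
    intro z hz
    have h1 : ((nm z : ℤ) : F) = 0 := by rw [← ev_mul_ev hθ, hz, zero_mul]
    have h2 : ((nm z : ℤ) : ZMod p) = 0 := by
      rw [ZMod.intCast_zmod_eq_zero_iff_dvd]
      exact (CharP.intCast_eq_zero_iff F p _).1 h1
    have h3 : ((z.re : ℤ) : ZMod p) ^ 2 - ((z.re : ℤ) : ZMod p) * ((z.im : ℤ) : ZMod p)
        + ((z.im : ℤ) : ZMod p) ^ 2 = 0 := by
      rw [← h2, nm]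
      push_cast
      ring
    obtain ⟨h4, h5⟩ := BLI_aniso p hp3 _ _ h3
    exact ⟨(ZMod.intCast_zmod_eq_zero_iff_dvd _ _).1 h4,
      (ZMod.intCast_zmod_eq_zero_iff_dvd _ _).1 h5⟩
  set S : Finset (ℕ × ℕ) := Finset.range Y ×ˢ Finset.range Y with hS
  let sa : ℕ × ℕ → F := fun z => ev θ ⟨c.re + M * (z.1 : ℤ), c.im + M * (z.2 : ℤ)⟩
  let sb : ℕ × ℕ → F := fun z => ev θ ⟨M * (z.1 : ℤ), M * (z.2 : ℤ)⟩
  have hsa : ∀ z, sa z = ev θ c + sb z := by
    intro z
    rw [← ev_add]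
    rfl
  have hpt : ∀ x : (ℕ × ℕ) × (ℕ × ℕ), ev θ (pt c M x) = sa x.1 + sb x.2 := by
    intro x
    simp only [sa, sb]
    rw [← ev_add]
    congr 1
    refine ext' ?_ ?_
    · simp only [pt, QuadraticAlgebra.re_add]
      push_cast
      ring
    · simp only [pt, QuadraticAlgebra.im_add]
      push_cast
      ring
  have hcan : ∀ a b : ℕ, a < Y → b < Y → (p : ℤ) ∣ M * (a : ℤ) - M * (b : ℤ) → a = b := by
    intro a b ha hb hd
    rw [← mul_sub] at hd
    have hd' : (p : ℤ) ∣ (a : ℤ) - b :=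
      ((Nat.prime_iff_prime_int.1 hp).dvd_or_dvd hd).resolve_left hM
    have h0 : (a : ℤ) - b = 0 := by
      apply Int.eq_zero_of_abs_lt_dvd hd'
      rw [abs_lt]
      constructor <;> omega
    omega
  have hinjb : Set.InjOn sb (S : Set (ℕ × ℕ)) := by
    intro z hz z' hz' h
    simp only [hS, Finset.coe_product, Finset.coe_range, Set.mem_prod, Set.mem_Iio] at hz hz'
    have h0 : ev θ ((⟨M * (z.1 : ℤ), M * (z.2 : ℤ)⟩ : E) -
        (⟨M * (z'.1 : ℤ), M * (z'.2 : ℤ)⟩ : E)) = 0 := by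
      rw [ev_sub]
      exact sub_eq_zero.2 h
    obtain ⟨h1, h2⟩ := hker _ h0
    simp only [QuadraticAlgebra.re_sub, QuadraticAlgebra.im_sub] at h1 h2
    exact Prod.ext (hcan _ _ hz.1 hz'.1 h1) (hcan _ _ hz.2 hz'.2 h2)
  have hinja : Set.InjOn sa (S : Set (ℕ × ℕ)) := by
    intro z hz z' hz' h
    rw [hsa, hsa] at h
    exact hinjb hz hz' (add_left_cancel h)
  have hScard : S.card = Y ^ 2 := by
    rw [hS, Finset.card_product, Finset.card_range, sq]
  have hAc : (S.image sa).card = Y ^ 2 := by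
    rw [Finset.card_image_of_injOn hinja, hScard]
  have hBc : (S.image sb).card = Y ^ 2 := by
    rw [Finset.card_image_of_injOn hinjb, hScard]
  have hB := hBLA F (fun x => χ x) ((p : ℝ) ^ 2) (by
      calc ∑ x : F, ‖χ x‖ ^ 2 ≤ ∑ x : F, (1 : ℝ) :=
            Finset.sum_le_sum fun x _ => pow_le_one₀ (norm_nonneg _) (BLI_norm F χ x)
        _ = (p : ℝ) ^ 2 := by
            rw [Finset.sum_const, Finset.card_univ, hcard]
            simp) (by
      intro h hh
      rw [(hCOR F χ hχ).1 h hh]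
      norm_num) (S.image sa) (S.image sb)
  have hsum : ∑ a ∈ S.image sa, ∑ b ∈ S.image sb, χ (a + b)
      = ∑ x ∈ QB Y, χ (ev θ (pt c M x)) := by
    have e1 : ∑ a ∈ S.image sa, ∑ b ∈ S.image sb, χ (a + b)
        = ∑ z ∈ S, ∑ b ∈ S.image sb, χ (sa z + b) :=
      Finset.sum_image (f := fun a => ∑ b ∈ S.image sb, χ (a + b)) hinja
    have e3 : ∑ x ∈ QB Y, χ (ev θ (pt c M x)) = ∑ z ∈ S, ∑ w ∈ S, χ (ev θ (pt c M (z, w))) :=
      Finset.sum_product S S (fun x => χ (ev θ (pt c M x)))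
    rw [e1, e3]
    refine Finset.sum_congr rfl fun z _ => ?_
    have e2 : ∑ b ∈ S.image sb, χ (sa z + b) = ∑ w ∈ S, χ (sa z + sb w) :=
      Finset.sum_image (f := fun b => χ (sa z + b)) hinjb
    rw [e2]
    refine Finset.sum_congr rfl fun w _ => ?_
    rw [hpt]
  rw [hsum, hAc, hBc] at hB
  -- lower bound
  have hPsi : ∀ x, Psi p (pt c M x) 0 → χ (ev θ (pt c M x)) = 1 := by
    intro x hx
    apply hχ1
    obtain ⟨w, hw⟩ := hx.2 hp3
    have h1 := congrArg (ev θ) hw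
    rw [ev_sub, ev_mul hθ, ev_intCast, ev_pow hθ, hpF, zero_mul] at h1
    have h2 : om ^ ((0 : ZMod 3)).val = 1 := by simp
    rw [h2, ev_one] at h1
    rw [hcard]
    exact sub_eq_zero.1 h1
  set N : ℕ := ((QB Y).filter fun x => ¬ Psi p (pt c M x) 0).card with hN
  set N' : ℕ := ((QB Y).filter fun x => Psi p (pt c M x) 0).card with hN'
  have hNN : N' + N = Y ^ 4 := by
    rw [hN, hN', Finset.card_filter_add_card_filter_not]
    simp only [QB, Finset.card_product, Finset.card_range]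
    ring
  have hlow : (N' : ℝ) - N ≤ ‖∑ x ∈ QB Y, χ (ev θ (pt c M x))‖ := by
    rw [← Finset.sum_filter_add_sum_filter_not (QB Y) (fun x => Psi p (pt c M x) 0)]
    have h1 : ∑ x ∈ (QB Y).filter (fun x => Psi p (pt c M x) 0), χ (ev θ (pt c M x))
        = (N' : ℂ) := by
      rw [Finset.sum_congr rfl (fun x hx => hPsi x (Finset.mem_filter.1 hx).2)]
      simp [hN']
    have h2 : ‖∑ x ∈ (QB Y).filter (fun x => ¬ Psi p (pt c M x) 0), χ (ev θ (pt c M x))‖
        ≤ (N : ℝ) := by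
      refine (norm_sum_le_of_le (n := fun _ => (1 : ℝ)) _ fun x _ => BLI_norm F χ _).trans ?_
      simp [hN]
    rw [h1]
    have h3 := norm_sub_norm_le (N' : ℂ)
      (-∑ x ∈ (QB Y).filter (fun x => ¬ Psi p (pt c M x) 0), χ (ev θ (pt c M x)))
    rw [norm_neg, sub_neg_eq_add, Complex.norm_natCast] at h3
    linarith
  have hup : ‖∑ x ∈ QB Y, χ (ev θ (pt c M x))‖ ≤
      (Y : ℝ) ^ 2 * Real.sqrt ((p : ℝ) ^ 2 + (Y : ℝ) ^ 2) := by
    refine abs_le_of_sq_le_sq' ?_ (by positivity) |>.2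
    rw [mul_pow, Real.sq_sqrt (by positivity)]
    calc _ ≤ _ := hB
      _ = _ := by push_cast; ring
  have hNN' : (N' : ℝ) + N = (Y : ℝ) ^ 4 := by exact_mod_cast hNN
  linarith

end Pool.EMC
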