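import Pool.Agent.Work.MP_75c89d_cub.Interface

/-! # Block BLP: the bilinear sum for the primes 1 modulo 3 (helper38) -/

set_option autoImplicit false

open Polynomial

namespace Pool.EMC

theorem BLP_root (p : ℕ) [Fact p.Prime] (h1 : p % 3 = 1) : ∃ r : ZMod p, r ^ 2 + r + 1 = 0 := by
  have hc : 3 ∣ Fintype.card (ZMod p)ˣ := by
    rw [ZMod.card_units_eq_totient, Nat.totient_prime Fact.out]
    have := (Fact.out : p.Prime).two_le
    omega
  haveI : Fact (Nat.Prime 3) := ⟨Nat.prime_three⟩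
  obtain ⟨x, hx⟩ := exists_prime_orderOf_dvd_card 3 hc
  have h3 : x ^ 3 = 1 := by rw [← hx]; exact pow_orderOf_eq_one x
  have hne : x ≠ 1 := by
    rintro rfl
    rw [orderOf_one] at hx
    omega
  refine ⟨(x : ZMod p), ?_⟩
  have h4 : (x : ZMod p) ^ 3 = 1 := by rw [← Units.val_pow_eq_pow_val, h3, Units.val_one]
  have h5 : ((x : ZMod p) - 1) * ((x : ZMod p) ^ 2 + x + 1) = 0 := by linear_combination h4
  rcases mul_eq_zero.1 h5 with h | h
  · exact absurd (Units.ext (by rw [Units.val_one]; exact sub_eq_zero.1 h)) hne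
  · exact h

theorem BLP_chi (p : ℕ) [Fact p.Prime] (h1 : p % 3 = 1) : ∃ χ : MulChar (ZMod p) ℂ, χ ≠ 1 ∧
    (∀ y : ZMod p, y ≠ 0 → χ y ^ 3 = 1) ∧
    ∀ y : ZMod p, y ^ ((p - 1) / 3) = 1 → χ y = 1 := by
  have hp2 := (Fact.out : p.Prime).two_le
  have hcard : Fintype.card (ZMod p)ˣ = p - 1 := by
    rw [ZMod.card_units_eq_totient, Nat.totient_prime Fact.out]
  obtain ⟨χ, hχ⟩ := MulChar.exists_mulChar_orderOf (ZMod p) (n := 3)
    (by rw [ZMod.card]; omega) (Complex.isPrimitiveRoot_exp 3 (by norm_num))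
  have hcube : ∀ y : ZMod p, y ≠ 0 → χ y ^ 3 = 1 := by
    intro y hy
    have h := MulChar.pow_apply_coe χ 3 (Units.mk0 y hy)
    have h2 : χ ^ 3 = 1 := by rw [← hχ]; exact pow_orderOf_eq_one χ
    rw [h2, MulChar.one_apply_coe] at h
    exact h.symm
  refine ⟨χ, ?_, hcube, ?_⟩
  · rintro rfl
    rw [orderOf_one] at hχ
    omega
  · intro y hy
    have hm : 0 < (p - 1) / 3 := by omega
    have hy0 : y ≠ 0 := by
      rintro rfl
      rw [zero_pow hm.ne'] at hy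
      exact zero_ne_one hy
    obtain ⟨g, hg⟩ := IsCyclic.exists_generator (α := (ZMod p)ˣ)
    obtain ⟨k, hk⟩ := mem_powers_iff_mem_zpowers.2 (hg (Units.mk0 y hy0))
    have hk' : g ^ k = Units.mk0 y hy0 := hk
    have hyu : (Units.mk0 y hy0) ^ ((p - 1) / 3) = 1 := by
      apply Units.ext
      rw [Units.val_pow_eq_pow_val, Units.val_mk0, hy, Units.val_one]
    rw [← hk', ← pow_mul] at hyu
    have h5 : orderOf g ∣ k * ((p - 1) / 3) := orderOf_dvd_of_pow_eq_one hyu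
    have h6 : orderOf g = p - 1 := by
      rw [orderOf_eq_card_of_forall_mem_zpowers hg, Nat.card_eq_fintype_card, hcard]
    have h7 : p - 1 = 3 * ((p - 1) / 3) := by omega
    rw [h6, h7] at h5
    have h8 : 3 ∣ k := by
      rw [Nat.mul_div_cancel_left _ (by norm_num : 0 < 3)] at h5
      exact Nat.dvd_of_mul_dvd_mul_right hm h5
    obtain ⟨j, rfl⟩ := h8
    have h9 : y = (g : ZMod p) ^ (3 * j) := by
      have := congrArg Units.val hk'
      rw [Units.val_pow_eq_pow_val, Units.val_mk0] at this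
      exact this.symm
    rw [h9, map_pow, pow_mul, hcube _ g.ne_zero, one_pow]

theorem BLP_conj {p : ℕ} (χ : MulChar (ZMod p) ℂ) (y : ZMod p) (h : χ y ^ 3 = 1) :
    (starRingEnd ℂ) (χ y) = χ y ^ 2 := by
  have hn : ‖χ y‖ = 1 := Complex.norm_eq_one_of_pow_eq_one h (by norm_num)
  rw [← Complex.inv_eq_conj hn]
  exact inv_eq_of_mul_eq_one_right (by rw [← pow_succ', h])

theorem BLP_good (p : ℕ) [Fact p.Prime] (h1 : p % 3 = 1) (r : ZMod p)
    (hr : r ^ 2 + r + 1 = 0) (χ : MulChar (ZMod p) ℂ)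
    (hc : ∀ y : ZMod p, y ≠ 0 → χ y ^ 3 = 1)
    (hm : ∀ y : ZMod p, y ^ ((p - 1) / 3) = 1 → χ y = 1) (α : E) (h : Psi p α 0) :
    χ (ev r α) * (starRingEnd ℂ) (χ (ev (r ^ 2) α)) = 1 := by
  have hp2 := (Fact.out : p.Prime).two_le
  obtain ⟨w, hw⟩ := h.1 h1
  have h2 := congrArg (evHom r hr) hw
  rw [map_sub, map_mul, map_mul, map_one, map_pow, map_pow, map_mul, map_pow, evHom_apply,
    evHom_apply, evHom_apply, evHom_apply, ev_cj hr, ev_intCast] at h2
  have h3 : (((p : ℕ) : ℤ) : ZMod p) = 0 := by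
    rw [Int.cast_natCast, ZMod.natCast_self]
  rw [h3, zero_mul, ZMod.val_zero, pow_zero, mul_one, sub_eq_zero] at h2
  have hm0 : (p - 1) / 3 ≠ 0 := by omega
  have h4 : (ev r α) ^ 2 * ev (r ^ 2) α ≠ 0 := by
    intro h0
    rw [h0, zero_pow hm0] at h2
    exact zero_ne_one h2
  have hs : ev r α ≠ 0 := by
    intro h0
    exact h4 (by rw [h0]; ring)
  have ht : ev (r ^ 2) α ≠ 0 := by
    intro h0
    exact h4 (by rw [h0]; ring)
  have h5 := hm _ h2
  rw [map_mul, map_pow] at h5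
  rw [BLP_conj χ _ (hc _ ht)]
  have h6 := hc _ hs
  have h7 := hc _ ht
  calc χ (ev r α) * χ (ev (r ^ 2) α) ^ 2
      = χ (ev r α) * χ (ev (r ^ 2) α) ^ 2 * (χ (ev r α) ^ 2 * χ (ev (r ^ 2) α)) := by
        rw [h5, mul_one]
    _ = χ (ev r α) ^ 3 * χ (ev (r ^ 2) α) ^ 3 := by ring
    _ = 1 := by rw [h6, h7, mul_one]

/-- the correlations of `χ` -/
noncomputable def BLP_c {p : ℕ} [Fact p.Prime] (χ : MulChar (ZMod p) ℂ) (h : ZMod p) : ℂ :=
  ∑ x : ZMod p, χ (x + h) * (starRingEnd ℂ) (χ x)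

theorem BLP_c_val (hCOR : Stmt_COR) {p : ℕ} [Fact p.Prime] (χ : MulChar (ZMod p) ℂ)
    (hχ : χ ≠ 1) (h : ZMod p) : BLP_c χ h = if h = 0 then (p : ℂ) - 1 else -1 := by
  unfold BLP_c
  by_cases h0 : h = 0
  · rw [if_pos h0, h0]
    simp only [add_zero]
    rw [(hCOR (ZMod p) χ hχ).2, ZMod.card]
  · rw [if_neg h0]
    exact (hCOR (ZMod p) χ hχ).1 h h0

theorem BLP_corr (hCOR : Stmt_COR) {p : ℕ} [Fact p.Prime] (χ : MulChar (ZMod p) ℂ)
    (hχ : χ ≠ 1) (f : ZMod p × ZMod p → ℂ)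
    (hf : ∀ x, f x = χ x.1 * (starRingEnd ℂ) (χ x.2)) (h : ZMod p × ZMod p) (hh : h ≠ 0) :
    (∑ x : ZMod p × ZMod p, f (x + h) * (starRingEnd ℂ) (f x)).re ≤ 1 := by
  have h1 : ∑ x : ZMod p × ZMod p, f (x + h) * (starRingEnd ℂ) (f x)
      = BLP_c χ h.1 * (starRingEnd ℂ) (BLP_c χ h.2) := by
    unfold BLP_c
    rw [map_sum, Fintype.sum_mul_sum, Fintype.sum_prod_type]
    refine Finset.sum_congr rfl (fun s _ => Finset.sum_congr rfl (fun t _ => ?_))
    rw [hf, hf, map_mul, map_mul, Complex.conj_conj]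
    simp only [Prod.fst_add, Prod.snd_add, Complex.conj_conj]
    ring
  rw [h1, BLP_c_val hCOR χ hχ, BLP_c_val hCOR χ hχ]
  have hp2 : (2 : ℝ) ≤ p := by exact_mod_cast (Fact.out : p.Prime).two_le
  have hre : ((p : ℂ) - 1).re = (p : ℝ) - 1 := by simp
  have him : ((p : ℂ) - 1).im = 0 := by simp
  by_cases ha : h.1 = 0
  · have hb : h.2 ≠ 0 := by
      intro hb
      exact hh (Prod.ext ha hb)
    rw [if_pos ha, if_neg hb, map_neg, map_one, mul_neg, mul_one, Complex.neg_re, hre]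
    linarith
  · rw [if_neg ha]
    by_cases hb : h.2 = 0
    · rw [if_pos hb, neg_mul, one_mul, Complex.neg_re, Complex.conj_re, hre]
      linarith
    · rw [if_neg hb, map_neg, map_one, neg_mul_neg, one_mul, Complex.one_re]

theorem BLP_norm {p : ℕ} [Fact p.Prime] (χ : MulChar (ZMod p) ℂ)
    (hc : ∀ y : ZMod p, y ≠ 0 → χ y ^ 3 = 1) (y : ZMod p) : ‖χ y‖ ≤ 1 := by
  by_cases hy : y = 0
  · rw [hy, MulChar.map_zero, norm_zero]
    exact zero_le_one
  · exact (Complex.norm_eq_one_of_pow_eq_one (hc y hy) (by norm_num)).le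

theorem BLP_inj (p : ℕ) [Fact p.Prime] (h1 : p % 3 = 1) (r : ZMod p) (hr : r ^ 2 + r + 1 = 0)
    (M : ℤ) (hM : ¬ (p : ℤ) ∣ M) (Y : ℕ) (hY : Y ≤ p) (u v : ZMod p) :
    Set.InjOn (fun x : ℕ × ℕ => ((u + (M : ZMod p) * x.1 + (v + (M : ZMod p) * x.2) * r,
      u + (M : ZMod p) * x.1 + (v + (M : ZMod p) * x.2) * r ^ 2) : ZMod p × ZMod p))
      (Finset.range Y ×ˢ Finset.range Y : Finset (ℕ × ℕ)) := by
  intro x hx y hy hxy
  rw [Finset.mem_coe, Finset.mem_product, Finset.mem_range, Finset.mem_range] at hx hy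
  have hM0 : (M : ZMod p) ≠ 0 := by
    rw [Ne, ZMod.intCast_zmod_eq_zero_iff_dvd]
    exact hM
  have e1 := congrArg Prod.fst hxy
  have e2 := congrArg Prod.snd hxy
  change u + (M : ZMod p) * x.1 + (v + (M : ZMod p) * x.2) * r
    = u + (M : ZMod p) * y.1 + (v + (M : ZMod p) * y.2) * r at e1
  change u + (M : ZMod p) * x.1 + (v + (M : ZMod p) * x.2) * r ^ 2
    = u + (M : ZMod p) * y.1 + (v + (M : ZMod p) * y.2) * r ^ 2 at e2
  have hr0 : r ≠ 0 := by
    rintro rfl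
    have : (1 : ZMod p) = 0 := by linear_combination hr
    exact one_ne_zero this
  have hr1 : 1 - r ≠ 0 := by
    intro h
    have h3 : ((3 : ℕ) : ZMod p) = 0 := by
      push_cast
      linear_combination hr + (r + 2) * h
    rw [ZMod.natCast_eq_zero_iff] at h3
    have := (Nat.prime_dvd_prime_iff_eq (Fact.out : p.Prime) Nat.prime_three).1 h3
    omega
  have e3 : (M : ZMod p) * (((x.2 : ZMod p) - y.2) * (r * (1 - r))) = 0 := by
    linear_combination e1 - e2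
  have e4 : (x.2 : ZMod p) = y.2 := by
    rcases mul_eq_zero.1 e3 with h | h
    · exact absurd h hM0
    · rcases mul_eq_zero.1 h with h | h
      · exact sub_eq_zero.1 h
      · exact absurd h (mul_ne_zero hr0 hr1)
  have e5 : (M : ZMod p) * ((x.1 : ZMod p) - y.1) = 0 := by
    rw [e4] at e1
    linear_combination e1
  have e6 : (x.1 : ZMod p) = y.1 := by
    rcases mul_eq_zero.1 e5 with h | h
    · exact absurd h hM0
    · exact sub_eq_zero.1 h
  have e7 : x.1 = y.1 := by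
    have := congrArg ZMod.val e6
    rwa [ZMod.val_natCast_of_lt (lt_of_lt_of_le hx.1 hY),
      ZMod.val_natCast_of_lt (lt_of_lt_of_le hy.1 hY)] at this
  have e8 : x.2 = y.2 := by
    have := congrArg ZMod.val e4
    rwa [ZMod.val_natCast_of_lt (lt_of_lt_of_le hx.2 hY),
      ZMod.val_natCast_of_lt (lt_of_lt_of_le hy.2 hY)] at this
  exact Prod.ext e7 e8

open Classical in
theorem BLP_lower {ι : Type} (S : Finset ι) (f : ι → ℂ) (P : ι → Prop)
    (h1 : ∀ x ∈ S, P x → f x = 1) (h2 : ∀ x ∈ S, ‖f x‖ ≤ 1) :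
    (S.card : ℝ) - 2 * ((S.filter fun x => ¬ P x).card : ℝ) ≤ ‖∑ x ∈ S, f x‖ := by
  have h3 : (S.card : ℝ) - 2 * ((S.filter fun x => ¬ P x).card : ℝ)
      = ∑ x ∈ S, (1 - 2 * (if ¬ P x then (1 : ℝ) else 0)) := by
    rw [Finset.sum_sub_distrib, ← Finset.mul_sum, Finset.sum_boole, Finset.sum_const,
      nsmul_eq_mul, mul_one]
  rw [h3]
  refine le_trans ?_ (Complex.re_le_norm _)
  rw [Complex.re_sum]
  refine Finset.sum_le_sum (fun x hx => ?_)
  by_cases hP : P x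
  · rw [if_neg (not_not.2 hP), h1 x hx hP, Complex.one_re]
    norm_num
  · rw [if_pos hP]
    have h4 := (abs_le.1 ((Complex.abs_re_le_norm (f x)).trans (h2 x hx))).1
    linarith

open Classical in
theorem p_BLP (_hPUN : Stmt_PUN) (hBLA : Stmt_BLA) (hCOR : Stmt_COR) : Stmt_BLP := by
  intro p hp h1 Y hY M hM c
  haveI : Fact p.Prime := ⟨hp⟩
  obtain ⟨r, hr⟩ := BLP_root p h1
  obtain ⟨χ, hχ, hc, hm⟩ := BLP_chi p h1
  set f : ZMod p × ZMod p → ℂ := fun x => χ x.1 * (starRingEnd ℂ) (χ x.2) with hf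
  have hfn : ∀ x, ‖f x‖ ≤ 1 := by
    intro x
    rw [hf]
    change ‖χ x.1 * (starRingEnd ℂ) (χ x.2)‖ ≤ 1
    rw [norm_mul, RCLike.norm_conj]
    exact mul_le_one₀ (BLP_norm χ hc _) (norm_nonneg _) (BLP_norm χ hc _)
  set R : Finset (ℕ × ℕ) := Finset.range Y ×ˢ Finset.range Y with hR
  have hRc : R.card = Y ^ 2 := by
    rw [hR, Finset.card_product, Finset.card_range, sq]
  set gA : ℕ × ℕ → ZMod p × ZMod p := fun x =>
    (((c.re : ZMod p) + (M : ZMod p) * x.1 + ((c.im : ZMod p) + (M : ZMod p) * x.2) * r,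
      (c.re : ZMod p) + (M : ZMod p) * x.1 + ((c.im : ZMod p) + (M : ZMod p) * x.2) * r ^ 2))
    with hgA
  set gB : ℕ × ℕ → ZMod p × ZMod p := fun x =>
    (((0 : ZMod p) + (M : ZMod p) * x.1 + ((0 : ZMod p) + (M : ZMod p) * x.2) * r,
      (0 : ZMod p) + (M : ZMod p) * x.1 + ((0 : ZMod p) + (M : ZMod p) * x.2) * r ^ 2))
    with hgB
  have iA : Set.InjOn gA R := BLP_inj p h1 r hr M hM Y hY _ _
  have iB : Set.InjOn gB R := BLP_inj p h1 r hr M hM Y hY _ _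
  have hadd : ∀ x : (ℕ × ℕ) × (ℕ × ℕ),
      gA x.1 + gB x.2 = (ev r (pt c M x), ev (r ^ 2) (pt c M x)) := by
    intro x
    refine Prod.ext ?_ ?_
    · simp only [hgA, hgB, Prod.fst_add, ev, pt]
      push_cast
      ring
    · simp only [hgA, hgB, Prod.snd_add, ev, pt]
      push_cast
      ring
  have hD : ∑ x : ZMod p × ZMod p, ‖f x‖ ^ 2 ≤ (p : ℝ) ^ 2 := by
    calc ∑ x : ZMod p × ZMod p, ‖f x‖ ^ 2 ≤ ∑ _x : ZMod p × ZMod p, (1 : ℝ) :=
          Finset.sum_le_sum (fun x _ => pow_le_one₀ (norm_nonneg _) (hfn x))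
      _ = (p : ℝ) ^ 2 := by
          rw [Finset.sum_const, Finset.card_univ, Fintype.card_prod, ZMod.card, nsmul_eq_mul,
            mul_one]
          push_cast
          ring
  have hcorr := BLP_corr hCOR χ hχ f (fun x => rfl)
  have key := hBLA (ZMod p × ZMod p) f ((p : ℝ) ^ 2) hD (fun h hh => hcorr h hh)
    (R.image gA) (R.image gB)
  rw [Finset.card_image_of_injOn iA, Finset.card_image_of_injOn iB, hRc,
    Finset.sum_image iA] at key
  have hsum : ∑ a ∈ R, ∑ b ∈ R.image gB, f (gA a + b)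
      = ∑ x ∈ QB Y, f (ev r (pt c M x), ev (r ^ 2) (pt c M x)) := by
    refine Eq.trans ?_ (Finset.sum_product R R
      (fun x => f (ev r (pt c M x), ev (r ^ 2) (pt c M x)))).symm
    refine Finset.sum_congr rfl (fun a _ => ?_)
    refine (Finset.sum_image (f := fun b => f (gA a + b)) iB).trans ?_
    refine Finset.sum_congr rfl (fun b _ => ?_)
    exact congrArg f (hadd (a, b))
  rw [hsum] at key
  have hlow := BLP_lower (QB Y) (fun x => f (ev r (pt c M x), ev (r ^ 2) (pt c M x)))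
    (fun x => Psi p (pt c M x) 0)
    (fun x _ hx => BLP_good p h1 r hr χ hc hm (pt c M x) hx) (fun x _ => hfn _)
  have hQc : ((QB Y).card : ℝ) = (Y : ℝ) ^ 4 := by
    unfold QB
    rw [← hR, Finset.card_product, hRc]
    push_cast
    ring
  rw [hQc] at hlow
  have hup : ‖∑ x ∈ QB Y, f (ev r (pt c M x), ev (r ^ 2) (pt c M x))‖
      ≤ (Y : ℝ) ^ 2 * Real.sqrt ((p : ℝ) ^ 2 + (Y : ℝ) ^ 2) := by
    apply Real.le_sqrt_of_sq_le at key
    refine key.trans (le_of_eq ?_)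
    rw [show ((Y ^ 2 : ℕ) : ℝ) * ((Y ^ 2 : ℕ) : ℝ) * ((p : ℝ) ^ 2 + ((Y ^ 2 : ℕ) : ℝ))
      = ((Y : ℝ) ^ 2) ^ 2 * ((p : ℝ) ^ 2 + (Y : ℝ) ^ 2) by push_cast; ring,
      Real.sqrt_mul (by positivity), Real.sqrt_sq (by positivity)]
  linarith

end Pool.EMC
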