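import Pool.Agent.Work.MP_75c89d_cub.Interface

/-!
# MP_75c89d_nt, THEOREM CUB, block CHI (typist helper87)
-/

set_option autoImplicit false

open Polynomial

namespace Pool.EMC

theorem CHI_om_ne : om ≠ 1 := by
  intro h
  have := congrArg QuadraticAlgebra.im h
  simp [om] at this

theorem CHI_om_sq_ne : om ^ 2 ≠ 1 := by
  intro h
  rw [om_sq] at h
  have := congrArg QuadraticAlgebra.im h
  simp [om] at this

theorem CHI_prim : IsPrimitiveRoot om 3 := by
  have h : orderOf om = 3 := by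
    have : Fact (Nat.Prime 3) := ⟨Nat.prime_three⟩
    exact orderOf_eq_prime om_cube CHI_om_ne
  rw [← h]
  exact IsPrimitiveRoot.orderOf om

/-- the cube roots of unity -/
theorem CHI_roots {R : Type*} [CommRing R] [IsDomain R] {r z : R} (hr : r ^ 2 + r + 1 = 0)
    (hz : z ^ 3 = 1) (hz1 : z ≠ 1) : z = r ∨ z = r ^ 2 := by
  have h : (z - 1) * ((z - r) * (z - r ^ 2)) = 0 := by
    linear_combination hz + (z - 1) * (r - 1 - z) * hr
  rcases mul_eq_zero.1 h with h1 | h1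
  · exact absurd (sub_eq_zero.1 h1) hz1
  · rcases mul_eq_zero.1 h1 with h2 | h2
    · exact Or.inl (sub_eq_zero.1 h2)
    · exact Or.inr (sub_eq_zero.1 h2)

/-- a character with the right value at a generator -/
theorem CHI_fin {l : ℕ} [Fact l.Prime] (hl : l % 3 = 1) {r : ZMod l} (hr : r ^ 2 + r + 1 = 0)
    (g : (ZMod l)ˣ) (hg : ∀ u : (ZMod l)ˣ, u ∈ Subgroup.zpowers g) (χ : MulChar (ZMod l) E)
    (h3 : χ ^ 3 = 1) (i : ℕ) (hi : χ (g : ZMod l) = om ^ i) (hne : om ^ i ≠ 1)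
    (hs : (g : ZMod l) ^ ((l - 1) / 3) = r ^ i) : Chi l r χ := by
  have hl2 : 2 ≤ l := (Fact.out : l.Prime).two_le
  refine ⟨?_, h3, ?_⟩
  · rintro rfl
    rw [MulChar.one_apply_coe] at hi
    exact hne hi.symm
  · intro x
    by_cases hx : x = 0
    · subst hx
      rw [MulChar.map_zero, zero_pow (by omega)]
      simp [ev]
    · obtain ⟨u, rfl⟩ : IsUnit x := (isUnit_iff_ne_zero).2 hx
      obtain ⟨n, hn⟩ := (mem_powers_iff_mem_zpowers.2 (hg u))
      simp only at hn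
      rw [← hn, Units.val_pow_eq_pow_val, map_pow, hi, ← pow_mul, ev_pow hr, ev_om, ← pow_mul,
        mul_comm n, pow_mul (g : ZMod l), hs, ← pow_mul]

theorem p_CHI : Stmt_CHI := by
  intro l _ hl r hr
  have hl2 : 2 ≤ l := (Fact.out : l.Prime).two_le
  have hcard : Fintype.card (ZMod l) = l := ZMod.card l
  obtain ⟨χ₀, h0⟩ := MulChar.exists_mulChar_orderOf (ZMod l) (R := E) (n := 3)
    (by rw [hcard]; omega) CHI_prim
  have h03 : χ₀ ^ 3 = 1 := by
    rw [← h0]
    exact pow_orderOf_eq_one χ₀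
  obtain ⟨g, hg⟩ := IsCyclic.exists_generator (α := (ZMod l)ˣ)
  have hv3 : χ₀ (g : ZMod l) ^ 3 = 1 := by
    rw [← MulChar.pow_apply_coe, h03, MulChar.one_apply_coe]
  have hv1 : χ₀ (g : ZMod l) ≠ 1 := by
    intro h1
    have : χ₀ = 1 := by
      refine MulChar.ext fun u => ?_
      obtain ⟨n, hn⟩ := (mem_powers_iff_mem_zpowers.2 (hg u))
      simp only at hn
      rw [← hn, Units.val_pow_eq_pow_val, map_pow, h1, one_pow, ← Units.val_pow_eq_pow_val,
        MulChar.one_apply_coe]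
    rw [this, orderOf_one] at h0
    omega
  -- a character with value `ω`
  have hom : om ^ 2 + om + 1 = 0 := by
    rw [om_sq]
    ring
  obtain ⟨χ, hχ3, hχ⟩ : ∃ χ : MulChar (ZMod l) E, χ ^ 3 = 1 ∧ χ (g : ZMod l) = om := by
    rcases CHI_roots hom hv3 hv1 with h | h
    · exact ⟨χ₀, h03, h⟩
    · refine ⟨χ₀ ^ 2, ?_, ?_⟩
      · rw [← pow_mul, mul_comm, pow_mul, h03, one_pow]
      · rw [MulChar.pow_apply_coe, h]
        have : (om ^ 2) ^ 2 = om ^ 3 * om := by ring
        rw [this, om_cube, one_mul]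
  -- the value of the power
  have hord : orderOf g = l - 1 := by
    rw [orderOf_eq_card_of_forall_mem_zpowers hg, Nat.card_eq_fintype_card, ZMod.card_units_eq_totient,
      Nat.totient_prime Fact.out]
  have hs3 : ((g : ZMod l) ^ ((l - 1) / 3)) ^ 3 = 1 := by
    rw [← pow_mul, ← Units.val_pow_eq_pow_val]
    have : (l - 1) / 3 * 3 = orderOf g := by rw [hord]; omega
    rw [this, pow_orderOf_eq_one, Units.val_one]
  have hs1 : (g : ZMod l) ^ ((l - 1) / 3) ≠ 1 := by
    intro h1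
    have h2 : g ^ ((l - 1) / 3) = 1 := by
      ext
      rw [Units.val_pow_eq_pow_val, h1, Units.val_one]
    have h4 := Nat.le_of_dvd (by omega) (orderOf_dvd_of_pow_eq_one h2)
    omega
  rcases CHI_roots hr hs3 hs1 with h | h
  · refine ⟨χ, CHI_fin hl hr g hg χ hχ3 1 ?_ ?_ ?_⟩
    · rw [hχ, pow_one]
    · rw [pow_one]
      exact CHI_om_ne
    · rw [h, pow_one]
  · refine ⟨χ ^ 2, CHI_fin hl hr g hg (χ ^ 2) ?_ 2 ?_ CHI_om_sq_ne h⟩
    · rw [← pow_mul, mul_comm, pow_mul, hχ3, one_pow]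
    · rw [MulChar.pow_apply_coe, hχ]

end Pool.EMC
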