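import Pool.Agent.Work.MP_75c89d_cub.Interface

/-!
# Block CN1 of MP_75c89d_cub: packing
-/

set_option autoImplicit false

open Polynomial

namespace Pool.EMC

/-- The two kinds of elements with norm divisible by `l`. -/
theorem CN1_kind (l : ℕ) (hl : l.Prime) : ∃ k : E → Bool, ∀ α β : E, (l : ℤ) ∣ nm α →
    (l : ℤ) ∣ nm β → k α = k β → (l : ℤ) ∣ nm (α - β) := by
  classical
  have : Fact l.Prime := ⟨hl⟩
  by_cases hr : ∃ r : ZMod l, r ^ 2 + r + 1 = 0
  · obtain ⟨r, hr⟩ := hr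
    refine ⟨fun α => decide (ev r α = 0), fun α β hα hβ hk => ?_⟩
    have h1 : ev r α = 0 ↔ ev r β = 0 := by simpa using hk
    have h2 : ∀ γ : E, (l : ℤ) ∣ nm γ → ev r γ = 0 ∨ ev (r ^ 2) γ = 0 := fun γ hγ => by
      have h3 := ev_mul_ev hr γ
      rw [(ZMod.intCast_zmod_eq_zero_iff_dvd _ _).2 hγ] at h3
      exact mul_eq_zero.1 h3
    rw [← ZMod.intCast_zmod_eq_zero_iff_dvd, ← ev_mul_ev hr, ev_sub, ev_sub]
    by_cases h0 : ev r α = 0
    · rw [h0, h1.1 h0, sub_zero, zero_mul]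
    · rw [(h2 α hα).resolve_left h0, (h2 β hβ).resolve_left (fun h => h0 (h1.2 h)), sub_zero,
        mul_zero]
  · have h2 : ∀ γ : E, (l : ℤ) ∣ nm γ → (l : ℤ) ∣ γ.re ∧ (l : ℤ) ∣ γ.im := fun γ hγ => by
      rw [← ZMod.intCast_zmod_eq_zero_iff_dvd] at hγ
      simp only [nm] at hγ
      push_cast at hγ
      rw [← ZMod.intCast_zmod_eq_zero_iff_dvd, ← ZMod.intCast_zmod_eq_zero_iff_dvd]
      have hb : (γ.im : ZMod l) = 0 := by
        by_contra hb
        refine hr ⟨-(γ.re : ZMod l) / γ.im, ?_⟩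
        field_simp
        linear_combination hγ
      rw [hb] at hγ ⊢
      refine ⟨?_, rfl⟩
      have : (γ.re : ZMod l) ^ 2 = 0 := by linear_combination hγ
      exact pow_eq_zero_iff (two_ne_zero) |>.1 this
    refine ⟨fun _ => true, fun α β hα hβ _ => ?_⟩
    obtain ⟨a1, a2⟩ := h2 α hα
    obtain ⟨b1, b2⟩ := h2 β hβ
    have h3 : (l : ℤ) ∣ (α - β).re := by
      rw [QuadraticAlgebra.re_sub]; exact dvd_sub a1 b1
    have h4 : (l : ℤ) ∣ (α - β).im := by
      rw [QuadraticAlgebra.im_sub]; exact dvd_sub a2 b2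
    simp only [nm]
    exact dvd_add (dvd_sub (dvd_pow h3 two_ne_zero) (Dvd.dvd.mul_right h3 _))
      (dvd_pow h4 two_ne_zero)

/-- Two points of one cell differ by less than the side of the cell. -/
theorem CN1_cell {T a b : ℕ} (hT : 1 ≤ T) (h : a / T = b / T) :
    |(a : ℤ) - b| ≤ (T : ℤ) - 1 := by
  have h1 := Nat.div_add_mod a T
  have h2 := Nat.div_add_mod b T
  have h3 := Nat.mod_lt a hT
  have h4 := Nat.mod_lt b hT
  rw [h] at h1
  rw [abs_le]
  constructor <;> omega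

theorem CN1_small {T : ℕ} {x y : ℤ} (hT : 1 ≤ T) (hx : |x| ≤ (T : ℤ) - 1)
    (hy : |y| ≤ (T : ℤ) - 1) : x ^ 2 - x * y + y ^ 2 < 3 * (T : ℤ) ^ 2 := by
  have hT' : (1 : ℤ) ≤ T := by exact_mod_cast hT
  have h1 : x ^ 2 ≤ ((T : ℤ) - 1) ^ 2 := by
    rw [← sq_abs]; exact pow_le_pow_left₀ (abs_nonneg _) hx 2
  have h2 : y ^ 2 ≤ ((T : ℤ) - 1) ^ 2 := by
    rw [← sq_abs y]; exact pow_le_pow_left₀ (abs_nonneg _) hy 2
  have h3 : - (x * y) ≤ ((T : ℤ) - 1) ^ 2 := by
    refine (neg_le_abs _).trans ?_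
    rw [abs_mul, sq]
    exact mul_le_mul hx hy (abs_nonneg _) (by linarith)
  nlinarith

theorem p_CN1 : Stmt_CN1 := by
  classical
  intro l hl _ M hM c T X hT hTl
  obtain ⟨k, hk⟩ := CN1_kind l hl
  set S := (Finset.range X ×ˢ Finset.range X).filter fun z : ℕ × ℕ =>
      (l : ℤ) ∣ nm (⟨c.re + M * (z.1 : ℤ), c.im + M * (z.2 : ℤ)⟩ : E) with hS
  set g : ℕ × ℕ → E := fun z => ⟨c.re + M * (z.1 : ℤ), c.im + M * (z.2 : ℤ)⟩ with hg
  have hcard : S.card ≤ ((Finset.range (X / T + 1) ×ˢ Finset.range (X / T + 1)) ×ˢ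
      (Finset.univ : Finset Bool)).card := by
    refine Finset.card_le_card_of_injOn (fun z => ((z.1 / T, z.2 / T), k (g z))) ?_ ?_
    · intro z hz
      have hz' := (Finset.mem_filter.1 (Finset.mem_coe.1 hz)).1
      rw [Finset.mem_product, Finset.mem_range, Finset.mem_range] at hz'
      simp only [Finset.coe_product, Set.mem_prod, Finset.mem_coe, Finset.mem_range,
        Finset.mem_univ, and_true]
      exact ⟨Nat.lt_succ_of_le (Nat.div_le_div_right hz'.1.le),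
        Nat.lt_succ_of_le (Nat.div_le_div_right hz'.2.le)⟩
    · intro z hz w hw hzw
      have hz' := (Finset.mem_filter.1 (Finset.mem_coe.1 hz)).2
      have hw' := (Finset.mem_filter.1 (Finset.mem_coe.1 hw)).2
      simp only [Prod.mk.injEq] at hzw
      obtain ⟨⟨e1, e2⟩, e3⟩ := hzw
      have h1 : (l : ℤ) ∣ nm (g z - g w) := hk (g z) (g w) hz' hw' e3
      have h2 : nm (g z - g w) = M ^ 2 * nm (⟨(z.1 : ℤ) - w.1, (z.2 : ℤ) - w.2⟩ : E) := by
        simp only [nm, hg, QuadraticAlgebra.re_sub, QuadraticAlgebra.im_sub]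
        ring
      rw [h2] at h1
      have hlp : Prime (l : ℤ) := Nat.prime_iff_prime_int.1 hl
      have h3 : (l : ℤ) ∣ nm (⟨(z.1 : ℤ) - w.1, (z.2 : ℤ) - w.2⟩ : E) :=
        (hlp.dvd_or_dvd h1).resolve_left (fun h => hM (hlp.dvd_of_dvd_pow h))
      by_contra hne
      have h4 : (⟨(z.1 : ℤ) - w.1, (z.2 : ℤ) - w.2⟩ : E) ≠ 0 := by
        intro h0
        have a1 := congrArg QuadraticAlgebra.re h0
        have a2 := congrArg QuadraticAlgebra.im h0
        simp only [QuadraticAlgebra.re_zero, QuadraticAlgebra.im_zero] at a1 a2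
        exact hne (Prod.ext (by omega) (by omega))
      have h5 := Int.le_of_dvd (nm_pos h4) h3
      have h6 := CN1_small hT (CN1_cell hT e1) (CN1_cell hT e2)
      have h7 : (3 : ℤ) * T ^ 2 ≤ l := by exact_mod_cast hTl
      simp only [nm] at h5
      linarith
  refine hcard.trans ?_
  rw [Finset.card_product, Finset.card_product, Finset.card_range, Finset.card_univ,
    Fintype.card_bool]
  exact le_of_eq (by ring)

end Pool.EMC
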