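import Pool.Agent.Work.MP_75c89d_cub.Interface

set_option autoImplicit false

open Polynomial

namespace Pool.EMC

open Classical in
/-- few pairs over a set of points `z` -/
theorem CNT_fib (Y : ℕ) (R : ℕ × ℕ → Prop) :
    ((QB Y).filter fun x => R (x.1.1 + x.2.1, x.1.2 + x.2.2)).card ≤
      ((Finset.range (2 * Y) ×ˢ Finset.range (2 * Y)).filter R).card * Y ^ 2 := by
  have h1 : ((QB Y).filter fun x => R (x.1.1 + x.2.1, x.1.2 + x.2.2)).card ≤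
      (((Finset.range (2 * Y) ×ˢ Finset.range (2 * Y)).filter R) ×ˢ
        (Finset.range Y ×ˢ Finset.range Y)).card := by
    refine Finset.card_le_card_of_injOn
      (fun x => ((x.1.1 + x.2.1, x.1.2 + x.2.2), x.1)) ?_ ?_
    · intro x hx
      simp only [QB, Finset.coe_filter, Finset.mem_product, Finset.mem_range,
        Set.mem_ofPred_eq] at hx
      obtain ⟨⟨⟨h1, h2⟩, h3, h4⟩, h5⟩ := hx
      simp only [Finset.coe_product, Set.mem_prod, Finset.mem_coe, Finset.mem_filter,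
        Finset.mem_product, Finset.mem_range]
      exact ⟨⟨⟨by omega, by omega⟩, h5⟩, h1, h2⟩
    · rintro ⟨⟨a, b⟩, c, d⟩ - ⟨⟨a', b'⟩, c', d'⟩ - h
      simp only [Prod.mk.injEq] at h
      obtain ⟨⟨h1, h2⟩, h3, h4⟩ := h
      simp only [Prod.mk.injEq]
      omega
  rw [Finset.card_product, Finset.card_product, Finset.card_range] at h1
  calc _ ≤ _ := h1
    _ = _ := by ring

theorem CNT_norm (W Y z1 z2 : ℕ) (hW : 0 < W) (h1 : z1 < 2 * Y) (h2 : z2 < 2 * Y) :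
    0 < nm (⟨(1 : ℤ) + 27 * (W : ℤ) * (z1 : ℤ), 9 * (W : ℤ) + 27 * (W : ℤ) * (z2 : ℤ)⟩ : E) ∧
    nm (⟨(1 : ℤ) + 27 * (W : ℤ) * (z1 : ℤ), 9 * (W : ℤ) + 27 * (W : ℤ) * (z2 : ℤ)⟩ : E) ≤
      3 * (64 * (W : ℤ) * (Y : ℤ)) ^ 2 := by
  have hY : 1 ≤ (Y : ℤ) := by
    have : 0 < Y := by omega
    exact_mod_cast this
  have hW' : 1 ≤ (W : ℤ) := by exact_mod_cast hW
  have a1 : (z1 : ℤ) ≤ 2 * Y - 1 := by
    have : z1 + 1 ≤ 2 * Y := h1
    have : (z1 : ℤ) + 1 ≤ 2 * Y := by exact_mod_cast this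
    linarith
  have a2 : (z2 : ℤ) ≤ 2 * Y - 1 := by
    have : z2 + 1 ≤ 2 * Y := h2
    have : (z2 : ℤ) + 1 ≤ 2 * Y := by exact_mod_cast this
    linarith
  have b1 : (0 : ℤ) ≤ z1 := Int.natCast_nonneg _
  have b2 : (0 : ℤ) ≤ z2 := Int.natCast_nonneg _
  have hWY : 1 ≤ (W : ℤ) * Y := by nlinarith
  set a : ℤ := (1 : ℤ) + 27 * (W : ℤ) * (z1 : ℤ) with ha
  set b : ℤ := 9 * (W : ℤ) + 27 * (W : ℤ) * (z2 : ℤ) with hb
  have ha0 : 1 ≤ a := by
    have : 0 ≤ (W : ℤ) * z1 := by positivity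
    rw [ha]
    nlinarith
  have hb0 : 1 ≤ b := by
    have : 0 ≤ (W : ℤ) * z2 := by positivity
    rw [hb]
    nlinarith
  have ha1 : a ≤ 64 * (W : ℤ) * Y := by
    have : (W : ℤ) * z1 ≤ W * (2 * Y - 1) := mul_le_mul_of_nonneg_left a1 (by linarith)
    rw [ha]
    nlinarith
  have hb1 : b ≤ 64 * (W : ℤ) * Y := by
    have : (W : ℤ) * z2 ≤ W * (2 * Y - 1) := mul_le_mul_of_nonneg_left a2 (by linarith)
    rw [hb]
    nlinarith
  have hn : nm (⟨a, b⟩ : E) = a ^ 2 - a * b + b ^ 2 := rfl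
  rw [hn]
  constructor
  · nlinarith [sq_nonneg (a - b), mul_pos (lt_of_lt_of_le one_pos ha0) (lt_of_lt_of_le one_pos hb0)]
  · have c1 : a ^ 2 ≤ (64 * (W : ℤ) * Y) ^ 2 := pow_le_pow_left₀ (by linarith) ha1 2
    have c2 : b ^ 2 ≤ (64 * (W : ℤ) * Y) ^ 2 := pow_le_pow_left₀ (by linarith) hb1 2
    have c3 : 0 ≤ a * b := mul_nonneg (by linarith) (by linarith)
    have c4 : 0 ≤ (64 * (W : ℤ) * Y) ^ 2 := sq_nonneg _
    linarith

theorem CNT_side (p Y : ℕ) (hp : 75 ≤ p) (h2 : (Y - 1) ^ 2 < 4 * p) :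
    1 ≤ Nat.sqrt (p / 3) ∧ 3 * (Nat.sqrt (p / 3)) ^ 2 ≤ p ∧ 2 * Y / Nat.sqrt (p / 3) ≤ 8 := by
  set T := Nat.sqrt (p / 3) with hT
  have h5 : 5 ≤ T := by
    rw [hT, Nat.le_sqrt]
    omega
  have h3 : T * T ≤ p / 3 := Nat.sqrt_le _
  have h4 : p / 3 < (T + 1) * (T + 1) := Nat.lt_succ_sqrt (p / 3)
  refine ⟨by omega, ?_, ?_⟩
  · have : 3 * (p / 3) ≤ p := Nat.mul_div_le p 3
    nlinarith
  · have h6 : p < 3 * ((T + 1) * (T + 1)) := by
      have : p < 3 * (p / 3) + 3 := by omega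
      have h7 : p / 3 + 1 ≤ (T + 1) * (T + 1) := h4
      omega
    refine Nat.lt_succ_iff.1 ((Nat.div_lt_iff_lt_mul (by omega)).2 ?_)
    by_contra hcon
    push Not at hcon
    obtain ⟨Z, rfl | rfl⟩ : ∃ Z, Y = 0 ∨ Y = Z + 1 := by
      rcases Nat.eq_zero_or_eq_succ_pred Y with h | h
      · exact ⟨0, Or.inl h⟩
      · exact ⟨_, Or.inr h⟩
    · omega
    · rw [Nat.add_sub_cancel] at h2
      have h8 : Z ^ 2 < 12 * ((T + 1) * (T + 1)) := by omega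
      have h9 : 9 * T ≤ 2 * Z + 2 := by
        have : (8 + 1) * T ≤ 2 * (Z + 1) := by simpa using hcon
        omega
      nlinarith

open Classical in
theorem p_CNT (hCN1 : Stmt_CN1) (hPIC : Stmt_PIC) : Stmt_CNT := by
  intro W hW
  obtain ⟨n₀, hn₀⟩ := hPIC (1296 * (12288 * W ^ 2))
  refine ⟨n₀ + 27 * W + 100, fun p Y hp h1 h2 => ?_⟩
  have hY : 0 < Y := by
    rcases Nat.eq_zero_or_pos Y with h | h
    · subst h
      omega
    · exact h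
  obtain ⟨t1, t2, t3⟩ := CNT_side p Y (by omega) h2
  set T := Nat.sqrt (p / 3) with hT
  -- the property of the points
  let R : ℕ × ℕ → Prop := fun z => ∃ l : ℕ, l.Prime ∧ p ≤ l ∧
    (l : ℤ) ∣ nm (⟨(1 : ℤ) + 27 * (W : ℤ) * (z.1 : ℤ), 9 * (W : ℤ) + 27 * (W : ℤ) * (z.2 : ℤ)⟩ : E)
  have e1 : ((QB Y).filter fun x => ∃ l : ℕ, l.Prime ∧ p ≤ l ∧
      (l : ℤ) ∣ nm (pt ⟨1, 9 * (W : ℤ)⟩ (27 * (W : ℤ)) x)) =
      (QB Y).filter fun x => R (x.1.1 + x.2.1, x.1.2 + x.2.2) := rfl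
  rw [e1]
  have e2 := CNT_fib Y R
  -- the number of bad points
  set H := 12288 * W ^ 2 * Y ^ 2 with hH
  have e3 : ((Finset.range (2 * Y) ×ˢ Finset.range (2 * Y)).filter R) ⊆
      ((Finset.range (H + 1)).filter fun l => l.Prime ∧ p ≤ l).biUnion fun l =>
        (Finset.range (2 * Y) ×ˢ Finset.range (2 * Y)).filter fun z : ℕ × ℕ =>
          (l : ℤ) ∣ nm (⟨(1 : ℤ) + 27 * (W : ℤ) * (z.1 : ℤ),
            9 * (W : ℤ) + 27 * (W : ℤ) * (z.2 : ℤ)⟩ : E) := by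
    intro z hz
    rw [Finset.mem_filter, Finset.mem_product, Finset.mem_range, Finset.mem_range] at hz
    obtain ⟨⟨z1, z2⟩, l, hl, hpl, hd⟩ := hz
    obtain ⟨n1, n2⟩ := CNT_norm W Y z.1 z.2 hW z1 z2
    rw [Finset.mem_biUnion]
    refine ⟨l, ?_, ?_⟩
    · rw [Finset.mem_filter, Finset.mem_range]
      refine ⟨?_, hl, hpl⟩
      have h3 : (l : ℤ) ≤ 3 * (64 * (W : ℤ) * (Y : ℤ)) ^ 2 := (Int.le_of_dvd n1 hd).trans n2
      have h4 : (l : ℤ) ≤ (H : ℤ) := by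
        refine h3.trans (le_of_eq ?_)
        rw [hH]
        push_cast
        ring
      have h5 : l ≤ H := by exact_mod_cast h4
      omega
    · rw [Finset.mem_filter, Finset.mem_product, Finset.mem_range, Finset.mem_range]
      exact ⟨⟨z1, z2⟩, hd⟩
  have e4 : ∀ l ∈ (Finset.range (H + 1)).filter fun l => l.Prime ∧ p ≤ l,
      ((Finset.range (2 * Y) ×ˢ Finset.range (2 * Y)).filter fun z : ℕ × ℕ =>
        (l : ℤ) ∣ nm (⟨(1 : ℤ) + 27 * (W : ℤ) * (z.1 : ℤ),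
          9 * (W : ℤ) + 27 * (W : ℤ) * (z.2 : ℤ)⟩ : E)).card ≤ 162 := by
    intro l hl
    rw [Finset.mem_filter] at hl
    obtain ⟨-, hl1, hl2⟩ := hl
    have hM : ¬ (l : ℤ) ∣ 27 * (W : ℤ) := by
      intro hd
      have h3 : (l : ℤ) ≤ 27 * (W : ℤ) := Int.le_of_dvd (by positivity) hd
      have h4 : l ≤ 27 * W := by exact_mod_cast h3
      omega
    have h3 := hCN1 l hl1 (by omega) (27 * (W : ℤ)) hM ⟨1, 9 * (W : ℤ)⟩ T (2 * Y) t1
      (t2.trans hl2)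
    have h5 : 2 * (2 * Y / T + 1) ^ 2 ≤ 162 := by
      have h9 : 2 * Y / T + 1 ≤ 9 := by omega
      have h10 := Nat.pow_le_pow_left h9 2
      omega
    have h6 : ((Finset.range (2 * Y) ×ˢ Finset.range (2 * Y)).filter fun z : ℕ × ℕ =>
        (l : ℤ) ∣ nm (⟨(1 : ℤ) + 27 * (W : ℤ) * (z.1 : ℤ),
          9 * (W : ℤ) + 27 * (W : ℤ) * (z.2 : ℤ)⟩ : E)).card ≤ 2 * (2 * Y / T + 1) ^ 2 := by
      convert h3 using 2
    exact h6.trans h5
  have e5 : ((Finset.range (2 * Y) ×ˢ Finset.range (2 * Y)).filter R).card ≤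
      ((Finset.range (H + 1)).filter Nat.Prime).card * 162 := by
    refine (Finset.card_le_card e3).trans (Finset.card_biUnion_le.trans
      ((Finset.sum_le_card_nsmul _ _ _ e4).trans ?_))
    rw [smul_eq_mul]
    refine Nat.mul_le_mul_right _ (Finset.card_le_card ?_)
    intro l hl
    rw [Finset.mem_filter] at hl ⊢
    exact ⟨hl.1, hl.2.1⟩
  have e6 := hn₀ H (by
    have : 1 ≤ W ^ 2 := Nat.one_le_pow _ _ hW
    rw [hH]
    nlinarith)
  set π := ((Finset.range (H + 1)).filter Nat.Prime).card with hπ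
  have e7 : 1296 * π ≤ Y ^ 2 := by
    have h3 : 0 < 12288 * W ^ 2 := by positivity
    refine Nat.le_of_mul_le_mul_left ?_ h3
    calc 12288 * W ^ 2 * (1296 * π) = 1296 * (12288 * W ^ 2) * π := by ring
      _ ≤ H := e6
      _ = 12288 * W ^ 2 * Y ^ 2 := hH
  calc 8 * ((QB Y).filter fun x => R (x.1.1 + x.2.1, x.1.2 + x.2.2)).card
      ≤ 8 * ((π * 162) * Y ^ 2) :=
        Nat.mul_le_mul_left _ (e2.trans (Nat.mul_le_mul_right _ e5))
    _ = (1296 * π) * Y ^ 2 := by ring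
    _ ≤ Y ^ 2 * Y ^ 2 := Nat.mul_le_mul_right _ e7
    _ = Y ^ 4 := by ring

end Pool.EMC

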