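import Pool.Agent.Work.MP_75c89d_cub.Interface

/-!
# Block COR (helper1): correlations of a multiplicative character
-/

set_option autoImplicit false

namespace Pool.EMC

theorem COR_conj {F : Type} [Field F] [Fintype F] (χ : MulChar F ℂ) (x : F) :
    (starRingEnd ℂ) (χ x) = χ x⁻¹ := by
  have h := MulChar.star_apply' χ x
  rw [MulChar.inv_apply'] at h
  exact h

theorem p_COR : Stmt_COR := by
  intro F _ _ χ hχ
  classical
  constructor
  · intro h hh
    have h1 : ∀ x : F, χ (x + h) * (starRingEnd ℂ) (χ x) =
        χ (1 + h * x⁻¹) - (if x = 0 then 1 else 0) := by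
      intro x
      rw [COR_conj, ← map_mul]
      by_cases hx : x = 0
      · subst hx
        simp only [inv_zero, mul_zero, add_zero, if_true, MulChar.map_one, sub_self]
        exact MulChar.map_zero χ
      · rw [if_neg hx, sub_zero]
        congr 1
        field_simp
    simp only [h1]
    rw [Finset.sum_sub_distrib, Finset.sum_ite_eq' Finset.univ (0 : F), if_pos (Finset.mem_univ _)]
    have h2 : ∑ x : F, χ (1 + h * x⁻¹) = ∑ y : F, χ y := by
      have hb : Function.Bijective fun x : F => 1 + h * x⁻¹ := by
        rw [← Finite.injective_iff_bijective]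
        intro x y hxy
        have h3 : h * x⁻¹ = h * y⁻¹ := add_left_cancel hxy
        exact inv_injective (mul_left_cancel₀ hh h3)
      exact hb.sum_comp (fun y => χ y)
    rw [h2, MulChar.sum_eq_zero_of_ne_one hχ]
    ring
  · have h1 : ∀ x : F, χ x * (starRingEnd ℂ) (χ x) = 1 - (if x = 0 then 1 else 0) := by
      intro x
      rw [COR_conj, ← map_mul]
      by_cases hx : x = 0
      · subst hx
        simp only [inv_zero, mul_zero, if_true, sub_self]
        exact MulChar.map_zero χ
      · rw [if_neg hx, mul_inv_cancel₀ hx]
        simp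
    simp only [h1]
    rw [Finset.sum_sub_distrib, Finset.sum_ite_eq' Finset.univ (0 : F), if_pos (Finset.mem_univ _)]
    simp

end Pool.EMC
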