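import Pool.Agent.Work.MP_75c89d_cub.Interface

/-!
# Block EVL (helper1): evaluation of the symbol through the factorization
-/

set_option autoImplicit false

namespace Pool.EMC

theorem EVL_one {α : E} {χ : ℤ → ZMod 3} (h : Sym α χ) : χ 1 = 0 := by
  have h1 := h.mul 1 1 isCoprime_one_left isCoprime_one_left
  rw [one_mul] at h1
  have h2 : χ 1 + 0 = χ 1 + χ 1 := by rw [add_zero]; exact h1
  exact (add_left_cancel h2).symm

theorem EVL_neg_one {α : E} {χ : ℤ → ZMod 3} (h : Sym α χ) : χ (-1) = 0 := by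
  have hc : IsCoprime (-1 : ℤ) (nm α) := isCoprime_one_left.neg_left
  have h1 := h.mul (-1) (-1) hc hc
  rw [show (-1 : ℤ) * (-1) = 1 by norm_num, EVL_one h] at h1
  revert h1
  generalize χ (-1) = t
  revert t
  decide

theorem EVL_nat {α : E} {χ : ℤ → ZMod 3} (h : Sym α χ) (n : ℕ) (hn : n ≠ 0)
    (hc : IsCoprime (n : ℤ) (nm α)) :
    χ (n : ℤ) = n.factorization.sum fun q e => (e : ZMod 3) * χ (q : ℤ) := by
  induction n using induction_on_primes with
  | zero => exact absurd rfl hn
  | one =>
    rw [Nat.factorization_one, Finsupp.sum_zero_index]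
    exact_mod_cast EVL_one h
  | prime_mul p a hp ih =>
    have ha : a ≠ 0 := right_ne_zero_of_mul hn
    push_cast at hc
    have hcp : IsCoprime (p : ℤ) (nm α) := hc.of_mul_left_left
    have hca : IsCoprime (a : ℤ) (nm α) := hc.of_mul_left_right
    rw [Nat.cast_mul, h.mul _ _ hcp hca, ih ha hca, Nat.factorization_mul hp.ne_zero ha,
      Finsupp.sum_add_index', hp.factorization, Finsupp.sum_single_index]
    · simp
    · simp
    · intro q
      simp
    · intro q b₁ b₂
      push_cast
      ring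

theorem p_EVL : Stmt_EVL := by
  intro α χ h n hn hc
  have hna : n.natAbs ≠ 0 := Int.natAbs_ne_zero.2 hn
  have hc' : IsCoprime ((n.natAbs : ℕ) : ℤ) (nm α) := by
    rw [Int.natCast_natAbs]
    exact (IsCoprime.abs_left_iff _ _).2 hc
  have h1 := EVL_nat h n.natAbs hna hc'
  have h2 : χ n = χ ((n.natAbs : ℕ) : ℤ) := by
    rcases Int.natAbs_eq n with h3 | h3
    · rw [← h3]
    · conv_lhs => rw [h3, neg_eq_neg_one_mul]
      rw [h.mul _ _ isCoprime_one_left.neg_left hc', EVL_neg_one h, zero_add]
  rw [h2, h1, Finsupp.sum, Nat.support_factorization]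

end Pool.EMC
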