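import Pool.Agent.Work.MP_75c89d_cub.Interface

/-! Block FIN: the theorem from NCB, EXP and REC. -/

set_option autoImplicit false

open Polynomial

namespace Pool.EMC

theorem FIN_nine {y v : ℤ} (h : (3 : ℤ) ∣ y ^ 3 - v ^ 3) : (9 : ℤ) ∣ y ^ 3 - v ^ 3 := by
  have h1 : (3 : ℤ) ∣ y - v := by
    have e : y - v = (y ^ 3 - v ^ 3) - ((y ^ 3 - y) - (v ^ 3 - v)) := by ring
    rw [e]
    have key : ∀ a : ℤ, (3 : ℤ) ∣ a ^ 3 - a := by
      intro a
      have h2 : a % 3 = 0 ∨ a % 3 = 1 ∨ a % 3 = 2 := by omega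
      have h3 : a = 3 * (a / 3) + a % 3 := (Int.mul_ediv_add_emod a 3).symm
      rcases h2 with h2 | h2 | h2
      · rw [h2, add_zero] at h3
        rw [h3]
        exact ⟨9 * (a / 3) ^ 3 - a / 3, by ring⟩
      · rw [h2] at h3
        rw [h3]
        exact ⟨9 * (a / 3) ^ 3 + 9 * (a / 3) ^ 2 + 2 * (a / 3), by ring⟩
      · rw [h2] at h3
        rw [h3]
        exact ⟨9 * (a / 3) ^ 3 + 18 * (a / 3) ^ 2 + 11 * (a / 3) + 2, by ring⟩
    exact dvd_sub h (dvd_sub (key y) (key v))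
  obtain ⟨k, hk⟩ := h1
  have e : y = v + 3 * k := by linarith
  rw [e]
  exact ⟨v ^ 2 * k + 3 * v * k ^ 2 + 3 * k ^ 3, by ring⟩

theorem FIN_three {a : ℤ} (h : ¬ (3 : ℤ) ∣ a) : IsCoprime (9 : ℤ) a := by
  have h1 : IsCoprime (3 : ℤ) a := (Int.prime_three.coprime_iff_not_dvd).2 h
  have h2 := IsCoprime.pow_left (m := 2) h1
  norm_num at h2
  exact h2

theorem p_FIN (hNCB : Stmt_NCB) (hEXP : Stmt_EXP) (hREC : Stmt_REC) : Stmt_FIN := by
  intro m f u w p hm1 hm2 hdvd hcop hG halt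
  by_contra hfin
  rw [Set.not_infinite] at hfin
  obtain ⟨W, hW, hW3, hB⟩ := hREC m f u w p hm1 hm2 hdvd hG hfin
  obtain ⟨P₁, h1⟩ := hNCB W hW hW3
  obtain ⟨P₂, h2⟩ := hEXP W hW hW3
  obtain ⟨n, hn, R, hi3, hn3⟩ := hB (max P₁ P₂)
  have hw0 : w ≠ 0 := by
    intro h0
    obtain ⟨q, hq, hqp⟩ := Nat.exists_infinite_primes (3 * W + 1)
    have h3 := R.wsup q hqp (by rw [h0]; exact dvd_zero _)
    have h4 := Nat.le_of_dvd (by positivity) h3
    omega
  generalize hP : (∏ i ∈ Finset.range n, (p i : ℤ)) = P at R hi3 hn3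
  have hyp : Hyp W (p n) ((u * P + w) * w ^ 2) := by
    refine ⟨mul_ne_zero R.ne (pow_ne_zero 2 hw0), ?_, ?_⟩
    · intro q hq hd hne
      have hqp : Prime (q : ℤ) := Nat.prime_iff_prime_int.1 hq
      rcases hqp.dvd_or_dvd hd with h | h
      · exact R.supp q hq h hne
      · exact R.wsup q hq (hqp.dvd_of_dvd_pow h)
    · intro l hl hl3 hlp hlW
      have hl3W : ¬ l ∣ 3 * W := by
        intro h
        rcases (Nat.Prime.dvd_mul hl).1 h with h | h
        · have := (Nat.prime_dvd_prime_iff_eq hl Nat.prime_three).1 h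
          rw [this] at hl3
          omega
        · exact hlW h
      have hlP := R.all l hl hlp hl3W
      refine ⟨w, ?_⟩
      have h5 : (l : ℤ) ∣ w ^ 3 - (u * P + w) * w ^ 2 := by
        have e : w ^ 3 - (u * P + w) * w ^ 2 = P * (-(u * w ^ 2)) := by ring
        rw [e]
        exact hlP.mul_right _
      exact (Int.modEq_iff_dvd.2 h5)
  have hexp := h2 (p n) R.pr (le_of_max_le_right hn) _ hyp
  obtain ⟨t, ht⟩ := h1 (p n) R.pr (le_of_max_le_left hn) _ hyp hexp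
  have hc : IsCoprime (u * P + w) w := by
    have h3 : IsCoprime (u * P) w := hcop.mul_left R.cop
    have h4 := h3.add_mul_left_left 1
    rwa [mul_one] at h4
  have hc2 : IsCoprime (u * P + w) (w ^ 2) := hc.pow_right
  have hodd : Odd 3 := by decide
  obtain ⟨y, hy⟩ := Int.eq_pow_of_mul_eq_pow_odd_left hc2 hodd ht
  obtain ⟨s, hs⟩ := Int.eq_pow_of_mul_eq_pow_odd_right hc2 hodd ht
  have hsw : s ∣ w := by
    have h3 : s ^ 3 ∣ w ^ 3 := ⟨w, by rw [← hs]; ring⟩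
    exact (Int.pow_dvd_pow_iff (by norm_num)).1 h3
  obtain ⟨v, hv⟩ := hsw
  have hwv : w = v ^ 3 := by
    have h3 : w ^ 2 * w = w ^ 2 * v ^ 3 := by
      calc w ^ 2 * w = (s * v) ^ 3 := by rw [← hv]; ring
        _ = s ^ 3 * v ^ 3 := by ring
        _ = w ^ 2 * v ^ 3 := by rw [← hs]
    exact mul_left_cancel₀ (pow_ne_zero 2 hw0) h3
  have huP : u * P = y ^ 3 - v ^ 3 := by rw [← hy, ← hwv]; ring
  have key : (3 : ℤ) ∣ u * P → (9 : ℤ) ∣ u * P := by
    intro h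
    rw [huP] at h ⊢
    exact FIN_nine h
  rcases halt with h | ⟨h, hi⟩ | ⟨h, h9, hi⟩
  · exact h ⟨v, hwv⟩
  · have h3P := hi3 hi
    have h9 := key (h3P.mul_left u)
    have h9P : (9 : ℤ) ∣ P := (FIN_three h).dvd_of_dvd_mul_left h9
    have hu := R.sqf 3 (by norm_num; exact h9P)
    rw [Int.isUnit_iff] at hu
    omega
  · have h3P := hn3 hi
    have h9' := key (h.mul_right P)
    exact h9 ((FIN_three h3P).dvd_of_dvd_mul_right h9')

end Pool.EMC
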