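import Pool.Agent.Work.MP_75c89d_cub.Interface

/-!
# Block GAM (helper1): the symbol modulo `q` is not trivial
-/

set_option autoImplicit false

namespace Pool.EMC

/-- in a finite field whose order is `1` modulo `3` there are a generator `g` and the root
`g ^ N` of `x² + x + 1` -/
theorem GAM_gen (K : Type) [Field K] [Finite K] (N : ℕ) (hN : Nat.card Kˣ = 3 * N) :
    ∃ g : K, g ≠ 0 ∧ g ^ N ≠ 1 ∧ (g ^ N) ^ 2 + g ^ N + 1 = 0 := by
  obtain ⟨g, hg⟩ := IsCyclic.exists_generator (α := Kˣ)
  have hord : orderOf g = 3 * N := by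
    rw [← hN]
    exact orderOf_eq_card_of_forall_mem_zpowers hg
  have hpos : 0 < 3 * N := by
    rw [← hN]
    exact Nat.card_pos
  have hN0 : 0 < N := by omega
  have h1 : ((g : K)) ^ N ≠ 1 := by
    intro h
    have h2 : g ^ N = 1 := by
      ext
      push_cast
      exact h
    have h3 := orderOf_dvd_of_pow_eq_one h2
    rw [hord] at h3
    have := Nat.le_of_dvd hN0 h3
    omega
  refine ⟨g, g.ne_zero, h1, ?_⟩
  have h4 : ((g : K) ^ N) ^ 3 = 1 := by
    rw [← pow_mul, mul_comm N 3, ← hord]
    have := pow_orderOf_eq_one g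
    have h5 := congrArg (Units.val) this
    rw [Units.val_pow_eq_pow_val, Units.val_one] at h5
    exact h5
  have h6 : ((g : K) ^ N - 1) * (((g : K) ^ N) ^ 2 + (g : K) ^ N + 1) = 0 := by
    linear_combination h4
  rcases mul_eq_zero.1 h6 with h7 | h7
  · exact absurd (sub_eq_zero.1 h7) h1
  · exact h7

theorem GAM_ne {K : Type} [Field K] {q : ℕ} [CharP K q] (hq : q.Prime) (hq3 : q ≠ 3) {r : K}
    (hr : r ^ 2 + r + 1 = 0) : r - r ^ 2 ≠ 0 := by
  intro h
  have h3 : (3 : K) = 0 := by linear_combination (3 - 2 * r) * hr + (-1 - 2 * r) * h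
  have h4 : ((3 : ℕ) : K) = 0 := by exact_mod_cast h3
  rw [CharP.cast_eq_zero_iff K q] at h4
  exact hq3 ((Nat.prime_dvd_prime_iff_eq hq Nat.prime_three).1 h4)

/-- the main step: a root `r` and an element `γ` whose two values are known -/
theorem GAM_fin (hP : Stmt_PUN) (q : ℕ) (hq : q.Prime) (hq3 : q ≠ 3) (γ : E)
    (h0 : ¬ (q : ℤ) ∣ nm γ) (h1 : ¬ Psi q γ 0) :
    ∃ (γ : E) (k : ZMod 3), ¬ (q : ℤ) ∣ nm γ ∧ k ≠ 0 ∧ Psi q γ k := by
  obtain ⟨k, hk, -⟩ := hP q hq hq3 γ h0
  refine ⟨γ, k, h0, ?_, hk⟩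
  rintro rfl
  exact h1 hk

theorem p_GAM (hP : Stmt_PUN) : Stmt_GAM := by
  intro q hq hq3
  haveI : Fact q.Prime := ⟨hq⟩
  have hmod : q % 3 = 1 ∨ q % 3 = 2 := by
    have h0 : q % 3 ≠ 0 := by
      intro h
      have h3 : 3 ∣ q := Nat.dvd_of_mod_eq_zero h
      exact hq3 ((Nat.prime_dvd_prime_iff_eq Nat.prime_three hq).1 h3).symm
    omega
  rcases hmod with hm | hm
  · -- `q ≡ 1`
    have hcard : Nat.card (ZMod q)ˣ = 3 * ((q - 1) / 3) := by
      rw [Nat.card_eq_fintype_card, ZMod.card_units q]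
      omega
    obtain ⟨g, hg0, hg1, hgr⟩ := GAM_gen (ZMod q) ((q - 1) / 3) hcard
    set r : ZMod q := g ^ ((q - 1) / 3) with hr
    have hd : r - r ^ 2 ≠ 0 := GAM_ne hq hq3 hgr
    set b : ZMod q := (g - 1) / (r - r ^ 2) with hb
    set a : ZMod q := g - b * r with ha
    set γ : E := ⟨(a.val : ℤ), (b.val : ℤ)⟩ with hγ
    have hav : (((a.val : ℕ) : ℤ) : ZMod q) = a := by
      simp
    have hbv : (((b.val : ℕ) : ℤ) : ZMod q) = b := by
      simp
    have he1 : ev r γ = g := by
      simp only [ev, hγ]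
      rw [hav, hbv, ha]
      ring
    have he2 : ev (r ^ 2) γ = 1 := by
      simp only [ev, hγ]
      rw [hav, hbv, ha]
      have : b * (r - r ^ 2) = g - 1 := by
        rw [hb]
        exact div_mul_cancel₀ _ hd
      linear_combination -this
    refine GAM_fin hP q hq hq3 γ ?_ ?_
    · intro h
      have h1 : ((nm γ : ℤ) : ZMod q) = 0 := (ZMod.intCast_zmod_eq_zero_iff_dvd _ _).2 h
      rw [← ev_mul_ev hgr, he1, he2, mul_one] at h1
      exact hg0 h1
    · intro h
      have h1 := h.1 hm
      rw [ZMod.val_zero, pow_zero, mul_one] at h1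
      obtain ⟨w, hw⟩ := h1
      have h2 := congrArg (ev r) hw
      rw [ev_sub, ev_pow hgr, ev_mul hgr, ev_pow hgr, ev_mul hgr, ev_cj hgr, he1, he2, ev_one,
        ev_intCast] at h2
      have h3 : (((q : ℕ) : ℤ) : ZMod q) = 0 := by simp
      rw [h3, zero_mul, mul_one, ← pow_mul, mul_comm 2, pow_mul, ← hr] at h2
      have h4 : r ^ 2 = 1 := sub_eq_zero.1 h2
      have h5 := root_cube hgr
      apply hg1
      linear_combination h5 - r * h4
  · -- `q ≡ 2`
    have hK : Nat.card (GaloisField q 2) = q ^ 2 := GaloisField.card q 2 two_ne_zero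
    haveI : Finite (GaloisField q 2) := Nat.finite_of_card_ne_zero (by
      rw [hK]; exact pow_ne_zero _ hq.ne_zero)
    have h3 : 3 ∣ q ^ 2 - 1 := by
      have h4 : q ^ 2 % 3 = 1 := by
        rw [Nat.pow_mod, hm]
      omega
    have hcard : Nat.card (GaloisField q 2)ˣ = 3 * ((q ^ 2 - 1) / 3) := by
      rw [Nat.card_units, hK]
      exact (Nat.mul_div_cancel' h3).symm
    obtain ⟨g, hg0, hg1, hgr⟩ := GAM_gen (GaloisField q 2) ((q ^ 2 - 1) / 3) hcard
    set r : GaloisField q 2 := g ^ ((q ^ 2 - 1) / 3) with hr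
    -- `x + y r = 0` only for `x = y = 0`
    have key : ∀ s : GaloisField q 2, s ^ 2 + s + 1 = 0 → ∀ x y : ZMod q,
        algebraMap (ZMod q) (GaloisField q 2) x + algebraMap (ZMod q) (GaloisField q 2) y * s = 0 →
        x = 0 ∧ y = 0 := by
      intro s hs x y hxy
      have hy : y = 0 := by
        by_contra hy
        have hinj := (algebraMap (ZMod q) (GaloisField q 2)).injective
        have hs' : s = algebraMap (ZMod q) (GaloisField q 2) (-x / y) := by
          have hy' : algebraMap (ZMod q) (GaloisField q 2) y ≠ 0 := by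
            intro h
            exact hy (hinj (by rw [h, map_zero]))
          rw [map_div₀, map_neg, eq_div_iff hy']
          linear_combination hxy
        set z := -x / y with hz
        have hz1 : z ^ 2 + z + 1 = 0 := by
          apply hinj
          rw [map_zero, map_add, map_add, map_pow, map_one, ← hs']
          exact hs
        have hz3 : z ^ 3 = 1 := root_cube hz1
        have hzne : z ≠ 1 := by
          intro h
          apply GAM_ne hq hq3 hz1
          rw [h]
          ring
        have hz0 : z ≠ 0 := by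
          intro h
          rw [h] at hz1
          simp at hz1
        have ho : orderOf z = 3 := orderOf_eq_prime hz3 hzne
        have hdvd : orderOf z ∣ q - 1 := orderOf_dvd_of_pow_eq_one (ZMod.pow_card_sub_one_eq_one hz0)
        rw [ho] at hdvd
        omega
      subst hy
      rw [map_zero, zero_mul, add_zero, map_eq_zero] at hxy
      exact ⟨hxy, rfl⟩
    have hinj2 : Function.Injective fun p : ZMod q × ZMod q =>
        algebraMap (ZMod q) (GaloisField q 2) p.1 + algebraMap (ZMod q) (GaloisField q 2) p.2 * r := by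
      rintro ⟨x, y⟩ ⟨x', y'⟩ h
      have h1 := key r hgr (x - x') (y - y') (by
        rw [map_sub, map_sub]
        simp only at h
        linear_combination h)
      rw [sub_eq_zero, sub_eq_zero] at h1
      exact Prod.ext h1.1 h1.2
    have hsurj : Function.Surjective fun p : ZMod q × ZMod q =>
        algebraMap (ZMod q) (GaloisField q 2) p.1 + algebraMap (ZMod q) (GaloisField q 2) p.2 * r := by
      have hb := (Nat.bijective_iff_injective_and_card (fun p : ZMod q × ZMod q =>
        algebraMap (ZMod q) (GaloisField q 2) p.1 +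
          algebraMap (ZMod q) (GaloisField q 2) p.2 * r)).2 ⟨hinj2, by
            rw [hK, Nat.card_prod, Nat.card_zmod, sq]⟩
      exact hb.2
    obtain ⟨⟨x, y⟩, hxy⟩ := hsurj g
    simp only at hxy
    set γ : E := ⟨(x.val : ℤ), (y.val : ℤ)⟩ with hγ
    have hcast : ∀ z : ZMod q, (((z.val : ℕ) : ℤ) : GaloisField q 2) =
        algebraMap (ZMod q) (GaloisField q 2) z := by
      intro z
      have h1 : (((z.val : ℕ) : ℤ) : ZMod q) = z := by simp
      conv_rhs => rw [← h1]
      rw [map_intCast]
    have hev : ∀ s : GaloisField q 2, ev s γ = algebraMap (ZMod q) (GaloisField q 2) x +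
        algebraMap (ZMod q) (GaloisField q 2) y * s := by
      intro s
      simp only [ev, hγ]
      rw [hcast, hcast]
    have he1 : ev r γ = g := by
      rw [hev, hxy]
    have hq0 : (((q : ℕ) : ℤ) : GaloisField q 2) = 0 := by
      rw [Int.cast_natCast]
      exact CharP.cast_eq_zero _ q
    refine GAM_fin hP q hq hq3 γ ?_ ?_
    · intro h
      obtain ⟨c, hc⟩ := h
      have h1 := ev_mul_ev hgr γ
      rw [hc, Int.cast_mul, hq0, zero_mul, he1] at h1
      rcases mul_eq_zero.1 h1 with h2 | h2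
      · exact hg0 h2
      · rw [hev] at h2
        obtain ⟨hx0, hy0⟩ := key _ (root_sq hgr) x y h2
        apply hg0
        rw [← hxy, hx0, hy0]
        simp
    · intro h
      have h1 := h.2 hm
      rw [ZMod.val_zero, pow_zero] at h1
      obtain ⟨w, hw⟩ := h1
      have h2 := congrArg (ev r) hw
      rw [ev_sub, ev_pow hgr, he1, ev_one, ev_mul hgr, ev_intCast, hq0, zero_mul] at h2
      exact hg1 (sub_eq_zero.1 h2)

end Pool.EMC
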