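import Pool.Agent.Work.MP_75c89d_cub.Interface

/-!
# MP_75c89d_nt, THEOREM CUB, block GSA (typist helper87)
-/

set_option autoImplicit false

open Polynomial

namespace Pool.EMC

theorem GSA_root (l q : ℕ) [Fact l.Prime] [Fact q.Prime] (hql : q ≠ l) (F : Type) [Field F]
    [CharP F q] [IsAlgClosed F] : ∃ ζ : F, IsPrimitiveRoot ζ l := by
  have hl0 : (l : F) ≠ 0 := by
    intro h
    have h1 := (CharP.cast_eq_zero_iff F q l).1 h
    exact hql ((Nat.prime_dvd_prime_iff_eq Fact.out Fact.out).1 h1)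
  have : NeZero (l : F) := ⟨hl0⟩
  have hdeg : (cyclotomic l F).degree ≠ 0 := by
    rw [degree_cyclotomic]
    have : 0 < Nat.totient l := Nat.totient_pos.2 (Fact.out : l.Prime).pos
    exact_mod_cast this.ne'
  obtain ⟨ζ, hζ⟩ := IsAlgClosed.exists_root (cyclotomic l F) hdeg
  exact ⟨ζ, isRoot_cyclotomic_iff.1 hζ⟩

theorem p_GSA : Stmt_GSA := by
  intro l q hlF hqF hq3 hql F _ _ _ χ hχ1 hχ3
  have hl : l.Prime := Fact.out
  have hq : q.Prime := Fact.out
  have hl0 : (l : F) ≠ 0 := by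
    intro h
    have h1 := (CharP.cast_eq_zero_iff F q l).1 h
    exact hql ((Nat.prime_dvd_prime_iff_eq Fact.out Fact.out).1 h1)
  obtain ⟨ζ, hζ⟩ := GSA_root l q hql F
  have hcard : Fintype.card (ZMod l) = l := ZMod.card l
  set ψ : AddChar (ZMod l) F := AddChar.zmodChar l ((IsPrimitiveRoot.iff_def ζ l).1 hζ).1 with hψ
  have hprim : ψ.IsPrimitive := AddChar.zmodChar_primitive_of_primitive_root l hζ
  have hord : orderOf χ = 3 := by
    have : Fact (Nat.Prime 3) := ⟨Nat.prime_three⟩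
    exact orderOf_eq_prime hχ3 hχ1
  set g : F := gaussSum χ ψ with hg
  have hg0 : g ≠ 0 := gaussSum_ne_zero_of_nontrivial (by rw [hcard]; exact hl0) hχ1 hprim
  have hneg : χ (-1) = 1 := MulChar.val_neg_one_eq_one_of_odd_order (n := 3) (by decide) hχ3
  have hg3 : g ^ 3 = (l : F) * jacobiSum χ χ := by
    have h := gaussSum_pow_eq_prod_jacobiSum (χ := χ) (ψ := ψ) (by rw [hord]; norm_num) hprim
    rw [hord, hneg, hcard, one_mul] at h
    rw [hg, h]
    congr 1
    have : Finset.Ico 1 (3 - 1) = {1} := by decide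
    rw [this, Finset.prod_singleton, pow_one]
  have hqu : IsUnit (q : ZMod l) := by
    rw [isUnit_iff_ne_zero]
    intro h
    have h1 := (ZMod.natCast_eq_zero_iff q l).1 h
    exact hql ((Nat.prime_dvd_prime_iff_eq Fact.out Fact.out).1 h1).symm
  obtain ⟨u, hu⟩ := hqu
  have hfrob : g ^ q = gaussSum (χ ^ q) (ψ ^ q) := gaussSum_frob q χ ψ
  have hchi3 : χ (q : ZMod l) ^ 3 = 1 := by
    rw [← hu, ← MulChar.pow_apply_coe, hχ3, MulChar.one_apply_coe]
  refine ⟨fun h1 => ?_, fun h2 => ?_⟩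
  · have hχq : χ ^ q = χ := by
      obtain ⟨t, ht⟩ : ∃ t, q = 3 * t + 1 := ⟨q / 3, by omega⟩
      rw [ht, pow_succ, pow_mul, hχ3, one_pow, one_mul]
    have h4 : χ (q : ZMod l) * g ^ q = g := by
      rw [hfrob, hχq, AddChar.pow_mulShift, ← hu]
      exact gaussSum_mulShift χ ψ u
    have h5 : ((l : F) * jacobiSum χ χ) ^ ((q - 1) / 3) = g ^ (q - 1) := by
      rw [← hg3, ← pow_mul]
      congr 1
      omega
    rw [h5]
    have h6 : g ^ q = g ^ (q - 1) * g := by
      rw [← pow_succ]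
      congr 1
      have := hq.two_le
      omega
    rw [h6] at h4
    have h7 : (g ^ (q - 1) * χ (q : ZMod l)) * g = 1 * g := by
      rw [one_mul]
      linear_combination h4
    exact mul_right_cancel₀ hg0 h7
  · have hχq : χ ^ (q ^ 2) = χ := by
      obtain ⟨t, ht⟩ : ∃ t, q = 3 * t + 2 := ⟨q / 3, by omega⟩
      have : q ^ 2 = 3 * (3 * t ^ 2 + 4 * t + 1) + 1 := by
        rw [ht]
        ring
      rw [this, pow_succ, pow_mul, hχ3, one_pow, one_mul]
    have h3 : g ^ (q ^ 2) = gaussSum (χ ^ (q ^ 2)) (ψ ^ (q ^ 2)) := by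
      rw [sq, pow_mul, hfrob, gaussSum_frob q, ← pow_mul, ← pow_mul]
    have h4 : χ (q : ZMod l) ^ 2 * g ^ (q ^ 2) = g := by
      have := gaussSum_mulShift χ ψ (u ^ 2)
      rw [h3, hχq, AddChar.pow_mulShift]
      rw [Units.val_pow_eq_pow_val, hu, map_pow] at this
      rw [Nat.cast_pow]
      exact this
    have h5 : ((l : F) * jacobiSum χ χ) ^ ((q ^ 2 - 1) / 3) = g ^ (q ^ 2 - 1) := by
      rw [← hg3, ← pow_mul]
      congr 1
      obtain ⟨t, ht⟩ : ∃ t, q = 3 * t + 2 := ⟨q / 3, by omega⟩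
      have : q ^ 2 = 3 * (3 * t ^ 2 + 4 * t + 1) + 1 := by
        rw [ht]
        ring
      omega
    rw [h5]
    have h6 : g ^ (q ^ 2) = g ^ (q ^ 2 - 1) * g := by
      rw [← pow_succ]
      congr 1
      have : 0 < q ^ 2 := by have := hq.pos; positivity
      omega
    rw [h6] at h4
    have h7 : (g ^ (q ^ 2 - 1)) * g = χ (q : ZMod l) * g := by
      linear_combination χ (q : ZMod l) * h4 - (g ^ (q ^ 2 - 1)) * g * hchi3
    exact mul_right_cancel₀ hg0 h7

end Pool.EMC
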