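import Pool.Agent.Work.MP_75c89d_cub.Interface

set_option autoImplicit false

open Polynomial

namespace Pool.EMC

theorem GSB_dvd {F : Type} [Field F] {q : ℕ} [CharP F q] (θ : F) (hne : θ - θ ^ 2 ≠ 0) (z : E)
    (h1 : ev θ z = 0) (h2 : ev (θ ^ 2) z = 0) : ((q : ℤ) : E) ∣ z := by
  rw [intCast_dvd]
  unfold ev at h1 h2
  have h3 : (z.im : F) * (θ - θ ^ 2) = 0 := by linear_combination h1 - h2
  have him : (z.im : F) = 0 := by
    rcases mul_eq_zero.mp h3 with h | h
    · exact h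
    · exact absurd h hne
  have hre : (z.re : F) = 0 := by
    rw [him, zero_mul, add_zero] at h1
    exact h1
  exact ⟨(CharP.intCast_eq_zero_iff F q _).mp hre, (CharP.intCast_eq_zero_iff F q _).mp him⟩

/-- the values at one root -/
theorem GSB_val (hA : Stmt_GSA) (l q : ℕ) [Fact l.Prime] [Fact q.Prime] (hq3 : q ≠ 3)
    (hql : q ≠ l) (χ : MulChar (ZMod l) E) (hne : χ ≠ 1) (hcube : χ ^ 3 = 1)
    (F : Type) [Field F] [CharP F q] [IsAlgClosed F] (θ : F) (hθ : θ ^ 2 + θ + 1 = 0)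
    (h3F : (3 : F) ≠ 0) (k : ZMod 3) (hk : χ (q : ZMod l) = om ^ k.val) :
    (q % 3 = 1 → ((l : F) * ev θ (jacobiSum χ χ)) ^ ((q - 1) / 3) * θ ^ k.val = 1) ∧
    (q % 3 = 2 → ((l : F) * ev θ (jacobiSum χ χ)) ^ ((q ^ 2 - 1) / 3) = θ ^ k.val) := by
  have hne' : χ.ringHomComp (evHom θ hθ) ≠ 1 := by
    intro h
    apply hne
    refine MulChar.ext fun x => ?_
    have h1 : (χ.ringHomComp (evHom θ hθ)) x = (1 : MulChar (ZMod l) F) x := by rw [h]
    rw [MulChar.ringHomComp_apply, MulChar.one_apply_coe] at h1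
    rw [MulChar.one_apply_coe]
    have h2 : (χ x) ^ 3 = 1 := by
      have h4 : (χ ^ 3) x = (1 : MulChar (ZMod l) E) x := by rw [hcube]
      rw [MulChar.pow_apply_coe, MulChar.one_apply_coe] at h4
      exact h4
    by_contra hx
    have h5 : (χ x - 1) * ((χ x) ^ 2 + χ x + 1) = 0 := by linear_combination h2
    rcases mul_eq_zero.mp h5 with h6 | h6
    · exact hx (sub_eq_zero.mp h6)
    · have h7 := congrArg (evHom θ hθ) h6
      rw [map_add, map_add, map_pow, h1, map_one, map_zero] at h7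
      apply h3F
      linear_combination h7
  have hcube' : (χ.ringHomComp (evHom θ hθ)) ^ 3 = 1 := by
    ext x
    rw [MulChar.pow_apply_coe, MulChar.ringHomComp_apply, MulChar.one_apply_coe, ← map_pow]
    have h4 : (χ ^ 3) x = (1 : MulChar (ZMod l) E) x := by rw [hcube]
    rw [MulChar.pow_apply_coe, MulChar.one_apply_coe] at h4
    rw [h4, map_one]
  have hJ : jacobiSum (χ.ringHomComp (evHom θ hθ)) (χ.ringHomComp (evHom θ hθ)) =
      ev θ (jacobiSum χ χ) := by
    rw [jacobiSum_ringHomComp]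
    rfl
  have hq : (χ.ringHomComp (evHom θ hθ)) (q : ZMod l) = θ ^ k.val := by
    rw [MulChar.ringHomComp_apply, hk, map_pow]
    congr 1
    exact ev_om θ
  have h := hA l q hq3 hql F (χ.ringHomComp (evHom θ hθ)) hne' hcube'
  rw [hJ, hq] at h
  exact h

theorem p_GSB (hA : Stmt_GSA) (hB : Stmt_JSM) : Stmt_GSB := by
  intro l q _ _ hl3 hq3 hql r hr χ hχ k hk
  obtain ⟨hnm, -, -⟩ := hB l hl3 r hr χ hχ
  have hqp : q.Prime := Fact.out
  have hlp : l.Prime := Fact.out
  obtain ⟨F, iF, iC, iA⟩ : ∃ (F : Type) (_ : Field F) (_ : CharP F q), IsAlgClosed F :=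
    ⟨AlgebraicClosure (ZMod q), inferInstance,
      charP_of_injective_algebraMap (algebraMap (ZMod q) (AlgebraicClosure (ZMod q))).injective q,
      inferInstance⟩
  have h3F : (3 : F) ≠ 0 := by
    intro h
    have h1 : ((3 : ℕ) : F) = 0 := by exact_mod_cast h
    rw [CharP.cast_eq_zero_iff F q 3] at h1
    exact hq3 ((Nat.prime_dvd_prime_iff_eq hqp Nat.prime_three).mp h1)
  obtain ⟨θ, hθ⟩ : ∃ θ : F, θ ^ 2 + θ + 1 = 0 := by
    have hdeg : (X ^ 2 + X + 1 : F[X]).degree ≠ 0 := by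
      have : (X ^ 2 + X + 1 : F[X]).degree = 2 := by compute_degree!
      rw [this]
      exact two_ne_zero
    obtain ⟨θ, h⟩ := IsAlgClosed.exists_root _ hdeg
    refine ⟨θ, ?_⟩
    have h' : eval θ (X ^ 2 + X + 1 : F[X]) = 0 := h
    simpa using h'
  have hne : θ - θ ^ 2 ≠ 0 := by
    intro h
    have h1 : θ * (1 - θ) = 0 := by linear_combination h
    rcases mul_eq_zero.mp h1 with h2 | h2
    · rw [h2] at hθ
      simp at hθ
    · have h4 : θ = 1 := (sub_eq_zero.mp h2).symm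
      rw [h4] at hθ
      apply h3F
      linear_combination hθ
  have v1 := GSB_val hA l q hq3 hql χ hχ.ne hχ.cube F θ hθ h3F k hk
  have v2 := GSB_val hA l q hq3 hql χ hχ.ne hχ.cube F (θ ^ 2) (root_sq hθ) h3F k hk
  have hlF : (l : F) ^ (q - 1) = 1 := by
    have h1 : ((l : ZMod q)) ^ (q - 1) = 1 := by
      apply ZMod.pow_card_sub_one_eq_one
      intro h
      rw [ZMod.natCast_eq_zero_iff] at h
      exact hql ((Nat.prime_dvd_prime_iff_eq hqp hlp).mp h)
    have h2 := congrArg (ZMod.castHom (dvd_refl q) F) h1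
    rw [map_pow, map_one, map_natCast] at h2
    exact h2
  refine ⟨fun hq1 => ?_, fun hq2 => ?_⟩
  · have hev : Even ((q - 1) / 3) := by
      have hodd : q % 2 = 1 := by
        rcases hqp.eq_two_or_odd with h | h
        · omega
        · exact h
      rw [Nat.even_iff]
      omega
    have key : ∀ ϑ : F, ϑ ^ 2 + ϑ + 1 = 0 →
        ((l : F) * ev ϑ (jacobiSum χ χ)) ^ ((q - 1) / 3) * ϑ ^ k.val = 1 →
        ev ϑ (((-jacobiSum χ χ) ^ 2 * cj (-jacobiSum χ χ)) ^ ((q - 1) / 3) * om ^ k.val - 1)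
          = 0 := by
      intro ϑ hϑ h
      have h1 : (-jacobiSum χ χ) ^ 2 * cj (-jacobiSum χ χ) =
          ((l : ℤ) : E) * (-jacobiSum χ χ) := by
        rw [sq, mul_assoc, mul_cj, hnm]
        ring
      have h2 : ev ϑ (-jacobiSum χ χ) = - ev ϑ (jacobiSum χ χ) := by
        have := map_neg (evHom ϑ hϑ) (jacobiSum χ χ)
        exact this
      rw [h1, ev_sub, ev_mul hϑ, ev_pow hϑ, ev_pow hϑ, ev_om, ev_one, ev_mul hϑ, ev_intCast, h2]
      have h3 : (((l : ℤ) : F) * - ev ϑ (jacobiSum χ χ)) ^ ((q - 1) / 3) =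
          ((l : F) * ev ϑ (jacobiSum χ χ)) ^ ((q - 1) / 3) := by
        have h4 : ((l : ℤ) : F) * - ev ϑ (jacobiSum χ χ) =
            -((l : F) * ev ϑ (jacobiSum χ χ)) := by
          push_cast
          ring
        rw [h4, hev.neg_pow]
      rw [h3, h, sub_self]
    exact GSB_dvd θ hne _ (key θ hθ (v1.1 hq1)) (key (θ ^ 2) (root_sq hθ) (v2.1 hq1))
  · have hdiv : (q ^ 2 - 1) / 3 = (q - 1) * ((q + 1) / 3) := by
      have h1 : q ^ 2 - 1 = (q + 1) * (q - 1) := by
        have := Nat.sq_sub_sq q 1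
        simpa using this
      rw [h1]
      obtain ⟨m, hm⟩ : 3 ∣ q + 1 := by omega
      rw [hm, Nat.mul_div_cancel_left m (by norm_num), mul_assoc,
        Nat.mul_div_cancel_left _ (by norm_num)]
      ring
    have hl1 : (l : F) ^ ((q ^ 2 - 1) / 3) = 1 := by
      rw [hdiv, pow_mul, hlF, one_pow]
    have hneg : (-1 : F) ^ ((q ^ 2 - 1) / 3) = 1 := by
      rcases hqp.eq_two_or_odd with h | h
      · have h2 : (-1 : F) = 1 := by
          have h4 : ((q : ℕ) : F) = 0 := CharP.cast_eq_zero F q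
          rw [h] at h4
          push_cast at h4
          linear_combination (-1 : F) * h4
        rw [h2, one_pow]
      · have hev : Even ((q ^ 2 - 1) / 3) := by
          rw [hdiv]
          apply Even.mul_right
          rw [Nat.even_iff]
          omega
        exact hev.neg_one_pow
    have key : ∀ ϑ : F, ϑ ^ 2 + ϑ + 1 = 0 →
        ((l : F) * ev ϑ (jacobiSum χ χ)) ^ ((q ^ 2 - 1) / 3) = ϑ ^ k.val →
        ev ϑ ((-jacobiSum χ χ) ^ ((q ^ 2 - 1) / 3) - om ^ k.val) = 0 := by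
      intro ϑ hϑ h
      have h2 : ev ϑ (-jacobiSum χ χ) = (-1) * ev ϑ (jacobiSum χ χ) := by
        have := map_neg (evHom ϑ hϑ) (jacobiSum χ χ)
        rw [neg_one_mul]
        exact this
      rw [mul_pow, hl1, one_mul] at h
      rw [ev_sub, ev_pow hϑ, ev_pow hϑ, ev_om, h2, mul_pow, hneg, one_mul, h, sub_self]
    exact GSB_dvd θ hne _ (key θ hθ (v1.2 hq2)) (key (θ ^ 2) (root_sq hθ) (v2.2 hq2))

end Pool.EMC
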