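import Pool.Agent.Work.MP_75c89d_cub.Interface

/-! Block JSM of THEOREM CUB (MP_75c89d_nt): the cubic Jacobi sum (helper20). -/

set_option autoImplicit false

open Polynomial

namespace Pool.EMC

theorem JSM_prim : IsPrimitiveRoot om 3 := by
  have h1 : om ≠ 1 := by
    intro h
    have := congrArg QuadraticAlgebra.im h
    rw [om_im] at this
    simp at this
  have h2 : orderOf om = 3 := orderOf_eq_prime om_cube h1
  rw [← h2]
  exact IsPrimitiveRoot.orderOf om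

theorem JSM_dvd (l : ℕ) [Fact l.Prime] (hl : l % 3 = 1) (χ : MulChar (ZMod l) E) (hc : χ ^ 3 = 1) :
    ((3 : ℤ) : E) ∣ -jacobiSum χ χ - 1 := by
  have h3 : 3 ∣ Fintype.card (ZMod l) - 1 := by
    rw [ZMod.card]
    omega
  obtain ⟨z, -, hz⟩ := exists_jacobiSum_eq_neg_one_add (by norm_num : 2 < 3) hc hc h3 JSM_prim
  refine ⟨z * om, ?_⟩
  rw [hz]
  have h4 := om_sq
  push_cast
  linear_combination (-z) * h4

theorem JSM_zero (l : ℕ) [Fact l.Prime] (hl : l % 3 = 1) (r : ZMod l) (hr : r ^ 2 + r + 1 = 0)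
    (χ : MulChar (ZMod l) E) (h : Chi l r χ) : ev r (-jacobiSum χ χ) = 0 := by
  have h2 : 2 ≤ l := (Fact.out : l.Prime).two_le
  have e1 : ev r (-jacobiSum χ χ) = -∑ x : ZMod l, x ^ ((l - 1) / 3) * (1 - x) ^ ((l - 1) / 3) := by
    rw [← evHom_apply r hr, map_neg, jacobiSum, map_sum]
    congr 1
    refine Finset.sum_congr rfl fun x _ => ?_
    rw [map_mul, evHom_apply, evHom_apply, h.red, h.red]
  rw [e1, neg_eq_zero]
  have e2 : ∀ x : ZMod l, x ^ ((l - 1) / 3) * (1 - x) ^ ((l - 1) / 3) =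
      ∑ j ∈ Finset.range ((l - 1) / 3 + 1), (((l - 1) / 3).choose j : ZMod l) * (-1) ^ j *
        x ^ ((l - 1) / 3 + j) := by
    intro x
    rw [show (1 : ZMod l) - x = -x + 1 by ring, add_pow, Finset.mul_sum]
    refine Finset.sum_congr rfl fun j _ => ?_
    rw [one_pow, neg_pow, pow_add]
    ring
  rw [Finset.sum_congr rfl fun x _ => e2 x, Finset.sum_comm]
  refine Finset.sum_eq_zero fun j hj => ?_
  rw [← Finset.mul_sum]
  have hj' : j < (l - 1) / 3 + 1 := Finset.mem_range.1 hj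
  have e3 : ∑ x : ZMod l, x ^ ((l - 1) / 3 + j) = 0 := by
    refine FiniteField.sum_pow_lt_card_sub_one (ZMod l) _ ?_
    rw [ZMod.card]
    have : l ≠ 2 := by
      rintro rfl
      omega
    omega
  rw [e3, mul_zero]

theorem JSM_inv (l : ℕ) [Fact l.Prime] (χ : MulChar (ZMod l) E) (hc : χ ^ 3 = 1) :
    χ.ringHomComp cjHom = χ⁻¹ := by
  refine eq_inv_of_mul_eq_one_left ?_
  refine MulChar.ext fun x => ?_
  rw [MulChar.mul_apply, MulChar.one_apply_coe]
  have h1 : χ (x : ZMod l) ^ 3 = 1 := by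
    have := congrArg (fun ψ : MulChar (ZMod l) E => ψ (x : ZMod l)) hc
    simpa [MulChar.pow_apply_coe, MulChar.one_apply_coe] using this
  have h2 : nm (χ (x : ZMod l)) ^ 3 = 1 := by rw [← nm_pow, h1, nm_one]
  have h3 : nm (χ (x : ZMod l)) = 1 := by
    have h4 := nm_nonneg (χ (x : ZMod l))
    exact (pow_eq_one_iff_of_nonneg h4 (by norm_num)).1 h2
  show cj (χ (x : ZMod l)) * χ (x : ZMod l) = 1
  rw [mul_comm, mul_cj, h3, Int.cast_one]

theorem JSM_root : ∃ ζ : ℂ, ζ ^ 2 + ζ + 1 = 0 := by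
  have h := Complex.isPrimitiveRoot_exp 3 (by norm_num)
  have h1 := h.geom_sum_eq_zero (by norm_num)
  rw [Finset.sum_range_succ, Finset.sum_range_succ, Finset.sum_range_one] at h1
  exact ⟨_, by linear_combination h1⟩

theorem p_JSM : Stmt_JSM := by
  intro l _ hl r hr χ h
  refine ⟨?_, JSM_dvd l hl χ h.cube, JSM_zero l hl r hr χ h⟩
  obtain ⟨ζ, hζ⟩ := JSM_root
  have hinj : Function.Injective (evHom ζ hζ) := by
    rw [injective_iff_map_eq_zero]
    intro z hz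
    have h1 := ev_mul_ev hζ z
    rw [← evHom_apply ζ hζ, hz, zero_mul] at h1
    exact nm_eq_zero.1 (by exact_mod_cast h1.symm)
  have hχ1 : χ.ringHomComp (evHom ζ hζ) ≠ 1 := (MulChar.ringHomComp_ne_one_iff hinj).2 h.ne
  have hχ3 : (χ.ringHomComp (evHom ζ hζ)) ^ 3 = 1 := by
    rw [MulChar.ringHomComp_pow, h.cube]
    exact MulChar.ringHomComp_one _
  have hχ2 : χ.ringHomComp (evHom ζ hζ) * χ.ringHomComp (evHom ζ hζ) ≠ 1 := by
    intro h2
    rw [pow_succ, sq, h2, one_mul] at hχ3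
    exact hχ1 hχ3
  have hchar : ringChar ℂ ≠ ringChar (ZMod l) := by
    rw [ringChar.eq_zero, ZMod.ringChar_zmod_n]
    exact (Fact.out : l.Prime).ne_zero.symm
  have hJ := jacobiSum_mul_jacobiSum_inv hchar hχ1 hχ1 hχ2
  have e1 : jacobiSum (χ.ringHomComp (evHom ζ hζ)) (χ.ringHomComp (evHom ζ hζ)) =
      ev ζ (jacobiSum χ χ) := by
    rw [jacobiSum_ringHomComp]
    rfl
  have e2 : jacobiSum (χ.ringHomComp (evHom ζ hζ))⁻¹ (χ.ringHomComp (evHom ζ hζ))⁻¹ =
      ev ζ (cj (jacobiSum χ χ)) := by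
    rw [MulChar.ringHomComp_inv, ← JSM_inv l χ h.cube, jacobiSum_ringHomComp,
      jacobiSum_ringHomComp]
    rfl
  rw [e1, e2, ← ev_mul hζ, mul_cj, ev_intCast, ZMod.card] at hJ
  have h5 : nm (jacobiSum χ χ) = l := by exact_mod_cast hJ
  have h6 : nm (-jacobiSum χ χ) = nm (jacobiSum χ χ) := by
    simp only [nm, QuadraticAlgebra.re_neg, QuadraticAlgebra.im_neg]
    ring
  rw [h6, h5]

end Pool.EMC
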