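import Pool.Agent.Work.MP_75c89d_cub.Interface

/-!
# Block KER (helper1): the kernel of the evaluation at a root
-/

set_option autoImplicit false

namespace Pool.EMC

theorem KER_ne {l : ℕ} [Fact l.Prime] (hl : l ≠ 3) {r : ZMod l} (hr : r ^ 2 + r + 1 = 0) :
    r - r ^ 2 ≠ 0 := by
  intro h
  have h3 : (3 : ZMod l) = 0 := by linear_combination (3 - 2 * r) * hr + (-1 - 2 * r) * h
  have h4 : ((3 : ℕ) : ZMod l) = 0 := by exact_mod_cast h3
  rw [ZMod.natCast_eq_zero_iff] at h4
  have := (Nat.prime_dvd_prime_iff_eq (Fact.out : l.Prime) Nat.prime_three).1 h4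
  exact hl this

theorem p_KER : Stmt_KER := by
  intro l _ hl r hr lam hn hlam z hz
  have hr2 := root_sq hr
  have hr4 : (r ^ 2) ^ 2 = r := by
    have := root_cube hr
    linear_combination r * this
  have h1 : ev r (z * cj lam) = 0 := by
    rw [ev_mul hr, hz, zero_mul]
  have h2 : ev (r ^ 2) (z * cj lam) = 0 := by
    rw [ev_mul hr2, ev_cj hr2, hr4, hlam, mul_zero]
  set w := z * cj lam with hw
  have him : ((w.im : ℤ) : ZMod l) = 0 := by
    have h3 : ((w.im : ℤ) : ZMod l) * (r - r ^ 2) = 0 := by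
      simp only [ev] at h1 h2
      linear_combination h1 - h2
    rcases mul_eq_zero.1 h3 with h | h
    · exact h
    · exact absurd h (KER_ne hl hr)
  have hre : ((w.re : ℤ) : ZMod l) = 0 := by
    simp only [ev] at h1
    rw [him] at h1
    simpa using h1
  have h5 : ((l : ℤ) : E) ∣ w := by
    rw [intCast_dvd]
    exact ⟨(ZMod.intCast_zmod_eq_zero_iff_dvd _ _).1 hre, (ZMod.intCast_zmod_eq_zero_iff_dvd _ _).1 him⟩
  obtain ⟨v, hv⟩ := h5
  have h6 : ((l : ℤ) : E) = lam * cj lam := by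
    rw [mul_cj, hn]
  have hl0 : nm lam ≠ 0 := by
    rw [hn]
    exact_mod_cast (Fact.out : l.Prime).ne_zero
  have hc0 : cj lam ≠ 0 := by
    intro h
    apply hl0
    rw [← nm_cj, h, nm_zero]
  refine ⟨v, ?_⟩
  apply mul_right_cancel₀ hc0
  rw [← hw, hv, h6]
  ring

end Pool.EMC
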