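import Pool.Agent.Work.MP_75c89d_cub.Interface

/-!
# MP_75c89d_nt, THEOREM CUB: block NCB (helper71)
-/

set_option autoImplicit false

open Polynomial

namespace Pool.EMC

/-- if `s ∣ α - 1` then `s ∤ N α` -/
theorem NCB_not_dvd {s : ℕ} (hs : s.Prime) {α : E} (h : ((s : ℤ) : E) ∣ α - 1) :
    ¬ (s : ℤ) ∣ nm α := by
  intro h1
  have h2 := nm_congr h
  rw [nm_one] at h2
  have h3 : (s : ℤ) ∣ 1 := by
    have h4 := dvd_sub h1 h2
    simpa using h4
  have h5 : s ∣ 1 := by exact_mod_cast h3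
  exact hs.one_lt.ne' (Nat.dvd_one.1 h5)

/-- the symbol of a prime `s ∣ α - 1` is zero -/
theorem NCB_sym_one (hPUN : Stmt_PUN) (hPSI : Stmt_PSI) {α : E} {χ : ℤ → ZMod 3} (hχ : Sym α χ)
    {s : ℕ} (hs : s.Prime) (h3 : s ≠ 3) (h : ((s : ℤ) : E) ∣ α - 1) : χ s = 0 := by
  have hnd := NCB_not_dvd hs h
  have h1 := hχ.psi s hs h3 hnd
  have hs1 : ¬ (s : ℤ) ∣ (1 : ℤ) := by
    intro h5
    have h5 : s ∣ 1 := by exact_mod_cast h5
    exact hs.one_lt.ne' (Nat.dvd_one.1 h5)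
  have h2 : Psi s ((1 : ℤ) : E) 0 := hPSI.int s 1 hs h3 hs1
  have h4 : ((s : ℤ) : E) ∣ ((1 : ℤ) : E) - α := by
    have h5 : ((1 : ℤ) : E) - α = -(α - 1) := by
      rw [Int.cast_one]
      ring
    rw [h5]
    exact (dvd_neg).2 h
  have h6 : Psi s α 0 := hPSI.congr s _ _ 0 hs h4 h2
  obtain ⟨k, _, hk⟩ := hPUN s hs h3 α hnd
  rw [hk _ h1, hk _ h6]

/-- the sum of the symbols is zero -/
theorem NCB_main (hEVL : Stmt_EVL) {W p : ℕ} {n : ℤ} (h : Hyp W p n) {α : E}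
    {χ : ℤ → ZMod 3} (hχ : Sym α χ) (h3 : ¬ (3 : ℤ) ∣ nm α)
    (hW : ∀ s : ℕ, s.Prime → s ∣ W → ¬ (s : ℤ) ∣ nm α)
    (hlt : ∀ l : ℕ, l.Prime → (l : ℤ) ∣ nm α → l < p) :
    ∑ q ∈ n.natAbs.primeFactors, (n.natAbs.factorization q : ZMod 3) * χ (q : ℤ) = 0 := by
  have hco : IsCoprime n (nm α) := by
    rw [Int.isCoprime_iff_gcd_eq_one]
    by_contra hne
    obtain ⟨q, hq, hqd⟩ := Nat.exists_prime_and_dvd hne
    have hd : (q : ℤ) ∣ (Int.gcd n (nm α) : ℤ) := by exact_mod_cast hqd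
    have h1 : (q : ℤ) ∣ n := hd.trans (Int.gcd_dvd_left _ _)
    have h2 : (q : ℤ) ∣ nm α := hd.trans (Int.gcd_dvd_right _ _)
    have hqp : q ≠ p := (hlt q hq h2).ne
    have h4 := h.supp q hq h1 hqp
    rcases (Nat.Prime.dvd_mul hq).1 h4 with h5 | h5
    · have h6 : q = 3 := (Nat.prime_dvd_prime_iff_eq hq Nat.prime_three).1 h5
      subst h6
      exact h3 (by exact_mod_cast h2)
    · exact hW q hq h5 h2
  rw [← hEVL α χ hχ n h.ne hco]
  refine hχ.cub n hco fun l hl hl3 hld => ?_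
  refine h.cub l hl hl3 (hlt l hl hld) fun hlW => ?_
  exact hW l hl hlW hld

/-- if all the symbols but one are trivial, the exponent is divisible by 3 -/
theorem NCB_exp {n : ℤ} {χ : ℤ → ZMod 3} {q : ℕ}
    (h0 : ∑ q ∈ n.natAbs.primeFactors, (n.natAbs.factorization q : ZMod 3) * χ (q : ℤ) = 0)
    (h1 : ∀ s ∈ n.natAbs.primeFactors, s ≠ q → (n.natAbs.factorization s : ZMod 3) * χ (s : ℤ) = 0)
    (hq : χ (q : ℤ) ≠ 0) : 3 ∣ n.natAbs.factorization q := by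
  haveI : Fact (Nat.Prime 3) := ⟨Nat.prime_three⟩
  have h2 : ∑ q ∈ n.natAbs.primeFactors, (n.natAbs.factorization q : ZMod 3) * χ (q : ℤ) =
      (n.natAbs.factorization q : ZMod 3) * χ (q : ℤ) := by
    refine Finset.sum_eq_single q h1 fun h3 => ?_
    have h4 : n.natAbs.factorization q = 0 := by
      rw [← Nat.support_factorization] at h3
      exact Finsupp.notMem_support_iff.1 h3
    rw [h4]
    simp
  rw [h2] at h0
  rcases mul_eq_zero.1 h0 with h3 | h3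
  · exact (ZMod.natCast_eq_zero_iff _ _).1 h3
  · exact absurd h3 hq

/-- an integer all of whose exponents are divisible by 3 is a cube -/
theorem NCB_cube {n : ℤ} (hn : n ≠ 0) (h : ∀ q : ℕ, q.Prime → 3 ∣ n.natAbs.factorization q) :
    ∃ t : ℤ, n = t ^ 3 := by
  have hn' : n.natAbs ≠ 0 := Int.natAbs_ne_zero.2 hn
  have h1 : (∏ q ∈ n.natAbs.primeFactors, q ^ (n.natAbs.factorization q / 3)) ^ 3 = n.natAbs := by
    rw [← Finset.prod_pow]
    conv_rhs => rw [← Nat.prod_factorization_pow_eq_self hn']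
    rw [Finsupp.prod, Nat.support_factorization]
    refine Finset.prod_congr rfl fun q hq => ?_
    rw [← pow_mul, Nat.div_mul_cancel (h q (Nat.prime_of_mem_primeFactors hq))]
  rcases Int.natAbs_eq n with h2 | h2
  · refine ⟨((∏ q ∈ n.natAbs.primeFactors, q ^ (n.natAbs.factorization q / 3) : ℕ) : ℤ), ?_⟩
    conv_lhs => rw [h2, ← h1]
    push_cast
    rfl
  · refine ⟨-((∏ q ∈ n.natAbs.primeFactors, q ^ (n.natAbs.factorization q / 3) : ℕ) : ℤ), ?_⟩
    conv_lhs => rw [h2, ← h1]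
    push_cast
    ring

/-- `⟨a, b⟩ - 1` is divisible by `s` -/
theorem NCB_dvd_sub_one {s a b : ℤ} (ha : s ∣ a - 1) (hb : s ∣ b) :
    (s : E) ∣ (⟨a, b⟩ : E) - 1 := by
  rw [intCast_dvd]
  constructor
  · simpa using ha
  · simpa using hb

theorem p_NCB (hPUN : Stmt_PUN) (hPSI : Stmt_PSI) (hSYM : Stmt_SYM) (hEVL : Stmt_EVL)
    (hTHR : Stmt_THR) (hALF : Stmt_ALF) : Stmt_NCB := by
  intro W hW0 hW3
  choose! a b k ha hb hs hnd hk hpsi using fun q => hALF W q hW0 hW3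
  set α : ℕ → E := fun q => ⟨a q, 9 * b q⟩ with hα
  refine ⟨(nm (⟨1, 3 * (W : ℤ)⟩ : E)).natAbs + ∑ q ∈ W.primeFactors, (nm (α q)).natAbs + 1, ?_⟩
  intro p hp hP n h hp3
  -- bounds
  have hlt1 : ∀ l : ℕ, l.Prime → (l : ℤ) ∣ nm (⟨1, 3 * (W : ℤ)⟩ : E) → l < p := by
    intro l hl hd
    have h0 : nm (⟨1, 3 * (W : ℤ)⟩ : E) ≠ 0 := by
      rw [Ne, nm_eq_zero]
      intro h0
      have := congrArg QuadraticAlgebra.re h0
      simp at this
    have h1 : l ≤ (nm (⟨1, 3 * (W : ℤ)⟩ : E)).natAbs :=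
      Nat.le_of_dvd (Int.natAbs_pos.2 h0) (Int.natCast_dvd.1 hd)
    have h2 := Nat.zero_le (∑ q ∈ W.primeFactors, (nm (α q)).natAbs)
    omega
  have hlt2 : ∀ q ∈ W.primeFactors, ∀ l : ℕ, l.Prime → (l : ℤ) ∣ nm (α q) → l < p := by
    intro q hq l hl hd
    have hqp := Nat.prime_of_mem_primeFactors hq
    have h0 : nm (α q) ≠ 0 := by
      intro h0
      apply hnd q hqp (Nat.dvd_of_mem_primeFactors hq)
      rw [hα] at h0
      rw [h0]
      exact dvd_zero _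
    have h1 : l ≤ (nm (α q)).natAbs :=
      Nat.le_of_dvd (Int.natAbs_pos.2 h0) (Int.natCast_dvd.1 hd)
    have h2 : (nm (α q)).natAbs ≤ ∑ q ∈ W.primeFactors, (nm (α q)).natAbs :=
      Finset.single_le_sum (f := fun q => (nm (α q)).natAbs) (fun _ _ => Nat.zero_le _) hq
    omega
  have h3W : ∀ s : ℕ, s.Prime → s ∣ W → s ≠ 3 := by
    rintro s hs hsW rfl
    exact hW3 hsW
  refine NCB_cube h.ne fun q hq => ?_
  by_cases hqp : q = p
  · rw [hqp]
    exact hp3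
  by_cases hqn : (q : ℤ) ∣ n
  swap
  · have : n.natAbs.factorization q = 0 := by
      apply Nat.factorization_eq_zero_of_not_dvd
      intro h1
      exact hqn (Int.natCast_dvd.2 h1)
    rw [this]
    exact dvd_zero _
  have hpz : (n.natAbs.factorization p : ZMod 3) = 0 := (ZMod.natCast_eq_zero_iff _ _).2 hp3
  have hcase : ∀ s ∈ n.natAbs.primeFactors, s = p ∨ s = 3 ∨ (s.Prime ∧ s ∣ W) := by
    intro s hs'
    have hsp := Nat.prime_of_mem_primeFactors hs'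
    by_cases hsp' : s = p
    · exact Or.inl hsp'
    right
    have hsn : (s : ℤ) ∣ n := Int.natCast_dvd.2 (Nat.dvd_of_mem_primeFactors hs')
    rcases (Nat.Prime.dvd_mul hsp).1 (h.supp s hsp hsn hsp') with h5 | h5
    · exact Or.inl ((Nat.prime_dvd_prime_iff_eq hsp Nat.prime_three).1 h5)
    · exact Or.inr ⟨hsp, h5⟩
  rcases (Nat.Prime.dvd_mul hq).1 (h.supp q hq hqn hqp) with h5 | h5
  · -- the prime 3
    have hq3 : q = 3 := (Nat.prime_dvd_prime_iff_eq hq Nat.prime_three).1 h5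
    subst hq3
    have h3α : ((3 : ℤ) : E) ∣ (⟨1, 3 * (W : ℤ)⟩ : E) - 1 :=
      NCB_dvd_sub_one (by simp) (Dvd.intro _ rfl)
    obtain ⟨χ, hχ⟩ := hSYM _ h3α
    have hsW : ∀ s : ℕ, s ∣ W → ((s : ℤ) : E) ∣ (⟨1, 3 * (W : ℤ)⟩ : E) - 1 := by
      intro s hsW
      refine NCB_dvd_sub_one (by simp) (Dvd.dvd.mul_left ?_ _)
      exact_mod_cast hsW
    have hsum := NCB_main hEVL h hχ
      (by
        have := NCB_not_dvd (s := 3) Nat.prime_three (α := (⟨1, 3 * (W : ℤ)⟩ : E))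
          (by exact_mod_cast h3α)
        exact_mod_cast this)
      (fun s hs' hsW' => NCB_not_dvd hs' (hsW s hsW'))
      hlt1
    refine NCB_exp hsum ?_ ?_
    · intro s hs' hs3
      rcases hcase s hs' with h6 | h6 | ⟨h6, h7⟩
      · rw [h6, hpz, zero_mul]
      · exact absurd h6 hs3
      · rw [NCB_sym_one hPUN hPSI hχ h6 (h3W s h6 h7) (hsW s h7), mul_zero]
    · have h6 := (hTHR 1 (W : ℤ) 1 χ (by rfl) (by exact_mod_cast hW3) (Or.inl rfl)
        (by simpa using hχ)).2 rfl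
      exact_mod_cast h6
  · -- a prime of W
    have hqW : q ∈ W.primeFactors := Nat.mem_primeFactors.2 ⟨hq, h5, hW0.ne'⟩
    have ha1 : (3 : ℤ) ∣ a q - 1 := (Int.modEq_iff_dvd.1 (ha q hq h5).symm)
    have h3α : ((3 : ℤ) : E) ∣ α q - 1 :=
      NCB_dvd_sub_one ha1 (Dvd.dvd.mul_right (by norm_num) _)
    obtain ⟨χ, hχ⟩ := hSYM _ h3α
    have hsW : ∀ s : ℕ, s.Prime → s ∣ W → s ≠ q → ((s : ℤ) : E) ∣ α q - 1 := by
      intro s hs' hsW hsq
      obtain ⟨h7, h8⟩ := hs q hq h5 s hs' hsW hsq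
      exact NCB_dvd_sub_one h7 (Dvd.dvd.mul_left h8 _)
    have hsum := NCB_main hEVL h hχ
      (by
        have := NCB_not_dvd (s := 3) Nat.prime_three (α := α q)
          (by exact_mod_cast h3α)
        exact_mod_cast this)
      (fun s hs' hsW' => by
        by_cases hsq : s = q
        · rw [hsq]
          exact hnd q hq h5
        · exact NCB_not_dvd hs' (hsW s hs' hsW' hsq))
      (hlt2 q hqW)
    refine NCB_exp hsum ?_ ?_
    · intro s hs' hsq
      rcases hcase s hs' with h6 | h6 | ⟨h6, h7⟩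
      · rw [h6, hpz, zero_mul]
      · have h9 : α q = ⟨a q, 3 ^ 2 * b q⟩ := by
          simp only [hα]
          norm_num
        have h8 := (hTHR (a q) (b q) 2 χ (ha q hq h5) (hb q hq h5) (Or.inr rfl)
          (by rw [← h9]; exact hχ)).1 rfl
        rw [h6]
        have h10 : ((3 : ℕ) : ℤ) = 3 := rfl
        rw [h10, h8, mul_zero]
      · rw [NCB_sym_one hPUN hPSI hχ h6 (h3W s h6 h7) (hsW s h6 h7 hsq), mul_zero]
    · have h7 := hχ.psi q hq (h3W q hq h5) (hnd q hq h5)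
      obtain ⟨k', _, hk'⟩ := hPUN q hq (h3W q hq h5) (α q) (hnd q hq h5)
      have h8 : χ (q : ℤ) = k q := by
        rw [hk' _ h7, hk' _ (hpsi q hq h5)]
      rw [h8]
      exact hk q hq h5

end Pool.EMC
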