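import Pool.Agent.Work.MP_75c89d_cub.Interface

set_option autoImplicit false

/-! # Block PIC: the primes have density zero -/

namespace Pool.EMC

open Filter

theorem p_PIC : Stmt_PIC := by
  intro K
  have h1 := Chebyshev.eventually_primeCounting_le (ε := 1) one_pos
  have h2 : ∀ᶠ x : ℝ in atTop, (K : ℝ) * (Real.log 4 + 1) ≤ Real.log x :=
    Real.tendsto_log_atTop.eventually_ge_atTop _
  have h3 : ∀ᶠ x : ℝ in atTop, 1 < x := eventually_gt_atTop 1
  have h4 := (tendsto_natCast_atTop_atTop (R := ℝ)).eventually (h1.and (h2.and h3))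
  obtain ⟨n₀, hn₀⟩ := eventually_atTop.1 h4
  refine ⟨n₀, fun n hn => ?_⟩
  obtain ⟨h5, h6, h7⟩ := hn₀ n hn
  rw [Nat.floor_natCast] at h5
  have h8 : ((Finset.range (n + 1)).filter Nat.Prime).card = Nat.primeCounting n := by
    rw [Nat.primeCounting, Nat.primeCounting', Nat.count_eq_card_filter_range]
  rw [h8]
  have hlog : 0 < Real.log n := Real.log_pos h7
  have hn0 : (0 : ℝ) < n := by linarith
  have h9 : (K : ℝ) * (Nat.primeCounting n : ℝ) ≤ n := by
    calc (K : ℝ) * (Nat.primeCounting n : ℝ)
        ≤ K * ((Real.log 4 + 1) * n / Real.log n) :=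
          mul_le_mul_of_nonneg_left h5 (Nat.cast_nonneg K)
      _ = (K * (Real.log 4 + 1)) * n / Real.log n := by ring
      _ ≤ Real.log n * n / Real.log n := by
          refine div_le_div_of_nonneg_right ?_ hlog.le
          exact mul_le_mul_of_nonneg_right h6 hn0.le
      _ = n := by
          field_simp
  exact_mod_cast h9

end Pool.EMC
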