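import Pool.Agent.Work.MP_75c89d_cub.Interface

/-!
# Block PRM: prime elements
-/

set_option autoImplicit false

namespace Pool.EMC

theorem PRM_inj (k k' : ZMod 3) (h : om ^ k.val = om ^ k'.val) : k = k' := by
  have h0 : (om ^ 2 : E) = ⟨-1, -1⟩ := by
    rw [om_sq]
    refine ext' ?_ ?_ <;> simp [om]
  have e0 : om ^ (0 : ZMod 3).val = ⟨1, 0⟩ := by
    have : (0 : ZMod 3).val = 0 := rfl
    rw [this, pow_zero]
    rfl
  have e1 : om ^ (1 : ZMod 3).val = ⟨0, 1⟩ := by
    have : (1 : ZMod 3).val = 1 := rfl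
    rw [this, pow_one]
    rfl
  have e2 : om ^ (2 : ZMod 3).val = ⟨-1, -1⟩ := by
    have : (2 : ZMod 3).val = 2 := rfl
    rw [this, h0]
  have hk : ∀ j : ZMod 3, j = 0 ∨ j = 1 ∨ j = 2 := by decide
  rcases hk k with rfl | rfl | rfl <;> rcases hk k' with rfl | rfl | rfl <;>
    simp only [e0, e1, e2, QuadraticAlgebra.mk.injEq] at h <;> first | rfl | (exfalso; omega)

theorem PRM_root {z : E} (h : z ^ 3 = 1) : ∃ k : ZMod 3, z = om ^ k.val := by
  have h1 : (z - 1) * ((z - om) * (z - om ^ 2)) = 0 := by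
    have h2 := om_sq
    have h3 := om_cube
    linear_combination h - (z ^ 2 - z) * h2 + (z - 1) * h3
  rcases mul_eq_zero.1 h1 with h2 | h2
  · refine ⟨0, ?_⟩
    have : (0 : ZMod 3).val = 0 := rfl
    rw [this, pow_zero]
    exact sub_eq_zero.1 h2
  · rcases mul_eq_zero.1 h2 with h3 | h3
    · refine ⟨1, ?_⟩
      have : (1 : ZMod 3).val = 1 := rfl
      rw [this, pow_one]
      exact sub_eq_zero.1 h3
    · refine ⟨2, ?_⟩
      have : (2 : ZMod 3).val = 2 := rfl
      rw [this]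
      exact sub_eq_zero.1 h3

theorem PRM_ev {l : ℕ} [Fact l.Prime] (hl : l ≠ 3) {r : ZMod l} (hr : r ^ 2 + r + 1 = 0)
    (k k' : ZMod 3) (h : ev r (om ^ k.val) = ev r (om ^ k'.val)) : k = k' := by
  have h3 : (3 : ZMod l) ≠ 0 := by
    intro hc
    have h4 : ((3 : ℕ) : ZMod l) = 0 := by exact_mod_cast hc
    rw [ZMod.natCast_eq_zero_iff] at h4
    exact hl ((Nat.prime_dvd_prime_iff_eq (Fact.out) Nat.prime_three).1 h4)
  have hr1 : r ≠ 1 := by
    intro hc
    rw [hc] at hr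
    apply h3
    linear_combination hr
  have hr0 : r ≠ 0 := by
    intro hc
    rw [hc] at hr
    simp at hr
  have hcube := root_cube hr
  have hr2 : r ^ 2 ≠ 1 := by
    intro hc
    apply hr1
    have : r = r * r ^ 2 := by rw [hc, mul_one]
    rw [this, ← hcube]
    ring
  have hr3 : r ^ 2 ≠ r := by
    intro hc
    apply hr1
    have : r * (r - 1) = 0 := by linear_combination hc
    exact sub_eq_zero.1 ((mul_eq_zero.1 this).resolve_left hr0)
  rw [ev_pow hr, ev_pow hr, ev_om] at h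
  have hk : ∀ j : ZMod 3, j = 0 ∨ j = 1 ∨ j = 2 := by decide
  have v0 : (0 : ZMod 3).val = 0 := rfl
  have v1 : (1 : ZMod 3).val = 1 := rfl
  have v2 : (2 : ZMod 3).val = 2 := rfl
  rcases hk k with rfl | rfl | rfl <;> rcases hk k' with rfl | rfl | rfl <;>
    simp only [v0, v1, v2, pow_zero, pow_one] at h
  · rfl
  · exact absurd h.symm hr1
  · exact absurd h.symm hr2
  · exact absurd h hr1
  · rfl
  · exact absurd h.symm hr3
  · exact absurd h hr2
  · exact absurd h hr3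
  · rfl

theorem p_PRM (hCHI : Stmt_CHI) (hJSM : Stmt_JSM) (hGSB : Stmt_GSB) : Stmt_PRM := by
  classical
  intro l hl hl3 r hr
  obtain ⟨χ, hχ⟩ := hCHI l hl3 r hr
  obtain ⟨hnm, h3, hev⟩ := hJSM l hl3 r hr χ hχ
  have hlp : l.Prime := hl.out
  have hl0 : l ≠ 3 := by
    intro hc
    rw [hc] at hl3
    norm_num at hl3
  have hroot : ∀ x : ZMod l, x ≠ 0 → ∃ k : ZMod 3, χ x = om ^ k.val := by
    intro x hx
    apply PRM_root
    rw [← MulChar.pow_apply' χ (by norm_num), hχ.cube, MulChar.one_apply (isUnit_iff_ne_zero.2 hx)]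
  set s : ZMod l → ZMod 3 := fun x => if hx : x ≠ 0 then (hroot x hx).choose else 0 with hs
  have hsx : ∀ x : ZMod l, x ≠ 0 → χ x = om ^ (s x).val := by
    intro x hx
    rw [hs]
    simp only [dif_pos hx]
    exact (hroot x hx).choose_spec
  have hcop : ∀ n : ℤ, IsCoprime n (l : ℤ) → (n : ZMod l) ≠ 0 := by
    intro n hn hc
    rw [ZMod.intCast_zmod_eq_zero_iff_dvd] at hc
    have h1 : IsUnit (l : ℤ) := by
      obtain ⟨u, v, huv⟩ := hn
      obtain ⟨w, hw⟩ := hc
      exact isUnit_iff_dvd_one.2 ⟨u * w + v, by rw [← huv, hw]; ring⟩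
    rw [Int.isUnit_iff] at h1
    have := hlp.two_le
    omega
  have hsmul : ∀ x y : ZMod l, x ≠ 0 → y ≠ 0 → s (x * y) = s x + s y := by
    intro x y hx hy
    apply PRM_inj
    rw [← hsx _ (mul_ne_zero hx hy), map_mul, hsx x hx, hsx y hy, om_pow_val]
  have hs1 : ∀ x : ZMod l, x ≠ 0 → χ x = 1 → s x = 0 := by
    intro x hx h1
    apply PRM_inj
    rw [← hsx x hx, h1]
    have : (0 : ZMod 3).val = 0 := rfl
    rw [this, pow_zero]
  refine ⟨-jacobiSum χ χ, fun n => s (n : ZMod l), hnm, h3, hev, ?_, ?_, ?_, ?_, ?_⟩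
  · intro m n hm hn
    rw [hnm] at hm hn
    rw [Int.cast_mul]
    exact hsmul _ _ (hcop m hm) (hcop n hn)
  · intro m n hmn
    rw [hnm] at hmn
    have h1 : (m : ZMod l) = (n : ZMod l) := (ZMod.intCast_eq_intCast_iff m n l).2 hmn
    rw [h1]
  · intro q hq hq3 hqn
    rw [hnm] at hqn
    have : Fact q.Prime := ⟨hq⟩
    have hql : q ≠ l := by
      intro hc
      apply hqn
      rw [hc]
    have hq0 : (q : ZMod l) ≠ 0 := by
      intro hc
      rw [ZMod.natCast_eq_zero_iff] at hc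
      exact hql ((Nat.prime_dvd_prime_iff_eq hlp hq).1 hc).symm
    have h1 := hGSB l q hl3 hq3 hql r hr χ hχ (s (q : ZMod l)) (hsx _ hq0)
    rw [Int.cast_natCast]
    exact h1
  · intro n hn hcub
    rw [hnm] at hn
    obtain ⟨y, hy⟩ := hcub l hlp hl3 (by rw [hnm])
    have h1 : (n : ZMod l) = ((y ^ 3 : ℤ) : ZMod l) := (ZMod.intCast_eq_intCast_iff n (y ^ 3) l).2 hy
    have h2 : (n : ZMod l) ≠ 0 := hcop n hn
    have h3 : (y : ZMod l) ≠ 0 := by
      intro hc
      rw [h1] at h2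
      apply h2
      rw [Int.cast_pow, hc]
      simp
    apply hs1 _ h2
    rw [h1, Int.cast_pow, map_pow, ← MulChar.pow_apply' χ (by norm_num), hχ.cube,
      MulChar.one_apply (isUnit_iff_ne_zero.2 h3)]
  · intro a b hab hc
    rw [hnm] at hc
    have ha : (a : ZMod l) ≠ 0 := hcop a (IsCoprime.of_mul_left_left hc)
    have hb : (b : ZMod l) ≠ 0 := hcop b (IsCoprime.of_mul_left_right hc)
    have hr0 : r ≠ 0 := by
      intro hc
      rw [hc] at hr
      simp at hr
    have h1 : ev r (⟨a, b⟩ : E) = 0 := by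
      obtain ⟨w, hw⟩ := hab
      rw [hw, ev_mul hr, hev, zero_mul]
    have h2 : (a : ZMod l) = (-1) * ((b : ZMod l) * r) := by
      simp only [ev] at h1
      linear_combination h1
    have hm1 : (-1 : ZMod l) ≠ 0 := neg_ne_zero.2 one_ne_zero
    have h4 : s (-1) = 0 := by
      apply hs1 _ hm1
      have h5 : χ (-1) ^ 3 = 1 := by
        rw [← MulChar.pow_apply' χ (by norm_num), hχ.cube,
          MulChar.one_apply (isUnit_iff_ne_zero.2 hm1)]
      have h6 : χ (-1) ^ 2 = 1 := by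
        rw [← map_pow]
        simp
      calc χ (-1) = χ (-1) ^ 2 * χ (-1) := by rw [h6, one_mul]
        _ = χ (-1) ^ 3 := by ring
        _ = 1 := h5
    have h7 : s r = (((l - 1) / 3 : ℕ) : ZMod 3) := by
      apply PRM_ev hl0 hr
      rw [← hsx r hr0, hχ.red, om_pow_natCast, ev_pow hr, ev_om]
    rw [hnm, h2, hsmul _ _ hm1 (mul_ne_zero hb hr0), hsmul _ _ hb hr0, h4, zero_add, h7]
    congr 1
    have h8 : ((l : ℤ) - 1) / 3 = (((l - 1) / 3 : ℕ) : ℤ) := by
      have := hlp.one_lt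
      omega
    rw [h8, Int.cast_natCast]

end Pool.EMC
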