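import Pool.Agent.Work.MP_75c89d_cub.Interface

/-!
# MP_75c89d_nt, THEOREM CUB, block PSI (typist helper87)
-/

set_option autoImplicit false

open Polynomial

namespace Pool.EMC

theorem PSI_mul_aux {q u v : E} (h1 : q ∣ u - 1) (h2 : q ∣ v - 1) : q ∣ u * v - 1 := by
  have h : u * v - 1 = (u - 1) * v + (v - 1) := by ring
  rw [h]
  exact dvd_add (Dvd.dvd.mul_right h1 _) h2

theorem PSI_mul_aux' {q u v x y : E} (h1 : q ∣ u - x) (h2 : q ∣ v - y) : q ∣ u * v - x * y := by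
  have h : u * v - x * y = (u - x) * v + x * (v - y) := by ring
  rw [h]
  exact dvd_add (Dvd.dvd.mul_right h1 _) (Dvd.dvd.mul_left h2 _)

theorem PSI_pow_aux {q u v : E} (h1 : q ∣ u - v) (n : ℕ) : q ∣ u ^ n - v ^ n :=
  h1.trans (sub_dvd_pow_sub_pow u v n)

theorem PSI_cj {q : ℕ} {α β : E} (h : ((q : ℤ) : E) ∣ α - β) : ((q : ℤ) : E) ∣ cj α - cj β := by
  have h1 := map_dvd cjHom h
  rw [map_sub, cjHom_apply, cjHom_apply, cjHom_apply, cj_intCast] at h1
  exact h1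

theorem PSI_int_dvd {q : ℕ} {n : ℤ} (h : (q : ℤ) ∣ n) : ((q : ℤ) : E) ∣ ((n : ℤ) : E) := by
  obtain ⟨c, rfl⟩ := h
  exact ⟨((c : ℤ) : E), by push_cast; ring⟩

theorem PSI_fermat {q : ℕ} {d : ℤ} (hq : q.Prime) (hd : ¬ (q : ℤ) ∣ d) :
    (q : ℤ) ∣ d ^ (q - 1) - 1 := by
  have hc : IsCoprime d (q : ℤ) := by
    have := (Nat.prime_iff_prime_int.1 hq)
    exact ((Prime.coprime_iff_not_dvd this).2 hd).symm
  have h := Int.ModEq.pow_card_sub_one_eq_one hq hc
  exact (Int.modEq_iff_dvd.1 h.symm)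

theorem p_PSI : Stmt_PSI where
  mul := by
    intro q α β k l _ h1 h2
    refine ⟨fun hq => ?_, fun hq => ?_⟩
    · have a1 := h1.1 hq
      have a2 := h2.1 hq
      have h : ((α * β) ^ 2 * cj (α * β)) ^ ((q - 1) / 3) * om ^ (k + l).val =
          ((α ^ 2 * cj α) ^ ((q - 1) / 3) * om ^ k.val) *
            ((β ^ 2 * cj β) ^ ((q - 1) / 3) * om ^ l.val) := by
        rw [om_pow_val, cj_mul]
        have : (α * β) ^ 2 * (cj α * cj β) = (α ^ 2 * cj α) * (β ^ 2 * cj β) := by ring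
        rw [this, mul_pow]
        ring
      rw [h]
      exact PSI_mul_aux a1 a2
    · have a1 := h1.2 hq
      have a2 := h2.2 hq
      rw [mul_pow, om_pow_val]
      exact PSI_mul_aux' a1 a2
  congr := by
    intro q α β k _ h h1
    refine ⟨fun hq => ?_, fun hq => ?_⟩
    · have a1 := h1.1 hq
      have a2 : ((q : ℤ) : E) ∣ (α ^ 2 * cj α) ^ ((q - 1) / 3) - (β ^ 2 * cj β) ^ ((q - 1) / 3) :=
        PSI_pow_aux (PSI_mul_aux' (PSI_pow_aux h 2) (PSI_cj h)) _
      have a3 : (β ^ 2 * cj β) ^ ((q - 1) / 3) * om ^ k.val - 1 =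
          ((α ^ 2 * cj α) ^ ((q - 1) / 3) * om ^ k.val - 1) -
            ((α ^ 2 * cj α) ^ ((q - 1) / 3) - (β ^ 2 * cj β) ^ ((q - 1) / 3)) * om ^ k.val := by
        ring
      rw [a3]
      exact dvd_sub a1 (Dvd.dvd.mul_right a2 _)
    · have a1 := h1.2 hq
      have a2 := PSI_pow_aux h ((q ^ 2 - 1) / 3)
      have a3 : β ^ ((q ^ 2 - 1) / 3) - om ^ k.val =
          (α ^ ((q ^ 2 - 1) / 3) - om ^ k.val) -
            (α ^ ((q ^ 2 - 1) / 3) - β ^ ((q ^ 2 - 1) / 3)) := by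
        ring
      rw [a3]
      exact dvd_sub a1 a2
  int := by
    intro q d hq hq3 hd
    have hf := PSI_fermat hq hd
    refine ⟨fun h1 => ?_, fun h2 => ?_⟩
    · have e1 : 3 * ((q - 1) / 3) = q - 1 := by omega
      have e2 : ((d : E) ^ 2 * cj (d : E)) ^ ((q - 1) / 3) * om ^ (0 : ZMod 3).val - 1 =
          ((d ^ (q - 1) - 1 : ℤ) : E) := by
        rw [cj_intCast, ← pow_succ, ← pow_mul, e1]
        simp
      rw [e2]
      exact PSI_int_dvd hf
    · obtain ⟨t, ht⟩ : ∃ t, q = 3 * t + 2 := ⟨q / 3, by omega⟩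
      have e1 : (q ^ 2 - 1) / 3 = (q - 1) * (t + 1) := by
        have e3 : q ^ 2 = 3 * ((q - 1) * (t + 1)) + 1 := by
          subst ht
          have : 3 * t + 2 - 1 = 3 * t + 1 := by omega
          rw [this]
          ring
        omega
      have e2 : (d : E) ^ ((q ^ 2 - 1) / 3) - om ^ (0 : ZMod 3).val =
          (((d ^ (q - 1)) ^ (t + 1) - 1 ^ (t + 1) : ℤ) : E) := by
        rw [e1, pow_mul]
        simp
      rw [e2]
      exact PSI_int_dvd (hf.trans (sub_dvd_pow_sub_pow _ _ _))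
  om := by
    intro q hq hq3
    refine ⟨fun h1 => ?_, fun h2 => ?_⟩
    · obtain ⟨t, ht⟩ : ∃ t, q = 3 * t + 1 := ⟨q / 3, by omega⟩
      have e1 : (q - 1) / 3 + (q ^ 2 - 1) / 3 = 3 * (t ^ 2 + t) := by
        have e3 : q ^ 2 = 3 * (3 * t ^ 2 + 2 * t) + 1 := by
          subst ht
          ring
        have e4 : (q - 1) / 3 = t := by omega
        have e5 : (q ^ 2 - 1) / 3 = 3 * t ^ 2 + 2 * t := by omega
        rw [e4, e5]
        ring
      have e2 : om ^ 2 * cj om = om := by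
        rw [cj_om, ← pow_add]
        have : om ^ (2 + 2) = om ^ 3 * om := by ring
        rw [this, om_cube, one_mul]
      rw [e2, om_pow_natCast, ← pow_add, e1, pow_mul, om_cube, one_pow, sub_self]
      exact dvd_zero _
    · rw [om_pow_natCast, sub_self]
      exact dvd_zero _

end Pool.EMC
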