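import Pool.Agent.Work.MP_75c89d_cub.Interface
import Pool.Agent.Work.GEM.RCD
import Pool.Agent.Work.GEM.FIN

/-! # Block REC: the record primes -/

set_option autoImplicit false

open Polynomial

namespace Pool.EMC

open Pool.Agent.Work.GEM.FINAux in
theorem p_REC : Stmt_REC := by
  intro m f u w p hm1 hm2 hdv hp hfin
  have hp' : Pool.Agent.Work.GEM.IsGEM2 f 1 m p := hp
  have hinj : Function.Injective p := inj hp'
  have hf0 : f.eval 0 ≠ 0 := by
    intro h
    obtain ⟨⟨h1, h2, h3, h4⟩, -⟩ := hp 0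
    exact h4 (by rw [h]; exact dvd_zero _)
  -- the linear factor
  have hlin : ∀ N : ℤ, u * N + w ∣ f.eval N := by
    intro N
    obtain ⟨k, hk⟩ := hdv
    rw [hk, eval_mul]
    simp
  have hw0 : w ∣ f.eval 0 := by
    have := hlin 0
    simpa using this
  -- congruences
  have hmod : ∀ q : ℕ, q.Prime → q ≠ 2 → q ≡ 1 [MOD m] := by
    intro q hq hq2
    interval_cases m
    · exact Nat.modEq_one
    · rcases hq.eq_two_or_odd with h | h
      · exact absurd h hq2
      · exact h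
  set S := hfin.toFinset with hS
  set W0 : ℕ := 2 * (f.eval 0).natAbs * ∏ q ∈ S, q with hW0
  have hSpos : ∀ q ∈ S, 0 < q := fun q hq => ((Set.Finite.mem_toFinset _).1 hq).1.pos
  have hW0pos : 0 < W0 := by
    have h2 : 0 < (f.eval 0).natAbs := Int.natAbs_pos.2 hf0
    have h3 : 0 < ∏ q ∈ S, q := Finset.prod_pos hSpos
    positivity
  set W : ℕ := ∏ q ∈ W0.primeFactors.erase 3, q with hW
  have hWpr : ∀ q ∈ W0.primeFactors.erase 3, q.Prime := fun q hq =>
    Nat.prime_of_mem_primeFactors (Finset.mem_of_mem_erase hq)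
  have hWpos : 0 < W := Finset.prod_pos fun q hq => (hWpr q hq).pos
  have hW3 : ¬ 3 ∣ W := by
    intro h
    obtain ⟨q, hq, hq3⟩ := (Nat.prime_three.prime.dvd_finset_prod_iff _).1 h
    have := (Nat.prime_dvd_prime_iff_eq Nat.prime_three (hWpr q hq)).1 hq3
    exact Finset.ne_of_mem_erase hq this.symm
  have hdW : ∀ q : ℕ, q.Prime → q ∣ W0 → q ∣ 3 * W := by
    intro q hq hqW
    by_cases h3 : q = 3
    · rw [h3]
      exact dvd_mul_right 3 W
    · refine Dvd.dvd.mul_left ?_ 3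
      exact Finset.dvd_prod_of_mem (fun q => q)
        (Finset.mem_erase.2 ⟨h3, Nat.mem_primeFactors.2 ⟨hq, hqW, hW0pos.ne'⟩⟩)
  have hW2 : 2 ∣ W0 := by
    rw [hW0]
    exact ((dvd_mul_right 2 _).mul_right _)
  have hWf : ∀ q : ℕ, (q : ℤ) ∣ f.eval 0 → q ∣ W0 := by
    intro q hq
    have : q ∣ (f.eval 0).natAbs := Int.natCast_dvd.1 hq
    rw [hW0]
    exact (this.mul_left _).mul_right _
  have hWS : ∀ q : ℕ, q.Prime → q ≡ 1 [MOD m] → (∀ n, p n ≠ q) → q ∣ W0 := by
    intro q h1 h2 h3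
    have : q ∣ ∏ q ∈ S, q :=
      Finset.dvd_prod_of_mem (fun q => q) ((Set.Finite.mem_toFinset _).2 ⟨h1, h2, h3⟩)
    rw [hW0]
    exact this.mul_left _
  -- primes outside 3 W occur
  have hocc : ∀ q : ℕ, q.Prime → ¬ q ∣ 3 * W →
      q ≡ 1 [MOD m] ∧ ¬ (q : ℤ) ∣ f.eval 0 ∧ ∃ i, p i = q := by
    intro q hq hqW
    have h0 : ¬ q ∣ W0 := fun h => hqW (hdW q hq h)
    have h2 : q ≠ 2 := fun h => h0 (by rw [h]; exact hW2)
    have h1 := hmod q hq h2
    refine ⟨h1, fun h => h0 (hWf q h), ?_⟩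
    by_contra hne
    push Not at hne
    exact h0 (hWS q hq h1 hne)
  refine ⟨W, hWpos, hW3, ?_⟩
  obtain ⟨i3, hi3⟩ : ∃ i3, (∃ i, p i = 3) → p i3 = 3 := by
    by_cases h : ∃ i, p i = 3
    · obtain ⟨i, hi⟩ := h
      exact ⟨i, fun _ => hi⟩
    · exact ⟨0, fun h' => absurd h' h⟩
  intro B
  obtain ⟨n, Z, hn, hpn, hpZ, hZ⟩ := Pool.Agent.Work.GEM.stmt_RCD p hinj (max B (i3 + 1))
  refine ⟨n, (le_max_left _ _).trans hpn, ?_, ?_, ?_⟩
  · obtain ⟨⟨h1, h2, h3, h4⟩, h5⟩ := hp n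
    have hdvdN : ∀ i, i < n → (p i : ℤ) ∣ ∏ i ∈ Finset.range n, (p i : ℤ) := fun i hi =>
      Finset.dvd_prod_of_mem (fun i => (p i : ℤ)) (Finset.mem_range.2 hi)
    set P : ℤ := ∏ i ∈ Finset.range n, (p i : ℤ) with hP
    have hcop : IsCoprime P (f.eval 0) := by
      have := coprime hp' n
      rwa [Nat.cast_prod] at this
    refine ⟨h1, ?_, hcop.of_isCoprime_of_dvd_right hw0, ?_, ?_, ?_, ?_⟩
    · -- `u P + w ≠ 0`
      intro h
      have hfP : f.eval P = 0 := by
        have := hlin P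
        rw [h] at this
        exact zero_dvd_iff.1 this
      obtain ⟨q, hq1, hq2⟩ := Nat.exists_infinite_primes (p n + (f.eval 0).natAbs + 3)
      have hq4 : ¬ (q : ℤ) ∣ f.eval 0 := by
        intro h'
        have := Nat.le_of_dvd (Int.natAbs_pos.2 hf0) (Int.natCast_dvd.1 h')
        omega
      have := h5 ⟨hq2, by rw [hfP]; exact dvd_zero _, hmod q hq2 (by omega), hq4⟩
      omega
    · -- squarefree
      rw [hP]
      refine Finset.squarefree_prod_of_pairwise_isCoprime (fun i _ j _ hij ↦ ?_) fun i _ ↦ ?_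
      · have hne : p i ≠ p j := fun h => hij (hinj h)
        have := (Nat.coprime_primes (hp i).1.1 (hp j).1.1).2 hne
        exact (Nat.isCoprime_iff_coprime.2 this).isRelPrime
      · exact (Nat.prime_iff_prime_int.1 (hp i).1.1).squarefree
    · intro q hq hqN hqp
      by_contra hqW
      obtain ⟨hqm, hqf, i, hi⟩ := hocc q hq hqW
      have hqP : (q : ℤ) ∣ f.eval P := hqN.trans (hlin P)
      have hle : q ≤ p n := h5 ⟨hq, hqP, hqm, hqf⟩
      have hin : i ≤ n := hZ i (by rw [hi]; exact hle.trans hpZ)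
      have hine : i ≠ n := fun h => hqp (by rw [← hi, h])
      have hdv : (q : ℤ) ∣ P := by
        rw [← hi]
        exact hdvdN i (lt_of_le_of_ne hin hine)
      exact hqf (dvd_eval_zero hdv hqP)
    · intro q hq hqw
      exact hdW q hq (hWf q (hqw.trans hw0))
    · intro l hl hlp hlW
      obtain ⟨hlm, hlf, i, hi⟩ := hocc l hl hlW
      have hin : i ≤ n := hZ i (by rw [hi]; exact hlp.le.trans hpZ)
      have hine : i ≠ n := fun h => by
        rw [h] at hi
        omega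
      rw [← hi]
      exact hdvdN i (lt_of_le_of_ne hin hine)
  · intro h
    have h3 := hi3 h
    have : ((p i3 : ℕ) : ℤ) ∣ ∏ i ∈ Finset.range n, (p i : ℤ) :=
      Finset.dvd_prod_of_mem (fun i => (p i : ℤ)) (Finset.mem_range.2
        (by have := (le_max_right B (i3 + 1)).trans hn; omega))
    rw [h3] at this
    exact this
  · intro h hd
    have hd' : ((3 : ℕ) : ℤ) ∣ ∏ i ∈ Finset.range n, (p i : ℤ) := hd
    obtain ⟨i, -, hi⟩ :=
      ((Nat.prime_iff_prime_int.1 Nat.prime_three).dvd_finset_prod_iff _).1 hd'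
    have := (Nat.prime_dvd_prime_iff_eq Nat.prime_three (hp i).1.1).1 (Int.natCast_dvd_natCast.1 hi)
    exact h i this.symm

end Pool.EMC
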