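import Pool.Agent.Work.MP_75c89d_cub.Interface

set_option autoImplicit false

/-! # Block PUN: existence and uniqueness of the symbol `ψ_q(α)` -/

open Polynomial

namespace Pool.EMC

section
variable {F : Type} [Field F] {θ : F}

theorem PUN_ne_one (q : ℕ) [CharP F q] (hq : q.Prime) (h3 : q ≠ 3) (hθ : θ ^ 2 + θ + 1 = 0) :
    θ ≠ 1 := by
  intro h
  rw [h] at hθ
  have h1 : ((3 : ℕ) : F) = 0 := by
    push_cast
    linear_combination hθ
  rw [CharP.cast_eq_zero_iff F q] at h1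
  exact h3 ((Nat.prime_dvd_prime_iff_eq hq Nat.prime_three).1 h1)

theorem PUN_ne_zero (hθ : θ ^ 2 + θ + 1 = 0) : θ ≠ 0 := by
  rintro rfl
  simp at hθ

theorem PUN_ne_sq (hθ : θ ^ 2 + θ + 1 = 0) (h1 : θ ≠ 1) : θ ≠ θ ^ 2 := by
  intro h12
  have h : θ * (θ - 1) = 0 := by linear_combination -h12
  rcases mul_eq_zero.1 h with h | h
  · exact PUN_ne_zero hθ h
  · exact h1 (sub_eq_zero.1 h)

theorem PUN_inj (hθ : θ ^ 2 + θ + 1 = 0) (h1 : θ ≠ 1) {k l : ZMod 3}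
    (h : θ ^ k.val = θ ^ l.val) : k = l := by
  have hc : θ ^ 3 = 1 := root_cube hθ
  have h2 : θ ^ 2 ≠ 1 := by
    intro h2
    apply h1
    have h3 : θ ^ 3 = θ := by rw [pow_succ, h2, one_mul]
    rw [← h3, hc]
  have h12 := PUN_ne_sq hθ h1
  apply ZMod.val_injective 3
  have hk := ZMod.val_lt k
  have hl := ZMod.val_lt l
  generalize k.val = a at h hk ⊢
  generalize l.val = b at h hl ⊢
  interval_cases a <;> interval_cases b <;> simp only [pow_zero, pow_one] at h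
  · rfl
  · exact absurd h.symm h1
  · exact absurd h.symm h2
  · exact absurd h h1
  · rfl
  · exact absurd h h12
  · exact absurd h h2
  · exact absurd h.symm h12
  · rfl

theorem PUN_root (hθ : θ ^ 2 + θ + 1 = 0) {u : F} (hu : u ^ 3 = 1) :
    ∃ k : ZMod 3, u = θ ^ k.val := by
  have h : (u - 1) * ((u - θ) * (u - θ ^ 2)) = 0 := by
    linear_combination hu + (u - 1) * (θ - 1 - u) * hθ
  rcases mul_eq_zero.1 h with h | h
  · exact ⟨0, by simpa using sub_eq_zero.1 h⟩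
  · rcases mul_eq_zero.1 h with h | h
    · refine ⟨1, ?_⟩
      have h1 : (1 : ZMod 3).val = 1 := rfl
      rw [h1, pow_one]
      exact sub_eq_zero.1 h
    · refine ⟨2, ?_⟩
      have h1 : (2 : ZMod 3).val = 2 := rfl
      rw [h1]
      exact sub_eq_zero.1 h

theorem PUN_val (hc : θ ^ 3 = 1) (k l : ZMod 3) : θ ^ (k + l).val = θ ^ k.val * θ ^ l.val := by
  rw [← pow_add, ZMod.val_add]
  conv_rhs => rw [← Nat.div_add_mod (k.val + l.val) 3, pow_add, pow_mul, hc, one_pow, one_mul]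

theorem PUN_cast (q : ℕ) [Fact q.Prime] [CharP F q] (n : ℤ) : (n : F) ^ q = n := by
  have h := map_intCast (frobenius F q) n
  rwa [frobenius_def] at h

theorem PUN_frob (q : ℕ) [Fact q.Prime] [CharP F q] (θ : F) (z : E) :
    ev θ z ^ q = ev (θ ^ q) z := by
  simp only [ev]
  rw [add_pow_char, mul_pow, PUN_cast, PUN_cast]

theorem PUN_dvd (q : ℕ) [CharP F q] (hθ : θ ^ 2 + θ + 1 = 0) (h1 : θ ≠ 1) {z : E}
    (hz : ev θ z = 0) (hz' : ev (θ ^ 2) z = 0) : ((q : ℤ) : E) ∣ z := by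
  simp only [ev] at hz hz'
  have h12 := PUN_ne_sq hθ h1
  have h2 : (z.im : F) * (θ - θ ^ 2) = 0 := by linear_combination hz - hz'
  have h3 : (z.im : F) = 0 := by
    rcases mul_eq_zero.1 h2 with h | h
    · exact h
    · exact absurd (sub_eq_zero.1 h) h12
  have h4 : (z.re : F) = 0 := by
    rw [h3, zero_mul, add_zero] at hz
    exact hz
  rw [intCast_dvd]
  exact ⟨(CharP.intCast_eq_zero_iff F q _).1 h4, (CharP.intCast_eq_zero_iff F q _).1 h3⟩

theorem PUN_ev_dvd (q : ℕ) [CharP F q] (hθ : θ ^ 2 + θ + 1 = 0) {z : E}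
    (hz : ((q : ℤ) : E) ∣ z) : ev θ z = 0 := by
  obtain ⟨w, rfl⟩ := hz
  rw [ev_mul hθ, ev_intCast]
  have h : (((q : ℕ) : ℤ) : F) = 0 := by
    rw [Int.cast_natCast]
    exact CharP.cast_eq_zero F q
  rw [h, zero_mul]

end

theorem p_PUN : Stmt_PUN := by
  intro q hq h3 α hα
  have : Fact q.Prime := ⟨hq⟩
  let F := AlgebraicClosure (ZMod q)
  have : CharP F q := charP_of_injective_algebraMap (algebraMap (ZMod q) F).injective q
  obtain ⟨θ, hθ⟩ : ∃ θ : F, θ ^ 2 + θ + 1 = 0 := by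
    obtain ⟨θ, hθ⟩ := IsAlgClosed.exists_root (X ^ 2 + X + 1 : F[X]) (by
      have h : (X ^ 2 + X + 1 : F[X]).degree = 2 := by compute_degree!
      rw [h]
      decide)
    refine ⟨θ, ?_⟩
    simpa [IsRoot] using hθ
  have hθ1 : θ ≠ 1 := PUN_ne_one q hq h3 hθ
  have hc : θ ^ 3 = 1 := root_cube hθ
  have hθ' := root_sq hθ
  have h4 : (θ ^ 2) ^ 2 = θ := by
    rw [← pow_mul]
    show θ ^ (3 + 1) = θ
    rw [pow_succ, hc, one_mul]
  set x : F := ev θ α with hx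
  set y : F := ev (θ ^ 2) α with hy
  have hxy : x * y = ((nm α : ℤ) : F) := ev_mul_ev hθ α
  have hn : ((nm α : ℤ) : F) ≠ 0 := by
    intro h
    exact hα ((CharP.intCast_eq_zero_iff F q _).1 h)
  have hx0 : x ≠ 0 := fun h => hn (by rw [← hxy, h, zero_mul])
  have hy0 : y ≠ 0 := fun h => hn (by rw [← hxy, h, mul_zero])
  have hq3 : q % 3 = 1 ∨ q % 3 = 2 := by
    have h0 : q % 3 ≠ 0 := by
      intro h
      have : 3 ∣ q := Nat.dvd_of_mod_eq_zero h
      exact h3 ((Nat.prime_dvd_prime_iff_eq Nat.prime_three hq).1 this).symm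
    omega
  rcases hq3 with hq1 | hq2
  · -- `q ≡ 1`
    obtain ⟨m, hm⟩ : ∃ m, q = 3 * m + 1 := ⟨q / 3, by omega⟩
    have hm' : (q - 1) / 3 = m := by omega
    have hθq : θ ^ q = θ := by
      have h5 : θ ^ q = θ ^ (3 * m + 1) := congrArg (fun i => θ ^ i) hm
      rw [h5, pow_succ, pow_mul, hc, one_pow, one_mul]
    have hxq : x ^ (3 * m) = 1 := by
      have h := PUN_frob q θ α
      rw [hθq] at h
      have h5 : x ^ (3 * m) * x = 1 * x := by
        rw [← pow_succ, ← hm, one_mul]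
        exact h
      exact mul_right_cancel₀ hx0 h5
    have hyq : y ^ (3 * m) = 1 := by
      have h := PUN_frob q (θ ^ 2) α
      rw [← pow_mul, mul_comm 2 q, pow_mul, hθq] at h
      have h5 : y ^ (3 * m) * y = 1 * y := by
        rw [← pow_succ, ← hm, one_mul]
        exact h
      exact mul_right_cancel₀ hy0 h5
    have hu : ((x ^ 2 * y) ^ m) ^ 3 = 1 := by
      calc ((x ^ 2 * y) ^ m) ^ 3 = (x ^ (3 * m)) ^ 2 * y ^ (3 * m) := by ring
        _ = 1 := by rw [hxq, hyq]; ring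
    have huv : (x ^ 2 * y) ^ m * (y ^ 2 * x) ^ m = 1 := by
      calc (x ^ 2 * y) ^ m * (y ^ 2 * x) ^ m = x ^ (3 * m) * y ^ (3 * m) := by ring
        _ = 1 := by rw [hxq, hyq]; ring
    have e1 : ev θ (α ^ 2 * cj α) = x ^ 2 * y := by
      rw [ev_mul hθ, ev_pow hθ, ev_cj hθ]
    have e2 : ev (θ ^ 2) (α ^ 2 * cj α) = y ^ 2 * x := by
      rw [ev_mul hθ', ev_pow hθ', ev_cj hθ', h4]
    have e3 : ∀ k : ZMod 3, ev θ ((α ^ 2 * cj α) ^ m * om ^ k.val - 1) =
        (x ^ 2 * y) ^ m * θ ^ k.val - 1 := by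
      intro k
      rw [ev_sub, ev_mul hθ, ev_pow hθ, ev_pow hθ, ev_om, ev_one, e1]
    have e4 : ∀ k : ZMod 3, ev (θ ^ 2) ((α ^ 2 * cj α) ^ m * om ^ k.val - 1) =
        (y ^ 2 * x) ^ m * (θ ^ 2) ^ k.val - 1 := by
      intro k
      rw [ev_sub, ev_mul hθ', ev_pow hθ', ev_pow hθ', ev_om, ev_one, e2]
    obtain ⟨j, hj⟩ := PUN_root hθ hu
    have huk : (x ^ 2 * y) ^ m * θ ^ (-j).val = 1 := by
      rw [hj, ← PUN_val hc, add_neg_cancel]
      simp
    refine ⟨-j, ⟨fun _ => ?_, fun h => by omega⟩, ?_⟩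
    · rw [hm']
      refine PUN_dvd q hθ hθ1 ?_ ?_
      · rw [e3, huk, sub_self]
      · rw [e4]
        have h6 : (y ^ 2 * x) ^ m = θ ^ (-j).val := by
          calc (y ^ 2 * x) ^ m = (y ^ 2 * x) ^ m * ((x ^ 2 * y) ^ m * θ ^ (-j).val) := by
                rw [huk, mul_one]
            _ = ((x ^ 2 * y) ^ m * (y ^ 2 * x) ^ m) * θ ^ (-j).val := by ring
            _ = θ ^ (-j).val := by rw [huv, one_mul]
        rw [h6, ← mul_pow, ← pow_succ', hc, one_pow, sub_self]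
    · rintro l ⟨hl, -⟩
      have h7 := PUN_ev_dvd q hθ (hl hq1)
      rw [hm', e3, sub_eq_zero] at h7
      have hu0 : (x ^ 2 * y) ^ m ≠ 0 := pow_ne_zero _ (mul_ne_zero (pow_ne_zero _ hx0) hy0)
      exact PUN_inj hθ hθ1 (mul_left_cancel₀ hu0 (h7.trans huk.symm))
  · -- `q ≡ 2`
    obtain ⟨m, hm⟩ : ∃ m, q = 3 * m + 2 := ⟨q / 3, by omega⟩
    have hθq : θ ^ q = θ ^ 2 := by
      have h5 : θ ^ q = θ ^ (3 * m + 2) := congrArg (fun i => θ ^ i) hm
      rw [h5, pow_add, pow_mul, hc, one_pow, one_mul]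
    have hxq : x ^ q = y := by
      have h := PUN_frob q θ α
      rw [hθq] at h
      exact h
    set M := (q ^ 2 - 1) / 3 with hM
    have hM3 : M * 3 = (q + 1) * (q - 1) := by
      have h5 : q ^ 2 - 1 = (q + 1) * (q - 1) := by
        rw [← Nat.sq_sub_sq]
      rw [hM, h5]
      apply Nat.div_mul_cancel
      exact Dvd.dvd.mul_right (by omega) _
    have hnq : ((nm α : ℤ) : F) ^ (q - 1) = 1 := by
      have h5 : ((nm α : ℤ) : F) ^ (q - 1) * ((nm α : ℤ) : F) = 1 * ((nm α : ℤ) : F) := by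
        rw [← pow_succ, Nat.sub_add_cancel hq.one_lt.le, one_mul]
        exact PUN_cast q _
      exact mul_right_cancel₀ hn h5
    have hu : (x ^ M) ^ 3 = 1 := by
      rw [← pow_mul, hM3, pow_mul, pow_succ, hxq, mul_comm y x, hxy, hnq]
    have hyM : y ^ M = (x ^ M) ^ q := by
      rw [← hxq, ← pow_mul, ← pow_mul, mul_comm]
    have e3 : ∀ k : ZMod 3, ev θ (α ^ M - om ^ k.val) = x ^ M - θ ^ k.val := by
      intro k
      rw [ev_sub, ev_pow hθ, ev_pow hθ, ev_om]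
    have e4 : ∀ k : ZMod 3, ev (θ ^ 2) (α ^ M - om ^ k.val) = y ^ M - (θ ^ 2) ^ k.val := by
      intro k
      rw [ev_sub, ev_pow hθ', ev_pow hθ', ev_om]
    obtain ⟨j, hj⟩ := PUN_root hθ hu
    refine ⟨j, ⟨fun h => by omega, fun _ => ?_⟩, ?_⟩
    · refine PUN_dvd q hθ hθ1 ?_ ?_
      · rw [e3, hj, sub_self]
      · rw [e4, hyM, hj, ← pow_mul, mul_comm, pow_mul, hθq, sub_self]
    · rintro l ⟨-, hl⟩
      have h7 := PUN_ev_dvd q hθ (hl hq2)
      rw [e3, sub_eq_zero, hj] at h7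
      exact PUN_inj hθ hθ1 h7.symm

end Pool.EMC
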