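import Pool.Agent.Work.MP_75c89d_cub.Interface
import Pool.Agent.Work.MP_75c89d_cub.B_PUN

/-!
# Block SYM: the cubic residue symbol of `α ≡ 1` modulo `3`
-/

set_option autoImplicit false

open Polynomial

namespace Pool.EMC

/-- a root of `x² + x + 1` modulo `l ≡ 1` modulo `3` -/
theorem SYM_root (l : ℕ) [Fact l.Prime] (hl : l % 3 = 1) : ∃ r : ZMod l, r ^ 2 + r + 1 = 0 := by
  haveI : Fact (Nat.Prime 3) := ⟨Nat.prime_three⟩
  have hp : l.Prime := Fact.out
  have hd : 3 ∣ Fintype.card (ZMod l)ˣ := by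
    rw [ZMod.card_units]
    have := hp.one_lt
    omega
  obtain ⟨x, hx⟩ := exists_prime_orderOf_dvd_card 3 hd
  refine ⟨(x : ZMod l), ?_⟩
  have h3 : ((x : ZMod l)) ^ 3 = 1 := by
    rw [← Units.val_pow_eq_pow_val, ← hx, pow_orderOf_eq_one, Units.val_one]
  have h1 : (x : ZMod l) ≠ 1 := by
    intro h
    have : x = 1 := Units.ext h
    rw [this, orderOf_one] at hx
    omega
  have h : ((x : ZMod l) - 1) * ((x : ZMod l) ^ 2 + x + 1) = 0 := by linear_combination h3
  exact (mul_eq_zero.1 h).resolve_left (sub_ne_zero.2 h1)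

/-- inert primes -/
theorem SYM_inert (l : ℕ) (hp : l.Prime) (hl : l % 3 = 2) (α : E) (h : (l : ℤ) ∣ nm α) :
    ((l : ℤ) : E) ∣ α := by
  haveI : Fact l.Prime := ⟨hp⟩
  let F := AlgebraicClosure (ZMod l)
  haveI : CharP F l := charP_of_injective_algebraMap (algebraMap (ZMod l) F).injective l
  obtain ⟨θ, hθ⟩ : ∃ θ : F, θ ^ 2 + θ + 1 = 0 := by
    obtain ⟨θ, hθ⟩ := IsAlgClosed.exists_root (X ^ 2 + X + 1 : F[X]) (by
      have : (X ^ 2 + X + 1 : F[X]).degree = 2 := by compute_degree!
      rw [this]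
      norm_num)
    refine ⟨θ, ?_⟩
    simpa [IsRoot] using hθ
  have h1 : θ ≠ 1 := PUN_ne_one l hp (by rintro rfl; omega) hθ
  have hc := root_cube hθ
  have hl2 : θ ^ l = θ ^ 2 := by
    have e : ∀ n : ℕ, n % 3 = 2 → θ ^ n = θ ^ 2 := by
      intro n hn
      obtain ⟨k, hk⟩ : ∃ k, n = 3 * k + 2 := ⟨n / 3, by omega⟩
      rw [hk, pow_add, pow_mul, hc, one_pow, one_mul]
    exact e l hl
  have hF := PUN_frob l θ α
  rw [hl2] at hF
  have hprod := ev_mul_ev hθ α
  have hz : (((nm α : ℤ)) : F) = 0 := by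
    obtain ⟨k, hk⟩ := h
    rw [hk, Int.cast_mul, Int.cast_natCast, CharP.cast_eq_zero F l, zero_mul]
  rw [hz, ← hF] at hprod
  have hzero : ev θ α = 0 := by
    rcases mul_eq_zero.1 hprod with h | h
    · exact h
    · exact pow_eq_zero_iff hp.ne_zero |>.1 h
  have hzero' : ev (θ ^ 2) α = 0 := by
    rw [← hF, hzero, zero_pow hp.ne_zero]
  exact PUN_dvd l hθ h1 hzero hzero'

/-- the element of norm one -/
theorem SYM_one (α : E) (h3 : ((3 : ℤ) : E) ∣ α - 1) (h : nm α = 1) : α = 1 := by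
  obtain ⟨⟨x, hx⟩, ⟨y, hy⟩⟩ := intCast_dvd.1 h3
  simp only [QuadraticAlgebra.re_sub, QuadraticAlgebra.im_sub, re_one', im_one', sub_zero] at hx hy
  have h4 := four_nm α
  rw [h] at h4
  have hy0 : y = 0 := by
    by_contra hne
    have : 1 ≤ y ^ 2 := by
      have : 0 < y ^ 2 := by positivity
      omega
    rw [hy] at h4
    nlinarith [sq_nonneg (2 * α.re - 3 * y)]
  rw [hy0, mul_zero] at hy
  rw [hy] at h4
  have hre : α.re ^ 2 = 1 := by nlinarith
  have hre' : α.re = 1 := by
    rcases (show α.re = 1 ∨ α.re = -1 by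
      rcases mul_eq_zero.1 (show (α.re - 1) * (α.re + 1) = 0 by linear_combination hre) with h' | h'
      · left; omega
      · right; omega) with h' | h'
    · exact h'
    · omega
  exact ext' (by simpa using hre') (by simpa using hy)

theorem SYM_cop {a b n : ℤ} (h : b ∣ n) (hc : IsCoprime a n) : IsCoprime a b :=
  hc.of_isCoprime_of_dvd_right h

theorem p_SYM (hPSI : Stmt_PSI) (hPRM : Stmt_PRM) (hKER : Stmt_KER) : Stmt_SYM := by
  have key : ∀ N : ℕ, ∀ α : E, ((3 : ℤ) : E) ∣ α - 1 → (nm α).natAbs = N →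
      ∃ χ : ℤ → ZMod 3, Sym α χ := by
    intro N
    induction N using Nat.strong_induction_on with
    | _ N ih =>
    intro α h3 hN
    have hmod : (3 : ℤ) ∣ nm α - 1 := by
      have := nm_congr (n := 3) (z := α) (w := 1) h3
      rwa [nm_one] at this
    have hα0 : nm α ≠ 0 := by
      intro h
      rw [h] at hmod
      omega
    have hαpos : 0 < nm α := lt_of_le_of_ne (nm_nonneg α) hα0.symm
    by_cases hN1 : nm α = 1
    · have hα := SYM_one α h3 hN1
      subst hα
      refine ⟨fun _ => 0, ⟨fun _ _ _ _ => by simp, fun _ _ _ => rfl, ?_, fun _ _ _ => rfl, ?_⟩⟩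
      · intro q hq hq3 hqn
        have := hPSI.int q 1 hq hq3 (by rwa [nm_one] at hqn)
        simpa using this
      · intro a b _ _
        rw [nm_one]
        simp
    have hNne : (nm α).natAbs ≠ 1 := by omega
    obtain ⟨l, hl, hld⟩ := Nat.exists_prime_and_dvd hNne
    have hldz : (l : ℤ) ∣ nm α := Int.natCast_dvd.2 hld
    haveI : Fact l.Prime := ⟨hl⟩
    have hl3 : l ≠ 3 := by
      rintro rfl
      have h5 : (3 : ℤ) ∣ nm α := hldz
      omega
    have hl3' : l % 3 ≠ 0 := by
      intro h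
      have := (Nat.prime_dvd_prime_iff_eq Nat.prime_three hl).1 (Nat.dvd_of_mod_eq_zero h)
      exact hl3 this.symm
    rcases (by omega : l % 3 = 1 ∨ l % 3 = 2) with hl1 | hl2
    · -- split primes
      obtain ⟨r, hr⟩ := SYM_root l hl1
      obtain ⟨r', hr', hev⟩ : ∃ r' : ZMod l, r' ^ 2 + r' + 1 = 0 ∧ ev r' α = 0 := by
        have h1 := ev_mul_ev hr α
        have h2 : (((nm α : ℤ)) : ZMod l) = 0 := (ZMod.intCast_zmod_eq_zero_iff_dvd _ _).2 hldz
        rw [h2] at h1
        rcases mul_eq_zero.1 h1 with h | h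
        · exact ⟨r, hr, h⟩
        · exact ⟨r ^ 2, root_sq hr, h⟩
      obtain ⟨lam, χ₁, hnl, hl31, hevl, hS1⟩ := hPRM l hl1 r' hr'
      obtain ⟨β, hβ⟩ := hKER l hl3 r' hr' lam hnl hevl α hev
      have hnm : nm α = nm lam * nm β := by rw [hβ, nm_mul]
      have hβ3 : ((3 : ℤ) : E) ∣ β - 1 := by
        have h5 : β - 1 = (α - 1) - (lam - 1) * β := by rw [hβ]; ring
        rw [h5]
        exact dvd_sub h3 (hl31.mul_right _)
      have hβlt : (nm β).natAbs < N := by
        rw [← hN, hnm, Int.natAbs_mul, hnl, Int.natAbs_natCast]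
        have h6 : 0 < (nm β).natAbs := by
          rw [Int.natAbs_pos]
          intro h
          rw [hnm, h, mul_zero] at hα0
          exact hα0 rfl
        have h7 := hl.two_le
        nlinarith
      obtain ⟨χ₂, hS2⟩ := ih _ hβlt β hβ3 rfl
      have hd1 : nm lam ∣ nm α := by rw [hnm]; exact dvd_mul_right _ _
      have hd2 : nm β ∣ nm α := by rw [hnm]; exact dvd_mul_left _ _
      refine ⟨fun n => χ₁ n + χ₂ n, ⟨?_, ?_, ?_, ?_, ?_⟩⟩
      · intro m n hm hn
        show χ₁ (m * n) + χ₂ (m * n) = χ₁ m + χ₂ m + (χ₁ n + χ₂ n)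
        rw [hS1.mul m n (SYM_cop hd1 hm) (SYM_cop hd1 hn),
          hS2.mul m n (SYM_cop hd2 hm) (SYM_cop hd2 hn)]
        ring
      · intro m n hmn
        show χ₁ m + χ₂ m = χ₁ n + χ₂ n
        rw [hS1.per m n (hmn.of_dvd hd1), hS2.per m n (hmn.of_dvd hd2)]
      · intro q hq hq3 hqn
        rw [hβ]
        exact hPSI.mul q lam β _ _ hq (hS1.psi q hq hq3 fun h => hqn (h.trans hd1))
          (hS2.psi q hq hq3 fun h => hqn (h.trans hd2))
      · intro n hn hcub
        show χ₁ n + χ₂ n = 0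
        rw [hS1.cub n (SYM_cop hd1 hn) fun l hl hl3 h => hcub l hl hl3 (h.trans hd1),
          hS2.cub n (SYM_cop hd2 hn) fun l hl hl3 h => hcub l hl hl3 (h.trans hd2), add_zero]
      · intro a b hab hc
        show χ₁ a + χ₂ a = χ₁ b + χ₂ b + (((nm α - 1) / 3 : ℤ) : ZMod 3)
        have hlamd : lam ∣ α := ⟨β, hβ⟩
        have hβd : β ∣ α := ⟨lam, by rw [hβ]; ring⟩
        rw [hS1.rot a b (hlamd.trans hab) (SYM_cop hd1 hc),
          hS2.rot a b (hβd.trans hab) (SYM_cop hd2 hc)]
        have hm1 : (3 : ℤ) ∣ nm lam - 1 := by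
          have := nm_congr (n := 3) (z := lam) (w := 1) hl31
          rwa [nm_one] at this
        have hm2 : (3 : ℤ) ∣ nm β - 1 := by
          have := nm_congr (n := 3) (z := β) (w := 1) hβ3
          rwa [nm_one] at this
        obtain ⟨x, hx⟩ := hm1
        obtain ⟨y, hy⟩ := hm2
        have ex : (nm lam - 1) / 3 = x := by omega
        have ey : (nm β - 1) / 3 = y := by omega
        have eα : (nm α - 1) / 3 = 3 * (x * y) + x + y := by
          have : nm α - 1 = 3 * (3 * (x * y) + x + y) := by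
            rw [hnm]
            have h8 : nm lam = 3 * x + 1 := by omega
            have h9 : nm β = 3 * y + 1 := by omega
            rw [h8, h9]
            ring
          rw [this]
          exact Int.mul_ediv_cancel_left _ (by norm_num)
        rw [ex, ey, eα]
        push_cast
        have h30 : (3 : ZMod 3) = 0 := by decide
        rw [h30]
        ring
    · -- inert primes
      have hla := SYM_inert l hl hl2 α hldz
      obtain ⟨γ, hγ⟩ := hla
      obtain ⟨β, hβ, hβγ⟩ : ∃ β : E, α = ((-(l : ℤ) : ℤ) : E) * β ∧ β = -γ := by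
        refine ⟨-γ, ?_, rfl⟩
        rw [hγ]
        push_cast
        ring
      have hnm : nm α = (l : ℤ) ^ 2 * nm β := by
        rw [hβ, nm_mul, nm_intCast, neg_sq]
      have hβ3 : ((3 : ℤ) : E) ∣ β - 1 := by
        have h5 : β - 1 = (α - 1) + (((l : ℤ) + 1 : ℤ) : E) * β := by
          rw [hβ]
          push_cast
          ring
        rw [h5]
        refine dvd_add h3 (Dvd.dvd.mul_right ?_ _)
        have h6 : (3 : ℤ) ∣ (l : ℤ) + 1 := by omega
        obtain ⟨c, hc⟩ := h6
        rw [hc]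
        exact ⟨(c : E), by push_cast; ring⟩
      have hβlt : (nm β).natAbs < N := by
        rw [← hN, hnm, Int.natAbs_mul, Int.natAbs_pow, Int.natAbs_natCast]
        have h6 : 0 < (nm β).natAbs := by
          rw [Int.natAbs_pos]
          intro h
          rw [hnm, h, mul_zero] at hα0
          exact hα0 rfl
        have h7 := hl.two_le
        have h8 : 1 < l ^ 2 := by nlinarith
        nlinarith
      obtain ⟨χ, hS⟩ := ih _ hβlt β hβ3 rfl
      have hd2 : nm β ∣ nm α := by rw [hnm]; exact dvd_mul_left _ _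
      refine ⟨χ, ⟨?_, ?_, ?_, ?_, ?_⟩⟩
      · intro m n hm hn
        exact hS.mul m n (SYM_cop hd2 hm) (SYM_cop hd2 hn)
      · intro m n hmn
        exact hS.per m n (hmn.of_dvd hd2)
      · intro q hq hq3 hqn
        have hql : ¬ (q : ℤ) ∣ -(l : ℤ) := by
          intro h
          rw [dvd_neg] at h
          have := (Nat.prime_dvd_prime_iff_eq hq hl).1 (Int.natCast_dvd_natCast.1 h)
          exact hqn (by rw [this]; exact hldz)
        rw [hβ]
        have := hPSI.mul q _ β _ _ hq (hPSI.int q (-(l : ℤ)) hq hq3 hql)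
          (hS.psi q hq hq3 fun h => hqn (h.trans hd2))
        rwa [zero_add] at this
      · intro n hn hcub
        exact hS.cub n (SYM_cop hd2 hn) fun l hl hl3 h => hcub l hl hl3 (h.trans hd2)
      · intro a b hab hc
        exfalso
        have h1 : ((l : ℤ) : E) ∣ (⟨a, b⟩ : E) := (Dvd.intro γ hγ.symm).trans hab
        have h2 : (l : ℤ) ∣ a := (intCast_dvd.1 h1).1
        have h4 : IsCoprime (l : ℤ) (l : ℤ) :=
          (hc.of_isCoprime_of_dvd_left (h2.mul_right b)).of_isCoprime_of_dvd_right hldz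
        have h5 : IsUnit (l : ℤ) := isCoprime_self.1 h4
        exact (Nat.prime_iff_prime_int.1 hl).not_isUnit h5
  intro α h3
  exact key _ α h3 rfl

end Pool.EMC
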