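import Pool.Agent.Work.MP_75c89d_cub.B_PUN
import Pool.Agent.Work.MP_75c89d_cub.B_PSI
import Pool.Agent.Work.MP_75c89d_cub.B_CHI
import Pool.Agent.Work.MP_75c89d_cub.B_JSM
import Pool.Agent.Work.MP_75c89d_cub.B_GSA
import Pool.Agent.Work.MP_75c89d_cub.B_GSB
import Pool.Agent.Work.MP_75c89d_cub.B_KER
import Pool.Agent.Work.MP_75c89d_cub.B_PRM
import Pool.Agent.Work.MP_75c89d_cub.B_SYM
import Pool.Agent.Work.MP_75c89d_cub.B_EVL
import Pool.Agent.Work.MP_75c89d_cub.B_THR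
import Pool.Agent.Work.MP_75c89d_cub.B_GAM
import Pool.Agent.Work.MP_75c89d_cub.B_ALF
import Pool.Agent.Work.MP_75c89d_cub.B_NCB
import Pool.Agent.Work.MP_75c89d_cub.B_BLA
import Pool.Agent.Work.MP_75c89d_cub.B_COR
import Pool.Agent.Work.MP_75c89d_cub.B_BLP
import Pool.Agent.Work.MP_75c89d_cub.B_BLI
import Pool.Agent.Work.MP_75c89d_cub.B_CN1
import Pool.Agent.Work.MP_75c89d_cub.B_PIC
import Pool.Agent.Work.MP_75c89d_cub.B_CNT
import Pool.Agent.Work.MP_75c89d_cub.B_EXP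
import Pool.Agent.Work.MP_75c89d_cub.B_REC
import Pool.Agent.Work.MP_75c89d_cub.B_FIN

/-! # MP_75c89d_nt, THEOREM CUB: assembly -/

set_option autoImplicit false

namespace Pool.EMC

theorem all_GSB : Stmt_GSB := p_GSB p_GSA p_JSM
theorem all_PRM : Stmt_PRM := p_PRM p_CHI p_JSM all_GSB
theorem all_SYM : Stmt_SYM := p_SYM p_PSI all_PRM p_KER
theorem all_THR : Stmt_THR := p_THR p_PUN p_PSI all_SYM p_EVL
theorem all_GAM : Stmt_GAM := p_GAM p_PUN
theorem all_ALF : Stmt_ALF := p_ALF all_GAM p_PSI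
theorem all_NCB : Stmt_NCB := p_NCB p_PUN p_PSI all_SYM p_EVL all_THR all_ALF
theorem all_BLP : Stmt_BLP := p_BLP p_PUN p_BLA p_COR
theorem all_BLI : Stmt_BLI := p_BLI p_PUN p_BLA p_COR
theorem all_CNT : Stmt_CNT := p_CNT p_CN1 p_PIC
theorem all_EXP : Stmt_EXP := p_EXP p_PUN p_PSI all_SYM p_EVL all_THR all_BLP all_BLI all_CNT
theorem all_FIN : Stmt_FIN := p_FIN all_NCB all_EXP p_REC

end Pool.EMC
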