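import Pool.Agent.Work.MP_75c89d_cub.Interface

/-!
# MP_75c89d_nt, THEOREM CUB: block EXP (helper71)
-/

set_option autoImplicit false

open Polynomial

namespace Pool.EMC

/-- if `s ∣ α - 1` then `s ∤ N α` -/
theorem EXP_not_dvd {s : ℕ} (hs : s.Prime) {α : E} (h : ((s : ℤ) : E) ∣ α - 1) :
    ¬ (s : ℤ) ∣ nm α := by
  intro h1
  have h2 := nm_congr h
  rw [nm_one] at h2
  have h3 : (s : ℤ) ∣ 1 := by
    have h4 := dvd_sub h1 h2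
    simpa using h4
  have h5 : s ∣ 1 := by exact_mod_cast h3
  exact hs.one_lt.ne' (Nat.dvd_one.1 h5)

/-- the symbol of a prime `s ∣ α - 1` is zero -/
theorem EXP_sym_one (hPUN : Stmt_PUN) (hPSI : Stmt_PSI) {α : E} {χ : ℤ → ZMod 3} (hχ : Sym α χ)
    {s : ℕ} (hs : s.Prime) (h3 : s ≠ 3) (h : ((s : ℤ) : E) ∣ α - 1) : χ s = 0 := by
  have hnd := EXP_not_dvd hs h
  have h1 := hχ.psi s hs h3 hnd
  have hs1 : ¬ (s : ℤ) ∣ (1 : ℤ) := by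
    intro h5
    have h5 : s ∣ 1 := by exact_mod_cast h5
    exact hs.one_lt.ne' (Nat.dvd_one.1 h5)
  have h2 : Psi s ((1 : ℤ) : E) 0 := hPSI.int s 1 hs h3 hs1
  have h4 : ((s : ℤ) : E) ∣ ((1 : ℤ) : E) - α := by
    have h5 : ((1 : ℤ) : E) - α = -(α - 1) := by
      rw [Int.cast_one]
      ring
    rw [h5]
    exact (dvd_neg).2 h
  have h6 : Psi s α 0 := hPSI.congr s _ _ 0 hs h4 h2
  obtain ⟨k, _, hk⟩ := hPUN s hs h3 α hnd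
  rw [hk _ h1, hk _ h6]

/-- the sum of the symbols is zero -/
theorem EXP_main (hEVL : Stmt_EVL) {W p : ℕ} {n : ℤ} (h : Hyp W p n) {α : E}
    {χ : ℤ → ZMod 3} (hχ : Sym α χ) (h3 : ¬ (3 : ℤ) ∣ nm α)
    (hW : ∀ s : ℕ, s.Prime → s ∣ W → ¬ (s : ℤ) ∣ nm α)
    (hlt : ∀ l : ℕ, l.Prime → (l : ℤ) ∣ nm α → l < p) :
    ∑ q ∈ n.natAbs.primeFactors, (n.natAbs.factorization q : ZMod 3) * χ (q : ℤ) = 0 := by
  have hco : IsCoprime n (nm α) := by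
    rw [Int.isCoprime_iff_gcd_eq_one]
    by_contra hne
    obtain ⟨q, hq, hqd⟩ := Nat.exists_prime_and_dvd hne
    have hd : (q : ℤ) ∣ (Int.gcd n (nm α) : ℤ) := by exact_mod_cast hqd
    have h1 : (q : ℤ) ∣ n := hd.trans (Int.gcd_dvd_left _ _)
    have h2 : (q : ℤ) ∣ nm α := hd.trans (Int.gcd_dvd_right _ _)
    have hqp : q ≠ p := (hlt q hq h2).ne
    have h4 := h.supp q hq h1 hqp
    rcases (Nat.Prime.dvd_mul hq).1 h4 with h5 | h5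
    · have h6 : q = 3 := (Nat.prime_dvd_prime_iff_eq hq Nat.prime_three).1 h5
      subst h6
      exact h3 (by exact_mod_cast h2)
    · exact hW q hq h5 h2
  rw [← hEVL α χ hχ n h.ne hco]
  refine hχ.cub n hco fun l hl hl3 hld => ?_
  refine h.cub l hl hl3 (hlt l hl hld) fun hlW => ?_
  exact hW l hl hlW hld

/-- `⟨a, b⟩ - 1` is divisible by `s` -/
theorem EXP_dvd_sub_one {s a b : ℤ} (ha : s ∣ a - 1) (hb : s ∣ b) :
    (s : E) ∣ (⟨a, b⟩ : E) - 1 := by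
  rw [intCast_dvd]
  constructor
  · simpa using ha
  · simpa using hb

/-- the point of the box -/
theorem EXP_pt (W : ℕ) (x : (ℕ × ℕ) × (ℕ × ℕ)) :
    pt ⟨1, 9 * (W : ℤ)⟩ (27 * (W : ℤ)) x =
      ⟨1 + 27 * (W : ℤ) * ((x.1.1 + x.2.1 : ℕ) : ℤ),
        3 ^ 2 * ((W : ℤ) * (1 + 3 * ((x.1.2 + x.2.2 : ℕ) : ℤ)))⟩ := by
  unfold pt
  refine ext' rfl ?_
  simp only []
  ring

/-- if no prime `≥ p` divides the norm, then `ψ_p` is trivial -/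
theorem EXP_psi (hPUN : Stmt_PUN) (hPSI : Stmt_PSI) (hSYM : Stmt_SYM) (hEVL : Stmt_EVL)
    (hTHR : Stmt_THR) {W p : ℕ} (hW3 : ¬ 3 ∣ W) (hp : p.Prime) (hp3 : p ≠ 3) {n : ℤ}
    (h : Hyp W p n) (hn : ¬ 3 ∣ n.natAbs.factorization p) (x : (ℕ × ℕ) × (ℕ × ℕ))
    (hx : ¬ ∃ l : ℕ, l.Prime ∧ p ≤ l ∧ (l : ℤ) ∣ nm (pt ⟨1, 9 * (W : ℤ)⟩ (27 * (W : ℤ)) x)) :
    Psi p (pt ⟨1, 9 * (W : ℤ)⟩ (27 * (W : ℤ)) x) 0 := by
  haveI : Fact (Nat.Prime 3) := ⟨Nat.prime_three⟩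
  have hlt : ∀ l : ℕ, l.Prime → (l : ℤ) ∣ nm (pt ⟨1, 9 * (W : ℤ)⟩ (27 * (W : ℤ)) x) → l < p := by
    intro l hl hd
    by_contra hge
    exact hx ⟨l, hl, not_lt.1 hge, hd⟩
  rw [EXP_pt] at hlt ⊢
  set i : ℤ := ((x.1.1 + x.2.1 : ℕ) : ℤ)
  set j : ℤ := ((x.1.2 + x.2.2 : ℕ) : ℤ)
  have h3α : ((3 : ℤ) : E) ∣ (⟨1 + 27 * (W : ℤ) * i, 3 ^ 2 * ((W : ℤ) * (1 + 3 * j))⟩ : E) - 1 :=
    EXP_dvd_sub_one ⟨9 * (W : ℤ) * i, by ring⟩ ⟨3 * ((W : ℤ) * (1 + 3 * j)), by ring⟩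
  have hsW : ∀ s : ℕ, s ∣ W → ((s : ℤ) : E) ∣
      (⟨1 + 27 * (W : ℤ) * i, 3 ^ 2 * ((W : ℤ) * (1 + 3 * j))⟩ : E) - 1 := by
    rintro s ⟨v, rfl⟩
    refine EXP_dvd_sub_one ⟨27 * v * i, ?_⟩ ⟨3 ^ 2 * (v * (1 + 3 * j)), ?_⟩
    · push_cast
      ring
    · push_cast
      ring
  obtain ⟨χ, hχ⟩ := hSYM _ h3α
  have hsum := EXP_main hEVL h hχ
    (by
      have := EXP_not_dvd (s := 3) Nat.prime_three
        (α := (⟨1 + 27 * (W : ℤ) * i, 3 ^ 2 * ((W : ℤ) * (1 + 3 * j))⟩ : E))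
        (by exact_mod_cast h3α)
      exact_mod_cast this)
    (fun s hs' hsW' => EXP_not_dvd hs' (hsW s hsW'))
    hlt
  have h3W : ∀ s : ℕ, s ∣ W → s ≠ 3 := by
    rintro s hsW rfl
    exact hW3 hsW
  have hχ3 : χ 3 = 0 := by
    refine (hTHR (1 + 27 * (W : ℤ) * i) ((W : ℤ) * (1 + 3 * j)) 2 χ ?_ ?_ (Or.inr rfl) hχ).1 rfl
    · refine (Int.modEq_iff_dvd.2 ⟨9 * (W : ℤ) * i, by ring⟩).symm
    · intro hd
      rcases Int.Prime.dvd_mul' Nat.prime_three hd with h1 | h1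
      · exact hW3 (by exact_mod_cast h1)
      · have h2 : (3 : ℤ) ∣ 1 := by
          have h3 := dvd_sub h1 (Dvd.intro j (rfl : (3 : ℤ) * j = 3 * j))
          simpa using h3
        omega
  have hsingle : ∑ q ∈ n.natAbs.primeFactors, (n.natAbs.factorization q : ZMod 3) * χ (q : ℤ) =
      (n.natAbs.factorization p : ZMod 3) * χ (p : ℤ) := by
    refine Finset.sum_eq_single p ?_ fun h3 => ?_
    · intro s hs hsp
      have hsP := Nat.prime_of_mem_primeFactors hs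
      have hsn : (s : ℤ) ∣ n := Int.natCast_dvd.2 (Nat.dvd_of_mem_primeFactors hs)
      rcases (Nat.Prime.dvd_mul hsP).1 (h.supp s hsP hsn hsp) with h5 | h5
      · have h6 : s = 3 := (Nat.prime_dvd_prime_iff_eq hsP Nat.prime_three).1 h5
        rw [h6]
        have h10 : ((3 : ℕ) : ℤ) = 3 := rfl
        rw [h10, hχ3, mul_zero]
      · rw [EXP_sym_one hPUN hPSI hχ hsP (h3W s h5) (hsW s h5), mul_zero]
    · have h4 : n.natAbs.factorization p = 0 := by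
        rw [← Nat.support_factorization] at h3
        exact Finsupp.notMem_support_iff.1 h3
      rw [h4]
      simp
  rw [hsingle] at hsum
  have hχp : χ (p : ℤ) = 0 := by
    rcases mul_eq_zero.1 hsum with h3 | h3
    · exact absurd ((ZMod.natCast_eq_zero_iff _ _).1 h3) hn
    · exact h3
  have hnd : ¬ (p : ℤ) ∣ nm (⟨1 + 27 * (W : ℤ) * i, 3 ^ 2 * ((W : ℤ) * (1 + 3 * j))⟩ : E) :=
    fun hd => lt_irrefl _ (hlt p hp hd)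
  have h7 := hχ.psi p hp hp3 hnd
  rw [hχp] at h7
  exact h7

/-- the final numerical contradiction -/
theorem EXP_num {p Y B : ℕ} (hp : 4 ≤ p) (hY : 4 * p ≤ Y ^ 2) (hB : 8 * B ≤ Y ^ 4)
    (h : (Y : ℝ) ^ 4 ≤ 2 * (B : ℝ) + (Y : ℝ) ^ 2 * Real.sqrt ((p : ℝ) ^ 2 + (Y : ℝ) ^ 2)) :
    False := by
  have hp' : (4 : ℝ) ≤ p := by exact_mod_cast hp
  have hY' : 4 * (p : ℝ) ≤ (Y : ℝ) ^ 2 := by exact_mod_cast hY
  have hB' : 8 * (B : ℝ) ≤ (Y : ℝ) ^ 4 := by exact_mod_cast hB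
  set y : ℝ := (Y : ℝ) ^ 2 with hy
  have hy4 : (Y : ℝ) ^ 4 = y ^ 2 := by rw [hy]; ring
  rw [hy4] at h hB'
  have hypos : 16 ≤ y := by linarith
  have h1 : 3 / 4 * y ≤ Real.sqrt ((p : ℝ) ^ 2 + y) := by
    have h2 : 3 / 4 * y ^ 2 ≤ y * Real.sqrt ((p : ℝ) ^ 2 + y) := by linarith
    have h3 : y * (3 / 4 * y) ≤ y * Real.sqrt ((p : ℝ) ^ 2 + y) := by linarith
    exact le_of_mul_le_mul_left h3 (by linarith)
  have h2 : (3 / 4 * y) ^ 2 ≤ (p : ℝ) ^ 2 + y := by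
    have h3 : (0 : ℝ) ≤ (p : ℝ) ^ 2 + y := by positivity
    calc (3 / 4 * y) ^ 2 ≤ (Real.sqrt ((p : ℝ) ^ 2 + y)) ^ 2 :=
          pow_le_pow_left₀ (by linarith) h1 2
      _ = (p : ℝ) ^ 2 + y := Real.sq_sqrt h3
  nlinarith

theorem p_EXP (hPUN : Stmt_PUN) (hPSI : Stmt_PSI) (hSYM : Stmt_SYM) (hEVL : Stmt_EVL)
    (hTHR : Stmt_THR) (hBLP : Stmt_BLP) (hBLI : Stmt_BLI) (hCNT : Stmt_CNT) : Stmt_EXP := by
  classical
  intro W hW0 hW3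
  obtain ⟨P₁, hP₁⟩ := hCNT W hW0
  refine ⟨P₁ + 27 * W + 4, ?_⟩
  intro p hp hP n h
  by_contra hn
  have hp3 : p ≠ 3 := by omega
  have hp4 : 4 ≤ p := by omega
  -- the side of the box
  obtain ⟨Y, hY1, hY2⟩ : ∃ Y : ℕ, 4 * p ≤ Y ^ 2 ∧ (Y - 1) ^ 2 < 4 * p := by
    refine ⟨Nat.sqrt (4 * p - 1) + 1, ?_, ?_⟩
    · have h1 := Nat.lt_succ_sqrt' (4 * p - 1)
      have h2 : Nat.succ (Nat.sqrt (4 * p - 1)) = Nat.sqrt (4 * p - 1) + 1 := rfl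
      rw [h2] at h1
      omega
    · have h1 := Nat.sqrt_le' (4 * p - 1)
      rw [Nat.add_sub_cancel]
      omega
  have hYp : Y ≤ p := by
    by_contra hgt
    have h1 : p ≤ Y - 1 := by omega
    have h2 : p ^ 2 ≤ (Y - 1) ^ 2 := Nat.pow_le_pow_left h1 2
    have h3 : p ^ 2 < 4 * p := lt_of_le_of_lt h2 hY2
    have h4 : 4 * p ≤ p ^ 2 := by
      rw [sq]
      exact Nat.mul_le_mul_right _ hp4
    omega
  have hM : ¬ (p : ℤ) ∣ 27 * (W : ℤ) := by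
    intro hd
    have h1 : p ∣ 27 * W := by exact_mod_cast hd
    have h2 := Nat.le_of_dvd (by omega) h1
    omega
  have hcnt := hP₁ p Y (by omega) hY1 hY2
  have hsub : ((QB Y).filter fun x => ¬ Psi p (pt ⟨1, 9 * (W : ℤ)⟩ (27 * (W : ℤ)) x) 0) ⊆
      ((QB Y).filter fun x => ∃ l : ℕ, l.Prime ∧ p ≤ l ∧
        (l : ℤ) ∣ nm (pt ⟨1, 9 * (W : ℤ)⟩ (27 * (W : ℤ)) x)) := by
    intro x hx
    rw [Finset.mem_filter] at hx ⊢
    refine ⟨hx.1, ?_⟩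
    by_contra hne
    exact hx.2 (EXP_psi hPUN hPSI hSYM hEVL hTHR hW3 hp hp3 h hn x hne)
  have hcard := Finset.card_le_card hsub
  have hB : 8 * ((QB Y).filter fun x => ¬ Psi p (pt ⟨1, 9 * (W : ℤ)⟩ (27 * (W : ℤ)) x) 0).card ≤
      Y ^ 4 := by
    refine le_trans (Nat.mul_le_mul_left 8 hcard) ?_
    convert hcnt
  have hmod : p % 3 = 1 ∨ p % 3 = 2 := by
    have h1 : p % 3 ≠ 0 := by
      intro h0
      have h2 : 3 ∣ p := Nat.dvd_of_mod_eq_zero h0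
      exact hp3 ((Nat.prime_dvd_prime_iff_eq Nat.prime_three hp).1 h2).symm
    omega
  have hbil : (Y : ℝ) ^ 4 ≤
      2 * (((QB Y).filter fun x => ¬ Psi p (pt ⟨1, 9 * (W : ℤ)⟩ (27 * (W : ℤ)) x) 0).card : ℝ) +
      (Y : ℝ) ^ 2 * Real.sqrt ((p : ℝ) ^ 2 + (Y : ℝ) ^ 2) := by
    rcases hmod with h1 | h1
    · have := hBLP p hp h1 Y hYp (27 * (W : ℤ)) hM ⟨1, 9 * (W : ℤ)⟩
      convert this
    · have := hBLI p hp h1 Y hYp (27 * (W : ℤ)) hM ⟨1, 9 * (W : ℤ)⟩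
      convert this
  exact EXP_num hp4 hY1 hB hbil

end Pool.EMC
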