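import Pool.Agent.Work.MP_75c89d_cub.Interface

/-!
# MP_75c89d_nt, THEOREM CUB, block THR: the symbol of `3`
-/

set_option autoImplicit false

namespace Pool.EMC

/-- an additive function is the sum over the prime factors -/
theorem THR_fac (g : ℕ → ZMod 3) (h1 : g 1 = 0)
    (hm : ∀ x y : ℕ, ¬ 3 ∣ x → ¬ 3 ∣ y → g (x * y) = g x + g y) (n : ℕ) (hn : ¬ 3 ∣ n) :
    ∑ q ∈ n.primeFactors, (n.factorization q : ZMod 3) * g q = g n := by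
  have key : ∀ n : ℕ, ¬ 3 ∣ n →
      n.factorization.sum (fun q v => (v : ZMod 3) * g q) = g n := by
    intro n
    induction n using induction_on_primes with
    | zero => intro h; exact absurd (dvd_zero 3) h
    | one =>
      intro _
      rw [Nat.factorization_one, Finsupp.sum_zero_index, h1]
    | prime_mul p a hp ih =>
      intro h
      have hp3 : ¬ 3 ∣ p := fun h' => h (h'.mul_right a)
      have ha3 : ¬ 3 ∣ a := fun h' => h (h'.mul_left p)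
      have ha0 : a ≠ 0 := by
        rintro rfl
        exact ha3 (dvd_zero 3)
      rw [Nat.factorization_mul hp.ne_zero ha0, Finsupp.sum_add_index', ih ha3,
        hp.factorization, Finsupp.sum_single_index, hm p a hp3 ha3]
      · rw [Nat.cast_one, one_mul]
      · rw [Nat.cast_zero, zero_mul]
      · intro q
        rw [Nat.cast_zero, zero_mul]
      · intro q v w
        rw [Nat.cast_add, add_mul]
  exact key n hn

/-- the function `(x² - 1)/3` modulo `3` -/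
theorem THR_sq (n : ℕ) (hn : ¬ 3 ∣ n) :
    ∑ q ∈ n.primeFactors, (n.factorization q : ZMod 3) * (((q ^ 2 - 1) / 3 : ℕ) : ZMod 3) =
      (((n ^ 2 - 1) / 3 : ℕ) : ZMod 3) := by
  have hx : ∀ x : ℕ, ¬ 3 ∣ x → ∃ u : ℕ, x ^ 2 = 3 * u + 1 := by
    intro x hx
    have h1 : x % 3 = 1 ∨ x % 3 = 2 := by omega
    refine ⟨x ^ 2 / 3, ?_⟩
    have h2 : x ^ 2 % 3 = 1 := by
      rcases h1 with h | h <;> rw [Nat.pow_mod, h]
    omega
  refine THR_fac (fun x => (((x ^ 2 - 1) / 3 : ℕ) : ZMod 3)) ?_ ?_ n hn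
  · simp
  · intro x y h1 h2
    obtain ⟨u, hu⟩ := hx x h1
    obtain ⟨v, hv⟩ := hx y h2
    have e1 : (x ^ 2 - 1) / 3 = u := by omega
    have e2 : (y ^ 2 - 1) / 3 = v := by omega
    have e3 : (x * y) ^ 2 = 3 * (3 * (u * v) + u + v) + 1 := by
      rw [mul_pow, hu, hv]
      ring
    have e4 : ((x * y) ^ 2 - 1) / 3 = 3 * (u * v) + u + v := by omega
    show ((((x * y) ^ 2 - 1) / 3 : ℕ) : ZMod 3) =
      (((x ^ 2 - 1) / 3 : ℕ) : ZMod 3) + (((y ^ 2 - 1) / 3 : ℕ) : ZMod 3)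
    rw [e1, e2, e4]
    push_cast
    have h3 : (3 : ZMod 3) = 0 := by decide
    rw [h3]
    ring

theorem THR_uniq (hPUN : Stmt_PUN) {q : ℕ} (hq : q.Prime) (h3 : q ≠ 3) {α : E}
    (hN : ¬ (q : ℤ) ∣ nm α) {k l : ZMod 3} (h1 : Psi q α k) (h2 : Psi q α l) : k = l :=
  (hPUN q hq h3 α hN).unique h1 h2

/-- a prime number does not divide two coprime integers -/
theorem THR_ndvd {q : ℕ} (hq : q.Prime) {x y : ℤ} (h : IsCoprime x y) (hx : (q : ℤ) ∣ x) :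
    ¬ (q : ℤ) ∣ y := fun hy =>
  (Nat.prime_iff_prime_int.1 hq).not_isUnit (h.isUnit_of_dvd' hx hy)

theorem THR_three : ∀ x : ZMod 3, x + x = 0 → x = 0 := by decide

/-- the case of coprime coordinates -/
theorem THR_cop (hPUN : Stmt_PUN) (hPSI : Stmt_PSI) (hEVL : Stmt_EVL) (a b₁ : ℤ) (k : ℕ)
    (χ : ℤ → ZMod 3) (ha : a ≡ 1 [ZMOD 3]) (hb : ¬ (3 : ℤ) ∣ b₁) (hk : k = 1 ∨ k = 2)
    (hc : IsCoprime a (3 ^ k * b₁)) (hS : Sym ⟨a, 3 ^ k * b₁⟩ χ) :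
    (k = 2 → χ 3 = 0) ∧ (k = 1 → χ 3 ≠ 0) := by
  have hN : nm (⟨a, 3 ^ k * b₁⟩ : E) =
      a ^ 2 - a * (3 ^ k * b₁) + (3 ^ k * b₁) ^ 2 := rfl
  obtain ⟨a₀, ha₀⟩ : ∃ a₀ : ℤ, a = 3 * a₀ + 1 := by
    obtain ⟨c, hc⟩ := ha.symm.dvd
    exact ⟨c, by linarith⟩
  have ha3 : ¬ (3 : ℤ) ∣ a := by omega
  have ha0 : a ≠ 0 := by omega
  have hb0 : b₁ ≠ 0 := by
    rintro rfl
    exact hb (dvd_zero 3)
  have hcaN : IsCoprime a (nm (⟨a, 3 ^ k * b₁⟩ : E)) := by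
    have h1 : nm (⟨a, 3 ^ k * b₁⟩ : E) = (3 ^ k * b₁) ^ 2 + a * (a - 3 ^ k * b₁) := by
      rw [hN]
      ring
    rw [h1]
    exact (hc.pow_right (n := 2)).add_mul_left_right _
  have hcbN : IsCoprime (3 ^ k * b₁) (nm (⟨a, 3 ^ k * b₁⟩ : E)) := by
    have h1 : nm (⟨a, 3 ^ k * b₁⟩ : E) = a ^ 2 + (3 ^ k * b₁) * (3 ^ k * b₁ - a) := by
      rw [hN]
      ring
    rw [h1]
    exact (hc.symm.pow_right (n := 2)).add_mul_left_right _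
  have hk0 : 0 < k := by omega
  have hc3k : IsCoprime ((3 : ℤ) ^ k) (nm (⟨a, 3 ^ k * b₁⟩ : E)) := hcbN.of_mul_left_left
  have hc3 : IsCoprime (3 : ℤ) (nm (⟨a, 3 ^ k * b₁⟩ : E)) := (IsCoprime.pow_left_iff hk0).1 hc3k
  have hcb : IsCoprime b₁ (nm (⟨a, 3 ^ k * b₁⟩ : E)) := hcbN.of_mul_left_right
  -- `χ b₁ = 0`
  have hχb : χ b₁ = 0 := by
    rw [hEVL _ χ hS b₁ hb0 hcb]
    refine Finset.sum_eq_zero fun q hq => ?_
    have hqp : q.Prime := Nat.prime_of_mem_primeFactors hq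
    have hqd : (q : ℤ) ∣ b₁ := Int.natCast_dvd.2 (Nat.dvd_of_mem_primeFactors hq)
    have hq3 : q ≠ 3 := by
      rintro rfl
      exact hb (by exact_mod_cast hqd)
    have hqN : ¬ (q : ℤ) ∣ nm (⟨a, 3 ^ k * b₁⟩ : E) := THR_ndvd hqp hcb hqd
    have hqb : (q : ℤ) ∣ 3 ^ k * b₁ := hqd.mul_left _
    have hqa : ¬ (q : ℤ) ∣ a := THR_ndvd hqp hc.symm hqb
    have h1 : Psi q ((a : ℤ) : E) 0 := hPSI.int q a hqp hq3 hqa
    have h2 : Psi q (⟨a, 3 ^ k * b₁⟩ : E) 0 := by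
      refine hPSI.congr q _ _ 0 hqp ?_ h1
      refine intCast_dvd.2 ⟨?_, ?_⟩
      · simp
      · rw [QuadraticAlgebra.im_sub, QuadraticAlgebra.im_intCast, zero_sub]
        exact (dvd_neg).2 hqb
    rw [THR_uniq hPUN hqp hq3 hqN (hS.psi q hqp hq3 hqN) h2, mul_zero]
  -- `χ a = (a² - 1)/3`
  have hχa : χ a = (((a.natAbs ^ 2 - 1) / 3 : ℕ) : ZMod 3) := by
    have h3 : ¬ 3 ∣ a.natAbs := fun h => ha3 (by
      have := Int.natCast_dvd.2 h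
      exact_mod_cast this)
    rw [hEVL _ χ hS a ha0 hcaN, ← THR_sq a.natAbs h3]
    refine Finset.sum_congr rfl fun q hq => ?_
    have hqp : q.Prime := Nat.prime_of_mem_primeFactors hq
    have hqd : (q : ℤ) ∣ a := Int.natCast_dvd.2 (Nat.dvd_of_mem_primeFactors hq)
    have hq3 : q ≠ 3 := by
      rintro rfl
      exact ha3 (by exact_mod_cast hqd)
    have hqN : ¬ (q : ℤ) ∣ nm (⟨a, 3 ^ k * b₁⟩ : E) := THR_ndvd hqp hcaN hqd
    have hqb : ¬ (q : ℤ) ∣ 3 ^ k * b₁ := THR_ndvd hqp hc hqd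
    have h1 : Psi q (((3 ^ k * b₁ : ℤ) : E) * om) (0 + (((q ^ 2 - 1) / 3 : ℕ) : ZMod 3)) :=
      hPSI.mul q _ _ _ _ hqp (hPSI.int q _ hqp hq3 hqb) (hPSI.om q hqp hq3)
    have h2 : Psi q (⟨a, 3 ^ k * b₁⟩ : E) (0 + (((q ^ 2 - 1) / 3 : ℕ) : ZMod 3)) := by
      refine hPSI.congr q _ _ _ hqp ?_ h1
      refine intCast_dvd.2 ⟨?_, ?_⟩
      · rw [QuadraticAlgebra.re_sub, QuadraticAlgebra.re_mul, QuadraticAlgebra.re_intCast,
          QuadraticAlgebra.im_intCast, om_re, om_im]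
        have h4 : (3 ^ k * b₁) * 0 + -1 * 0 * 1 - a = -a := by ring
        show (q : ℤ) ∣ (3 ^ k * b₁) * 0 + -1 * 0 * 1 - a
        rw [h4]
        exact (dvd_neg).2 hqd
      · rw [QuadraticAlgebra.im_sub, QuadraticAlgebra.im_mul, QuadraticAlgebra.re_intCast,
          QuadraticAlgebra.im_intCast, om_re, om_im]
        have h4 : (3 ^ k * b₁) * 1 + 0 * 0 + -1 * 0 * 1 - 3 ^ k * b₁ = 0 := by ring
        show (q : ℤ) ∣ (3 ^ k * b₁) * 1 + 0 * 0 + -1 * 0 * 1 - 3 ^ k * b₁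
        rw [h4]
        exact dvd_zero _
    rw [THR_uniq hPUN hqp hq3 hqN (hS.psi q hqp hq3 hqN) h2, zero_add]
  -- the reciprocity of `rot`
  have hrot : χ a = χ (3 ^ k * b₁) + (((nm (⟨a, 3 ^ k * b₁⟩ : E) - 1) / 3 : ℤ) : ZMod 3) :=
    hS.rot a (3 ^ k * b₁) (dvd_refl _) (hcaN.mul_left hcbN)
  have hsq : ((a.natAbs ^ 2 : ℕ) : ℤ) = a ^ 2 := by
    rw [Nat.cast_pow, Int.natCast_natAbs, sq_abs]
  have hu : (((a.natAbs ^ 2 - 1) / 3 : ℕ) : ℤ) = 3 * a₀ ^ 2 + 2 * a₀ := by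
    have h5 : a ^ 2 = 3 * (3 * a₀ ^ 2 + 2 * a₀) + 1 := by
      rw [ha₀]
      ring
    have h6 : 1 ≤ a.natAbs ^ 2 := Nat.one_le_pow _ _ (Int.natAbs_pos.2 ha0)
    omega
  have hχa' : χ a = ((3 * a₀ ^ 2 + 2 * a₀ : ℤ) : ZMod 3) := by
    rw [hχa, ← hu, Int.cast_natCast]
  have hmul : χ (3 ^ k * b₁) = χ (3 ^ k) := by
    rw [hS.mul _ _ hc3k hcb, hχb, add_zero]
  rw [hmul, hχa'] at hrot
  have h30 : (3 : ZMod 3) = 0 := by decide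
  rcases hk with rfl | rfl
  · refine ⟨fun h => absurd h (by norm_num), fun _ h0 => ?_⟩
    have hw : (nm (⟨a, 3 ^ 1 * b₁⟩ : E) - 1) / 3 =
        3 * a₀ ^ 2 + 2 * a₀ - b₁ * (3 * a₀ + 1) + 3 * b₁ ^ 2 := by
      have h7 : nm (⟨a, 3 ^ 1 * b₁⟩ : E) - 1 =
          3 * (3 * a₀ ^ 2 + 2 * a₀ - b₁ * (3 * a₀ + 1) + 3 * b₁ ^ 2) := by
        rw [hN, ha₀]
        ring
      rw [h7, Int.mul_ediv_cancel_left _ (by norm_num)]
    rw [hw, pow_one, h0, zero_add] at hrot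
    have h8 : ((b₁ : ℤ) : ZMod 3) = 0 := by
      push_cast at hrot
      rw [h30] at hrot
      linear_combination hrot
    exact hb ((ZMod.intCast_zmod_eq_zero_iff_dvd b₁ 3).1 h8)
  · refine ⟨fun _ => ?_, fun h => absurd h (by norm_num)⟩
    have hw : (nm (⟨a, 3 ^ 2 * b₁⟩ : E) - 1) / 3 =
        3 * a₀ ^ 2 + 2 * a₀ - 3 * (b₁ * (3 * a₀ + 1)) + 3 * (9 * b₁ ^ 2) := by
      have h7 : nm (⟨a, 3 ^ 2 * b₁⟩ : E) - 1 =
          3 * (3 * a₀ ^ 2 + 2 * a₀ - 3 * (b₁ * (3 * a₀ + 1)) + 3 * (9 * b₁ ^ 2)) := by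
        rw [hN, ha₀]
        ring
      rw [h7, Int.mul_ediv_cancel_left _ (by norm_num)]
    have h9 : χ (3 ^ 2) = χ 3 + χ 3 := by
      rw [sq]
      exact hS.mul 3 3 hc3 hc3
    rw [hw, h9] at hrot
    apply THR_three
    push_cast at hrot
    rw [h30] at hrot
    linear_combination -hrot

/-- division by the greatest common divisor -/
theorem THR_div (a b₁ : ℤ) (k : ℕ) (ha : a ≡ 1 [ZMOD 3]) :
    ∃ d a' b' : ℤ, d ≡ 1 [ZMOD 3] ∧ a = d * a' ∧ b₁ = d * b' ∧ IsCoprime a' (3 ^ k * b') := by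
  obtain ⟨a₀, ha₀⟩ : ∃ a₀ : ℤ, a = 3 * a₀ + 1 := by
    obtain ⟨c, hc⟩ := ha.symm.dvd
    exact ⟨c, by linarith⟩
  have ha3 : ¬ (3 : ℤ) ∣ a := by omega
  have ha0 : a ≠ 0 := by omega
  have hg0 : 0 < Int.gcd a (3 ^ k * b₁) := Int.gcd_pos_of_ne_zero_left _ ha0
  obtain ⟨m, n, h1, h2, h3⟩ := Int.exists_gcd_one hg0
  set g : ℤ := (Int.gcd a (3 ^ k * b₁) : ℤ) with hg
  have hg3 : ¬ (3 : ℤ) ∣ g := fun h => ha3 (h2 ▸ h.mul_left m)
  have hmn : IsCoprime m n := Int.isCoprime_iff_gcd_eq_one.2 h1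
  obtain ⟨d, x, y, hd, hx, hy, hxy⟩ : ∃ d x y : ℤ, (∃ e : ℤ, d = 3 * e + 1) ∧ a = d * x ∧
      3 ^ k * b₁ = d * y ∧ IsCoprime x y := by
    rcases (by omega : g % 3 = 1 ∨ g % 3 = 2) with h | h
    · exact ⟨g, m, n, ⟨g / 3, by omega⟩, by linarith, by linarith, hmn⟩
    · exact ⟨-g, -m, -n, ⟨-g / 3, by omega⟩, by linarith, by linarith, hmn.neg_neg⟩
  obtain ⟨e, he⟩ := hd
  have hd0 : d ≠ 0 := by omega
  have hd3 : IsCoprime d ((3 : ℤ) ^ k) := by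
    refine IsCoprime.pow_right ⟨1, -e, ?_⟩
    rw [he]
    ring
  obtain ⟨b', hb'⟩ : (3 : ℤ) ^ k ∣ y := hd3.symm.dvd_of_dvd_mul_left ⟨b₁, hy.symm⟩
  refine ⟨d, x, b', ?_, hx, ?_, hb' ▸ hxy⟩
  · exact (Int.modEq_iff_dvd.2 ⟨e, by rw [he]; ring⟩).symm
  · have h5 : (3 : ℤ) ^ k ≠ 0 := pow_ne_zero _ (by norm_num)
    apply mul_left_cancel₀ h5
    rw [hy, hb']
    ring

theorem p_THR (hPUN : Stmt_PUN) (hPSI : Stmt_PSI) (hSYM : Stmt_SYM) (hEVL : Stmt_EVL) :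
    Stmt_THR := by
  intro a b₁ k χ ha hb hk hS
  obtain ⟨d, a', b', hd, haa, hbb, hcop⟩ := THR_div a b₁ k ha
  have hd' : ∃ e : ℤ, d = 3 * e + 1 := by
    obtain ⟨c, hc⟩ := hd.symm.dvd
    exact ⟨c, by linarith⟩
  obtain ⟨e, he⟩ := hd'
  obtain ⟨a₀, ha₀⟩ : ∃ a₀ : ℤ, a = 3 * a₀ + 1 := by
    obtain ⟨c, hc⟩ := ha.symm.dvd
    exact ⟨c, by linarith⟩
  have ha' : a' = 3 * (a₀ - e * a') + 1 := by
    rw [ha₀, he] at haa
    linarith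
  have ha'1 : a' ≡ 1 [ZMOD 3] :=
    (Int.modEq_iff_dvd.2 ⟨a₀ - e * a', by linarith⟩).symm
  have hb'3 : ¬ (3 : ℤ) ∣ b' := fun h => hb (hbb ▸ h.mul_left d)
  have hk0 : 0 < k := by omega
  obtain ⟨c₀, hc₀⟩ : (3 : ℤ) ∣ 3 ^ k := dvd_pow_self 3 hk0.ne'
  -- the symbol of `α'`
  obtain ⟨χ', hS'⟩ := hSYM (⟨a', 3 ^ k * b'⟩ : E) (by
    refine intCast_dvd.2 ⟨?_, ?_⟩
    · rw [QuadraticAlgebra.re_sub, re_one']
      exact ⟨a₀ - e * a', by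
        show a' - 1 = 3 * (a₀ - e * a')
        linarith⟩
    · rw [QuadraticAlgebra.im_sub, im_one', sub_zero]
      exact ⟨c₀ * b', by
        show 3 ^ k * b' = 3 * (c₀ * b')
        rw [hc₀]
        ring⟩)
  have hmain := THR_cop hPUN hPSI hEVL a' b' k χ' ha'1 hb'3 hk hcop hS'
  have hαd : ((d : ℤ) : E) * (⟨a', 3 ^ k * b'⟩ : E) = ⟨a, 3 ^ k * b₁⟩ := by
    refine ext' ?_ ?_
    · rw [QuadraticAlgebra.re_mul, QuadraticAlgebra.re_intCast, QuadraticAlgebra.im_intCast]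
      show d * a' + -1 * 0 * (3 ^ k * b') = a
      rw [haa]
      ring
    · rw [QuadraticAlgebra.im_mul, QuadraticAlgebra.re_intCast, QuadraticAlgebra.im_intCast]
      show d * (3 ^ k * b') + 0 * a' + -1 * 0 * (3 ^ k * b') = 3 ^ k * b₁
      rw [hbb]
      ring
  set N : ℤ := nm (⟨a, 3 ^ k * b₁⟩ : E) with hN
  set N' : ℤ := nm (⟨a', 3 ^ k * b'⟩ : E) with hN'
  have hNN : N = d ^ 2 * N' := by
    rw [hN, ← hαd, nm_mul, nm_intCast]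
  have hN1 : ∃ w : ℤ, N = 3 * w + 1 := by
    refine ⟨3 * a₀ ^ 2 + 2 * a₀ - a * (c₀ * b₁) + 3 * (c₀ * b₁) ^ 2, ?_⟩
    show a ^ 2 - a * (3 ^ k * b₁) + (3 ^ k * b₁) ^ 2 = _
    rw [hc₀, ha₀]
    ring
  obtain ⟨w, hw⟩ := hN1
  have hNpos : 0 ≤ N := nm_nonneg _
  have hn0 : 3 + N ≠ 0 := by omega
  have hn3 : ¬ (3 : ℤ) ∣ 3 + N := by omega
  have hcN : IsCoprime (3 + N) N := by
    refine ⟨-w, w + 1, ?_⟩
    rw [hw]
    ring
  have hcN' : IsCoprime (3 + N) N' := by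
    have h1 : IsCoprime (3 + N) (d ^ 2 * N') := by
      rw [← hNN]
      exact hcN
    exact h1.of_mul_right_right
  have hper : χ 3 = χ (3 + N) := hS.per 3 (3 + N) (Int.modEq_iff_dvd.2 ⟨1, by
    show 3 + N - 3 = N * 1
    ring⟩)
  have hper' : χ' 3 = χ' (3 + N) := hS'.per 3 (3 + N) (Int.modEq_iff_dvd.2 ⟨d ^ 2, by
    show 3 + N - 3 = N' * d ^ 2
    rw [hNN]
    ring⟩)
  have heq : χ (3 + N) = χ' (3 + N) := by
    rw [hEVL _ χ hS (3 + N) hn0 hcN, hEVL _ χ' hS' (3 + N) hn0 hcN']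
    refine Finset.sum_congr rfl fun q hq => ?_
    have hqp : q.Prime := Nat.prime_of_mem_primeFactors hq
    have hqd : (q : ℤ) ∣ 3 + N := Int.natCast_dvd.2 (Nat.dvd_of_mem_primeFactors hq)
    have hq3 : q ≠ 3 := by
      rintro rfl
      exact hn3 (by exact_mod_cast hqd)
    have hqN : ¬ (q : ℤ) ∣ N := THR_ndvd hqp hcN hqd
    have hqN' : ¬ (q : ℤ) ∣ N' := THR_ndvd hqp hcN' hqd
    have hqdd : ¬ (q : ℤ) ∣ d := fun h => hqN (by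
      rw [hNN, sq, mul_assoc]
      exact h.mul_right _)
    have h1 : Psi q (((d : ℤ) : E) * (⟨a', 3 ^ k * b'⟩ : E)) (0 + χ' (q : ℤ)) :=
      hPSI.mul q _ _ _ _ hqp (hPSI.int q d hqp hq3 hqdd) (hS'.psi q hqp hq3 hqN')
    rw [hαd, zero_add] at h1
    rw [THR_uniq hPUN hqp hq3 hqN (hS.psi q hqp hq3 hqN) h1]
  rw [hper, heq, ← hper']
  exact hmain

end Pool.EMC
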