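import Pool.Agent.Work.MP_75c89d_cub.Tools

/-!
# MP_75c89d_nt, THEOREM CUB (helper66): interface

Rules.  File `Pool/Agent/Work/MP_75c89d_cub/B_X.lean`, `import Pool.Agent.Work.MP_75c89d_cub.Interface`,
namespace `Pool.EMC`, `theorem p_X (hA : Stmt_A) (hB : Stmt_B) .. : Stmt_X` with exactly the blocks of
the column `uses` as hypotheses in that order; auxiliary lemmas with the prefix `X_`.  No `sorry`.
`Tools.lean` has the algebra of `E = ℤ[ω]`: `nm_mul`, `mul_cj`, `cjHom`, `evHom`, `ev_mul`, `ev_cj`,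
`ev_mul_ev`, `root_sq`, `root_cube`, `intCast_dvd`, `nm_dvd`, `nm_congr`, `om_pow_val`,
`om_pow_natCast`, `IsDomain E`, `four_nm` ..

THE THEOREM (Q2, `a = 1`, `m = 1, 2`).  `f ∈ GEM(1, m)` with a factor `uX + w`, `gcd(u, w) = 1`, `w`
not a cube (or `3 ∥ u P` eventually): infinitely many primes `≡ 1` modulo `m` are missing in
`GEM_2(f; 1, m)`.

THE PROOF.  At a record prime `p` one has `u P + w = ± p^e s`, all primes `< p` outside a finite set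
divide `P`, so `n = (u P + w) w²` is a cube modulo them.  Cubic reciprocity in rational form: for
`α ≡ 1` modulo `3` in `ℤ[ω]` there is a character `χ` modulo `N α` with values in `ℤ/3` (`Sym α χ`),
`χ(q) = ψ_q(α)` for the primes `q ≠ 3`, where `ψ_q(α)` depends on `α` modulo `q` only (`Psi q α k`).
If the split prime factors of `N α` are `< p` then `χ(n) = 0`.  A bilinear sum in `ℤ[ω]/p` shows
`3 ∣ e`, and then fixed `α` show that `n` is a cube.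
-/

set_option autoImplicit false

open Polynomial

namespace Pool.EMC

/-! ## Definitions of the problem -/

/-- `p` is `GEM_2(f; a, m)`: `p n` is the largest admissible prime at step `n` -/
def IsGEM2 (f : ℤ[X]) (a m : ℕ) (p : ℕ → ℕ) : Prop :=
  ∀ n : ℕ, IsGreatest {q : ℕ | q.Prime ∧ (q : ℤ) ∣ f.eval (∏ i ∈ Finset.range n, (p i : ℤ)) ∧
    q ≡ a [MOD m] ∧ ¬ (q : ℤ) ∣ f.eval 0} (p n)

/-! ## The symbols -/

/-- `ψ_q(α) = ω ^ k` -/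
def Psi (q : ℕ) (α : E) (k : ZMod 3) : Prop :=
  (q % 3 = 1 → ((q : ℤ) : E) ∣ (α ^ 2 * cj α) ^ ((q - 1) / 3) * om ^ k.val - 1) ∧
  (q % 3 = 2 → ((q : ℤ) : E) ∣ α ^ ((q ^ 2 - 1) / 3) - om ^ k.val)

/-- `χ` is the cubic residue symbol `(n / α)`, as a function of the integer `n`, written
additively -/
structure Sym (α : E) (χ : ℤ → ZMod 3) : Prop where
  mul : ∀ m n : ℤ, IsCoprime m (nm α) → IsCoprime n (nm α) → χ (m * n) = χ m + χ n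
  per : ∀ m n : ℤ, m ≡ n [ZMOD nm α] → χ m = χ n
  psi : ∀ q : ℕ, q.Prime → q ≠ 3 → ¬ (q : ℤ) ∣ nm α → Psi q α (χ q)
  cub : ∀ n : ℤ, IsCoprime n (nm α) →
    (∀ l : ℕ, l.Prime → l % 3 = 1 → (l : ℤ) ∣ nm α → ∃ y : ℤ, n ≡ y ^ 3 [ZMOD l]) → χ n = 0
  rot : ∀ a b : ℤ, α ∣ (⟨a, b⟩ : E) → IsCoprime (a * b) (nm α) →
    χ a = χ b + (((nm α - 1) / 3 : ℤ) : ZMod 3)

/-- PUN (200 lines; uses nothing).  Existence and uniqueness of `ψ_q(α)`.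
`q ≡ 1`: `F = ZMod q` has a root `r` of `r² + r + 1` (cyclic group of order `q - 1`), the other root
is `r²`; `E / q → F × F`, `z ↦ (ev r z, ev (r²) z)` is injective.  `s = ev r α`, `t = ev (r²) α =
ev r (cj α)` are `≠ 0` (`ev_mul_ev`), `m = (q-1)/3`: `(s² t)^m` is a cube root of `1`, so
`= r^j` (roots of `x³ - 1`), and `(t² s)^m = r^(-j)` because `(s t)^(3m) = 1`; under the second
evaluation `ω ↦ r² = r⁻¹`, so `(α² ᾱ)^m ≡ ω^j` modulo `q`, `k = -j`.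
`q ≡ 2`: modulo `q`, `z^q ≡ cj z` (Frobenius, `ω^q = ω²`), so `z^(q²-1) ≡ (N z)^(q-1) ≡ 1`;
`β = α^((q²-1)/3)` satisfies `q ∣ (β - 1)(β - ω)(β - ω²)`, and `q` is prime in `E` (`q ∣ N z` implies
`q ∣ z`, as `x² - xy + y² ≡ 0` has only the zero solution for `q ≡ 2`; `q = 2` by hand).
Uniqueness: `q` does not divide `ω^k - ω^l` (norm `3`) times a unit mod `q`. -/
def Stmt_PUN : Prop :=
  ∀ q : ℕ, q.Prime → q ≠ 3 → ∀ α : E, ¬ (q : ℤ) ∣ nm α → ∃! k : ZMod 3, Psi q α k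

/-- PSI (120 lines; uses nothing).  Formal properties of `ψ_q`: multiplicativity (`om_pow_val`,
`q ∣ x y - x' y'` from `q ∣ x - x'`, `q ∣ y - y'`), periodicity, rational integers (`q ≡ 1`:
`(d³)^((q-1)/3) = d^(q-1) ≡ 1`; `q ≡ 2`: `d^((q²-1)/3) = (d^(q-1))^((q+1)/3)`, Fermat), `ω`
(`q ≡ 1`: `ω² · cj ω = ω⁴ = ω`, `(q-1)/3 + k ≡ 0` with `k = (q²-1)/3`, as `(q²-1)/3 = (q-1)/3 (q+1)
≡ 2 (q-1)/3`). -/
structure Stmt_PSI : Prop where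
  mul : ∀ (q : ℕ) (α β : E) (k l : ZMod 3), q.Prime → Psi q α k → Psi q β l →
    Psi q (α * β) (k + l)
  congr : ∀ (q : ℕ) (α β : E) (k : ZMod 3), q.Prime → ((q : ℤ) : E) ∣ α - β → Psi q α k →
    Psi q β k
  int : ∀ (q : ℕ) (d : ℤ), q.Prime → q ≠ 3 → ¬ (q : ℤ) ∣ d → Psi q (d : E) 0
  om : ∀ q : ℕ, q.Prime → q ≠ 3 → Psi q om (((q ^ 2 - 1) / 3 : ℕ) : ZMod 3)

/-! ## Prime elements -/

/-- a cubic character of `F_l` with values in `ℤ[ω]`, normalised by the cube root of unity `r` -/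
structure Chi (l : ℕ) (r : ZMod l) (χ : MulChar (ZMod l) E) : Prop where
  ne : χ ≠ 1
  cube : χ ^ 3 = 1
  red : ∀ x : ZMod l, ev r (χ x) = x ^ ((l - 1) / 3)

/-- CHI (100 lines; uses nothing).  Existence.  `MulChar.exists_mulChar_orderOf` (order `3 ∣ l - 1`,
`IsPrimitiveRoot om 3`): `χ₀`.  For a generator `g` of `F_l^*`: `χ₀ g = ω^j`, `g^((l-1)/3) = r^i`,
`i, j ∈ {1, 2}`: `χ = χ₀` or `χ₀²`.  (Or define `χ` directly by `χ x = ω^k` for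
`x^((l-1)/3) = r^k`.) -/
def Stmt_CHI : Prop :=
  ∀ (l : ℕ) [Fact l.Prime], l % 3 = 1 → ∀ r : ZMod l, r ^ 2 + r + 1 = 0 →
    ∃ χ : MulChar (ZMod l) E, Chi l r χ

/-- JSM (150 lines; uses nothing).  The Jacobi sum `J = J(χ, χ)`.  `3 ∣ J + 1`:
`exists_jacobiSum_eq_neg_one_add` with `μ = ω`, `(ω - 1)² = -3 ω`.  Norm: `χ⁻¹ = χ ∘ cj`
(`χ x · cj (χ x) = 1`: `χ x` is a power of `ω`), so `cj J = J(χ⁻¹, χ⁻¹)` (`jacobiSum_ringHomComp` with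
`cjHom`), and `J(χ, χ) J(χ⁻¹, χ⁻¹) = l` (`jacobiSum_mul_jacobiSum_inv` in `ℂ`, through the injective
homomorphism `evHom ζ : E → ℂ`, `ζ = exp(2πi/3)`; `χ² ≠ 1`).  Zero: `ev r J = Σ x^m (1-x)^m`,
`m = (l-1)/3`, a polynomial of degree `2 m < l - 1` (`FiniteField.sum_pow_lt_card_sub_one`). -/
def Stmt_JSM : Prop :=
  ∀ (l : ℕ) [Fact l.Prime], l % 3 = 1 → ∀ r : ZMod l, r ^ 2 + r + 1 = 0 →
    ∀ χ : MulChar (ZMod l) E, Chi l r χ →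
      nm (-jacobiSum χ χ) = l ∧ ((3 : ℤ) : E) ∣ -jacobiSum χ χ - 1 ∧ ev r (-jacobiSum χ χ) = 0

/-- GSA (150 lines; uses nothing).  Gauss sums in characteristic `q`.  `ψ` a primitive additive
character of `ZMod l` with values in `F` (`AddChar.zmodChar`, a primitive `l`-th root of unity exists
as `q ≠ l`), `g = gaussSum χ ψ`: `g² = J g(χ²)` (`jacobiSum_mul_nontrivial`), `g(χ⁻¹) g(χ) = l`
(`gaussSum_mul_gaussSum_eq_card`, `χ(-1) = 1`, `χ² = χ⁻¹`): `g³ = l J`, `g ≠ 0`.  `g^q =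
gaussSum (χ^q) (ψ^q)` (`gaussSum_frob`), `ψ^q = mulShift ψ q`, `gaussSum_mulShift`.  `q ≡ 1`:
`χ^q = χ`, `χ(q) g^q = g`.  `q ≡ 2`: twice: `χ(q²) g^(q²) = g`, `χ(q)^2 g^(q²-1) = 1`. -/
def Stmt_GSA : Prop :=
  ∀ (l q : ℕ) [Fact l.Prime] [Fact q.Prime], q ≠ 3 → q ≠ l →
    ∀ (F : Type) [Field F] [CharP F q] [IsAlgClosed F] (χ : MulChar (ZMod l) F), χ ≠ 1 →
      χ ^ 3 = 1 →
      (q % 3 = 1 → ((l : F) * jacobiSum χ χ) ^ ((q - 1) / 3) * χ (q : ZMod l) = 1) ∧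
      (q % 3 = 2 → ((l : F) * jacobiSum χ χ) ^ ((q ^ 2 - 1) / 3) = χ (q : ZMod l))

/-- GSB (120 lines; uses GSA JSM).  `λ = -J`.  `F = AlgebraicClosure (ZMod q)`, `θ ∈ F` with
`θ² + θ + 1 = 0`; for both roots `θ, θ²` apply `evHom θ` to the claim: `jacobiSum_ringHomComp`
(`χ` composed with `evHom θ` is nontrivial since `ω ≠ 1` in `F`).  `q ≡ 1`: `λ² λ̄ = l λ`, the sign
`(-1)^((q-1)/3)` is `1`.  `q ≡ 2`: `l^((q²-1)/3) = 1` in `F` (Fermat), sign `1` (`q` odd) or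
characteristic `2`.  An element `z` of `E` with `ev θ z = ev (θ²) z = 0` in `F` is divisible by `q`
(`θ ≠ θ²`). -/
def Stmt_GSB : Prop :=
  ∀ (l q : ℕ) [Fact l.Prime] [Fact q.Prime], l % 3 = 1 → q ≠ 3 → q ≠ l →
    ∀ r : ZMod l, r ^ 2 + r + 1 = 0 → ∀ χ : MulChar (ZMod l) E, Chi l r χ →
      ∀ k : ZMod 3, χ (q : ZMod l) = om ^ k.val → Psi q (-jacobiSum χ χ) k

/-- KER (60 lines; uses nothing).  `λ = a + b ω`, `a + b r = 0`, `N λ = l`: `l ∤ b`.  `ev r z = 0`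
implies `ev r (z · cj λ) = 0` and `ev (r²) (z · cj λ) = ev (r²) z · ev r λ = 0` (`ev_cj` for the root
`r²`: `(r²)² = r`), so `l ∣ z · cj λ` (two roots), `z · cj λ = l w = λ cj λ w`. -/
def Stmt_KER : Prop :=
  ∀ (l : ℕ) [Fact l.Prime], l ≠ 3 → ∀ r : ZMod l, r ^ 2 + r + 1 = 0 → ∀ lam : E, nm lam = l →
    ev r lam = 0 → ∀ z : E, ev r z = 0 → lam ∣ z

/-- PRM (150 lines; uses CHI JSM GSB).  Prime elements.  `λ = -J(χ, χ)`; the symbol of `n` is the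
`k` with `χ(n) = ω^k` (`0` if `l ∣ n`).  `cub`: `χ(y³) = 1`.  `psi`: GSB.  `rot`: `λ ∣ ⟨a, b⟩` gives
`a + b r = 0` in `ZMod l`, `χ(a) = χ(-1) χ(b) χ(r)`, `χ(-1) = 1`, `χ(r) = ω^((l-1)/3)` by `red`
(`ev r` is injective on the powers of `ω`). -/
def Stmt_PRM : Prop :=
  ∀ (l : ℕ) [Fact l.Prime], l % 3 = 1 → ∀ r : ZMod l, r ^ 2 + r + 1 = 0 →
    ∃ (lam : E) (χ : ℤ → ZMod 3), nm lam = l ∧ ((3 : ℤ) : E) ∣ lam - 1 ∧ ev r lam = 0 ∧ Sym lam χ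

/-- SYM (250 lines; uses PSI PRM KER).  Strong induction on `N α` (`≥ 1`).  `N α = 1`: `α` is a unit
`≡ 1` modulo `3`, `α = 1` (`a² - ab + b² = 1`), `χ = 0`.  Otherwise let `l` be a prime factor of
`N α`, `l ≠ 3` as `N α ≡ 1` modulo `3`.  `l ≡ 2`: `l ∣ α` (`x² - xy + y² ≡ 0`), `α = (-l) β`,
`β ≡ 1`, the same `χ`; `rot` is void (`l ∣ a, b`).  `l ≡ 1`: a root `r` exists, `ev r α · ev (r²) α =
N α = 0`, so `ev r' α = 0` for `r' = r` or `r²`; PRM for `r'`, KER: `α = λ β`, `β ≡ 1`,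
`χ_α = χ_λ + χ_β`; in `rot`: `(l N β - 1)/3 ≡ (l-1)/3 + (N β - 1)/3` modulo `3`. -/
def Stmt_SYM : Prop :=
  ∀ α : E, ((3 : ℤ) : E) ∣ α - 1 → ∃ χ : ℤ → ZMod 3, Sym α χ

/-- EVL (60 lines; uses nothing).  Induction on the factorization; `χ 1 = 0`, `χ (-1) = 0`
(`2 χ (-1) = 0` in `ZMod 3`). -/
def Stmt_EVL : Prop :=
  ∀ (α : E) (χ : ℤ → ZMod 3), Sym α χ → ∀ n : ℤ, n ≠ 0 → IsCoprime n (nm α) →
    χ n = ∑ q ∈ n.natAbs.primeFactors, (n.natAbs.factorization q : ZMod 3) * χ (q : ℤ)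

/-- THR (250 lines; uses PUN PSI SYM EVL).  The symbol of `3`.  `α = a + b ω`, `b = 3^k b₁`,
`a ≡ 1`.  (1) If `gcd(a, b) = 1`: `rot` for `α` itself (`gcd(ab, N α) = 1`): `χ a = χ b + (N α -
1)/3`, `χ b = k χ 3 + χ b₁` (EVL or `mul`).  For a prime `q ∣ b₁`: `α ≡ a` modulo `q`, so
`χ q = 0` (`PSI.int`, `congr`, PUN): `χ b₁ = 0` (EVL).  For `q ∣ a`: `α ≡ b ω`, `χ q = (q²-1)/3`, and
`χ a = Σ v_q (q²-1)/3 = (a²-1)/3` in `ZMod 3` (`(x² y² - 1)/3 ≡ (x²-1)/3 + (y²-1)/3` for `x, y`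
prime to `3`).  So `k χ 3 = (a² - N α)/3 = b (a - b)/3`: `k = 2`: `2 χ 3 = 0`; `k = 1`: `χ 3 =
b₁ (a - b) ≠ 0` modulo `3`.
(2) In general `d = ± gcd(a, b) ≡ 1` modulo `3`, `α = d α'`, `α' = ⟨a', 3^k b₁'⟩`, `a' ≡ 1`; `χ'` from
SYM for `α'`.  `n = 3 + N α` is prime to `3 N α` and `≡ 3` modulo `N α` and `N α'`; for the primes
`q ∣ n`: `χ q = χ' q` (`PSI.mul`, `PSI.int`, PUN; `q ∤ d` as `d² ∣ N α`), so `χ 3 = χ n = χ' n = χ' 3` (EVL). -/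
def Stmt_THR : Prop :=
  ∀ (a b₁ : ℤ) (k : ℕ) (χ : ℤ → ZMod 3), a ≡ 1 [ZMOD 3] → ¬ (3 : ℤ) ∣ b₁ → k = 1 ∨ k = 2 →
    Sym ⟨a, 3 ^ k * b₁⟩ χ → (k = 2 → χ 3 = 0) ∧ (k = 1 → χ 3 ≠ 0)

/-! ## Step (4): an integer which is a cube modulo the primes `< p` -/

/-- GAM (100 lines; uses PUN).  `ψ_q` is not trivial.  `q ≡ 2`: the field `E / q` has `q²` elements, its
multiplicative group is cyclic of order divisible by `3`: some `γ^((q²-1)/3) ≠ 1`; or count: the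
polynomial `X^((q²-1)/3) - 1` has at most `(q²-1)/3` roots.  `q ≡ 1`: `γ` with `ev r γ = s`,
`ev (r²) γ = 1`, `s` a non-cube of `F_q`: `(γ² γ̄)^m` evaluates to `s^(2m) ≠ 1` under `ev r`.  Then
`k ≠ 0` by PUN (existence). -/
def Stmt_GAM : Prop :=
  ∀ q : ℕ, q.Prime → q ≠ 3 → ∃ (γ : E) (k : ZMod 3), ¬ (q : ℤ) ∣ nm γ ∧ k ≠ 0 ∧ Psi q γ k

/-- ALF (120 lines; uses GAM PSI).  Chinese remainder theorem: `W₁ = ∏ (primes of W other than q)`;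
`a ≡ 1` modulo `9 W₁`, `a ≡ γ.re` modulo `q`; `b₁ ≡ 0` modulo `W₁`, `b₁ ≡ 1` modulo `3`,
`9 b₁ ≡ γ.im` modulo `q` (`q ≠ 3`). -/
def Stmt_ALF : Prop :=
  ∀ W q : ℕ, 0 < W → ¬ 3 ∣ W → q.Prime → q ∣ W → ∃ (a b₁ : ℤ) (k : ZMod 3),
    a ≡ 1 [ZMOD 3] ∧ ¬ (3 : ℤ) ∣ b₁ ∧
    (∀ s : ℕ, s.Prime → s ∣ W → s ≠ q → (s : ℤ) ∣ a - 1 ∧ (s : ℤ) ∣ b₁) ∧
    ¬ (q : ℤ) ∣ nm ⟨a, 9 * b₁⟩ ∧ k ≠ 0 ∧ Psi q ⟨a, 9 * b₁⟩ k

/-- `n` is supported on `p` and the primes dividing `3 W`, and it is a cube modulo the primes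
`l ≡ 1` modulo `3`, `l < p`, `l ∤ W` -/
structure Hyp (W p : ℕ) (n : ℤ) : Prop where
  ne : n ≠ 0
  supp : ∀ q : ℕ, q.Prime → (q : ℤ) ∣ n → q ≠ p → q ∣ 3 * W
  cub : ∀ l : ℕ, l.Prime → l % 3 = 1 → l < p → ¬ l ∣ W → ∃ y : ℤ, n ≡ y ^ 3 [ZMOD l]

/-- NCB (200 lines; uses PUN PSI SYM EVL THR ALF).  Otherwise `3 ∤ v_q(n)` for some prime `q ≠ p`,
`q ∣ 3 W`.  For each prime `q ∣ W` take `α_q = ⟨a, 9 b₁⟩` of ALF, for `q = 3` take `α_3 = ⟨1, 3 W⟩`;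
`P₀` exceeds `W`, `3` and all `N α_q`.  `χ` from SYM.  `N α_q` is prime to `3`, to `W` and to `p`
(`α ≡ 1` modulo `s ∣ W`, `s ≠ q`: `nm_congr`), so `gcd(n, N α) = 1`, and the prime factors of `N α`
are `< p`, `∤ W`: `χ n = 0` by `Sym.cub`.  EVL: `χ n = Σ v_s(n) χ s`, where `χ s = 0` for `s ∣ W`,
`s ≠ q` (`α ≡ 1`, `PSI.int` for `1`, `congr`, PUN), `v_p(n) = 0` in `ZMod 3`, and, for `q ∣ W`,
`χ 3 = 0` (THR, `k = 2`), `χ q = k ≠ 0`; for `q = 3`: `χ 3 ≠ 0` (THR, `k = 1`).  Contradiction. -/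
def Stmt_NCB : Prop :=
  ∀ W : ℕ, 0 < W → ¬ 3 ∣ W → ∃ P₀ : ℕ, ∀ p : ℕ, p.Prime → P₀ ≤ p → ∀ n : ℤ, Hyp W p n →
    3 ∣ n.natAbs.factorization p → ∃ t : ℤ, n = t ^ 3

/-! ## Step (3): the exponent of `p` -/

/-- pairs of points of the box `[0, Y)²` -/
def QB (Y : ℕ) : Finset ((ℕ × ℕ) × (ℕ × ℕ)) :=
  (Finset.range Y ×ˢ Finset.range Y) ×ˢ (Finset.range Y ×ˢ Finset.range Y)

/-- the point `c + M (x₁ + x₂)` -/
def pt (c : E) (M : ℤ) (x : (ℕ × ℕ) × (ℕ × ℕ)) : E :=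
  ⟨c.re + M * (((x.1.1 + x.2.1 : ℕ)) : ℤ), c.im + M * (((x.1.2 + x.2.2 : ℕ)) : ℤ)⟩

/-- BLA (100 lines; uses nothing).  Cauchy-Schwarz: the square is `≤ |A| Σ_{a ∈ A} |Σ_{b ∈ B}
f(a+b)|² ≤ |A| Σ_{x ∈ G} |Σ_{b ∈ B} f(x+b)|² = |A| Σ_{b, b'} Re Σ_x f(x+b) conj f(x+b')`, and
`Σ_x f(x+b) conj f(x+b') = Σ_x f(x + (b - b')) conj f(x)`. -/
def Stmt_BLA : Prop :=
  ∀ (G : Type) [AddCommGroup G] [Fintype G] (f : G → ℂ) (D : ℝ),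
    ∑ x : G, ‖f x‖ ^ 2 ≤ D →
    (∀ h : G, h ≠ 0 → (∑ x : G, f (x + h) * (starRingEnd ℂ) (f x)).re ≤ 1) →
    ∀ A B : Finset G, ‖∑ a ∈ A, ∑ b ∈ B, f (a + b)‖ ^ 2 ≤ (A.card : ℝ) * B.card * (D + B.card)

/-- COR (80 lines; uses nothing).  Correlations of a nontrivial multiplicative character of a finite
field: `h ≠ 0`: `Σ_x χ(x + h) conj χ(x) = Σ_{x ≠ 0} χ((x + h)/x) = Σ_{y ≠ 1} χ(y) = -1`. -/
def Stmt_COR : Prop :=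
  ∀ (F : Type) [Field F] [Fintype F] (χ : MulChar F ℂ), χ ≠ 1 →
    (∀ h : F, h ≠ 0 → ∑ x : F, χ (x + h) * (starRingEnd ℂ) (χ x) = -1) ∧
    ∑ x : F, χ x * (starRingEnd ℂ) (χ x) = (Fintype.card F : ℂ) - 1

open Classical in
/-- BLP (250 lines; uses PUN BLA COR), `p ≡ 1` modulo `3`.  `G = ZMod p × ZMod p`, `χ` a cubic character of
`ZMod p` with values in `ℂ` normalised by `χ x = ζ^j` for `x^((p-1)/3) = r^j`;
`f (s, t) = χ s · conj χ t`.  For `α ∈ E` with `s = ev r α`, `t = ev (r²) α`: if `p ∤ N α` and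
`Psi p α k` then `(s² t)^m r^k = 1`, so `f (s, t) = χ(s²t)⁻¹ = ζ^k`; `f = 1` for `k = 0`.  The
correlation of `f` at `(h₁, h₂) ≠ 0` is the product of two correlations of COR (`p - 1` for
`h_i = 0`, `-1` otherwise): real part `≤ 1`; `D = p²`.  `A = {ev (c + M x₁)}`, `B = {ev (M x₂)}`,
`x₁, x₂ ∈ [0, Y)²`: `|A| = |B| = Y²` (injective: `Y ≤ p`, `p ∤ M`, `r ≠ r²`).  So
`|Σ_{x ∈ QB Y} f(pt c M x)| ≤ Y² √(p² + Y²)`, and the sum is `≥ (Y⁴ - B) - B` in absolute value,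
`B` = number of `x` with `¬ Psi p (pt c M x) 0`. -/
def Stmt_BLP : Prop :=
  ∀ p : ℕ, p.Prime → p % 3 = 1 → ∀ Y : ℕ, Y ≤ p → ∀ M : ℤ, ¬ (p : ℤ) ∣ M → ∀ c : E,
    (Y : ℝ) ^ 4 ≤ 2 * (((QB Y).filter fun x => ¬ Psi p (pt c M x) 0).card : ℝ) +
      (Y : ℝ) ^ 2 * Real.sqrt ((p : ℝ) ^ 2 + (Y : ℝ) ^ 2)

open Classical in
/-- BLI (250 lines; uses PUN BLA COR), `p ≡ 2` modulo `3`.  `G = E ⧸ span {p}`, a field with `p²` elements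
(`x² - xy + y² ≡ 0` modulo `p` only for `x ≡ y ≡ 0`; `p = 2` by hand), `χ` a cubic character of `G`
(order `3 ∣ p² - 1`) with `χ x = ζ^k` for `x^((p²-1)/3) = ω^k` (replace `χ` by `χ²` if necessary).
`f = χ`; `f(α) = 1` if `Psi p α 0`.  COR, BLA with `D = p²`; the rest as in BLP. -/
def Stmt_BLI : Prop :=
  ∀ p : ℕ, p.Prime → p % 3 = 2 → ∀ Y : ℕ, Y ≤ p → ∀ M : ℤ, ¬ (p : ℤ) ∣ M → ∀ c : E,
    (Y : ℝ) ^ 4 ≤ 2 * (((QB Y).filter fun x => ¬ Psi p (pt c M x) 0).card : ℝ) +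
      (Y : ℝ) ^ 2 * Real.sqrt ((p : ℝ) ^ 2 + (Y : ℝ) ^ 2)

/-- CN1 (150 lines; uses nothing).  Packing.  Divide `[0, X)²` into `(X/T + 1)²` cells of side `T`.
`l ≡ 2`: `l ∣ N α` implies `l ∣ α`.  `l ≡ 1`: `ev r α = 0` or `ev (r²) α = 0`.  Two points `z ≠ z'`
of one cell of the same kind: `ev r (M (z - z')) = 0`, `l ∤ M`, so `l ∣ N (z - z')` (`ev_mul_ev`), but
`0 < N (z - z') ≤ 3 (T-1)² < l`.  So at most two points in each cell. -/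
def Stmt_CN1 : Prop :=
  ∀ l : ℕ, l.Prime → l ≠ 3 → ∀ M : ℤ, ¬ (l : ℤ) ∣ M → ∀ (c : E) (T X : ℕ), 1 ≤ T → 3 * T ^ 2 ≤ l →
    ((Finset.range X ×ˢ Finset.range X).filter fun z : ℕ × ℕ =>
      (l : ℤ) ∣ nm (⟨c.re + M * (z.1 : ℤ), c.im + M * (z.2 : ℤ)⟩ : E)).card ≤ 2 * (X / T + 1) ^ 2

/-- PIC (80 lines; uses nothing).  The primes have density `0` (`Nat.primeCounting'_add_le` with
`φ(a)/a` small, or the Chebyshev bounds of Mathlib). -/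
def Stmt_PIC : Prop :=
  ∀ K : ℕ, ∃ n₀ : ℕ, ∀ n : ℕ, n₀ ≤ n → K * ((Finset.range (n + 1)).filter Nat.Prime).card ≤ n

open Classical in
/-- CNT (200 lines; uses CN1 PIC).  `c = ⟨1, 9 W⟩`, `M = 27 W`.  For `0 ≤ z₁, z₂ < 2Y` one has
`N (c + M z) ≤ 3 (64 W Y)² =: H`.  A prime `l ≥ p > 27 W`, `l ∣ N`, is `≤ H`, `≠ 3`, `∤ M`; with
`T = ⌊√(p/3)⌋` (`3 T² ≤ p ≤ l`, `2 Y / T ≤ 8` for large `p`) CN1 (`X = 2 Y`) gives `≤ 162` points `z`;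
so there are `≤ 162 π(H)` bad `z`, and each `z` comes from at most `Y²` elements `x` of `QB Y`
(`x.1.1` and `x.1.2` determine `x`).  PIC with `K = 1296 · 12288 W²`: `162 π(H) Y² ≤ Y⁴/8`. -/
def Stmt_CNT : Prop :=
  ∀ W : ℕ, 0 < W → ∃ P₀ : ℕ, ∀ p Y : ℕ, P₀ ≤ p → 4 * p ≤ Y ^ 2 → (Y - 1) ^ 2 < 4 * p →
    8 * ((QB Y).filter fun x => ∃ l : ℕ, l.Prime ∧ p ≤ l ∧
      (l : ℤ) ∣ nm (pt ⟨1, 9 * (W : ℤ)⟩ (27 * (W : ℤ)) x)).card ≤ Y ^ 4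

/-- EXP (200 lines; uses PUN PSI SYM EVL THR BLP BLI CNT).  `Y` least with `4 p ≤ Y²` (so `(Y-1)² <
4 p`, `Y ≤ p` for large `p`), `c = ⟨1, 9 W⟩`, `M = 27 W`, `α = pt c M x = ⟨1 + 27 W i, 9 (W (1 + 3 j))⟩`.
Suppose `3 ∤ v_p(n)` and that no prime `l ≥ p` divides `N α`.  `χ` from SYM.  `α ≡ 1` modulo `s ∣ W`
and modulo `3`, so `N α` is prime to `3 W` and to `p`, `gcd(n, N α) = 1`; the prime factors of
`N α` are `< p` and `∤ W`, so `χ n = 0` (`Sym.cub`).  EVL: `χ n = v_p(n) χ p`, since `χ 3 = 0` (THR,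
`k = 2`) and `χ s = 0` for `s ∣ W`.  So `χ p = 0`, `Psi p α 0`.  By CNT the number of `x` with `¬ Psi`
is `≤ Y⁴/8`; BLP / BLI: `Y⁴ ≤ Y⁴/4 + Y² √(p² + Y²)`, `(9/16) Y⁴ ≤ p² + Y²`, impossible for
`Y² ≥ 4 p`. -/
def Stmt_EXP : Prop :=
  ∀ W : ℕ, 0 < W → ¬ 3 ∣ W → ∃ P₀ : ℕ, ∀ p : ℕ, p.Prime → P₀ ≤ p → ∀ n : ℤ, Hyp W p n →
    3 ∣ n.natAbs.factorization p

/-! ## The theorem -/

/-- the situation at a record prime -/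
structure Rcd (u w : ℤ) (W p : ℕ) (P : ℤ) : Prop where
  pr : p.Prime
  ne : u * P + w ≠ 0
  cop : IsCoprime P w
  sqf : Squarefree P
  supp : ∀ q : ℕ, q.Prime → (q : ℤ) ∣ u * P + w → q ≠ p → q ∣ 3 * W
  wsup : ∀ q : ℕ, q.Prime → (q : ℤ) ∣ w → q ∣ 3 * W
  all : ∀ l : ℕ, l.Prime → l < p → ¬ l ∣ 3 * W → (l : ℤ) ∣ P

/-- REC (200 lines; uses nothing; import `Pool.Agent.Work.GEM.RCD` for the records
`Pool.Agent.Work.GEM.stmt_RCD : Stmt_RCD` and see `Pool.Agent.Work.GEM.FIN` for the same argument).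
`p` is injective (`p i` divides `P_n` for `i < n`, and `p n ∣ f(P_n) ≡ f(0)` modulo a common prime).
`f(0) ≠ 0`.  `W` = product of `2`, the missing primes and the prime factors of `f(0)`, without `3`
(finite).  Record: `n, Z` with `p n ≤ Z` and `∀ i, p i ≤ Z → i ≤ n`, `n` and `p n` large.  `P = ∏_{i<n}
p i`.  `w = g(0) ∣ f(0)`, so `wsup`, `cop` (`p i ∤ f(0)`).  `supp`: a prime `q ∣ u P + w ∣ f(P)`,
`q ∤ 3 W`: `q ≡ 1` modulo `m` (`m = 1`, or `q` odd), `q ∤ f(0)`, so `q ≤ p n ≤ Z`; not missing: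
`q = p i`, `i ≤ n`, and `i < n` gives `q ∣ P`, `q ∣ w`, `q ∣ f(0)`.  `all`: `l` is not missing, `l = p i`,
`i ≤ n`, `i ≠ n`.  `ne`: `f(P) ≠ 0` since otherwise there is no largest admissible prime.  For the
last two clauses take `n` larger than the index of `3`. -/
def Stmt_REC : Prop :=
  ∀ (m : ℕ) (f : ℤ[X]) (u w : ℤ) (p : ℕ → ℕ), 1 ≤ m → m ≤ 2 → C u * X + C w ∣ f →
    IsGEM2 f 1 m p → {q : ℕ | q.Prime ∧ q ≡ 1 [MOD m] ∧ ∀ n, p n ≠ q}.Finite →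
    ∃ W : ℕ, 0 < W ∧ ¬ 3 ∣ W ∧ ∀ B : ℕ, ∃ n : ℕ, B ≤ p n ∧
      Rcd u w W (p n) (∏ i ∈ Finset.range n, (p i : ℤ)) ∧
      ((∃ i, p i = 3) → (3 : ℤ) ∣ ∏ i ∈ Finset.range n, (p i : ℤ)) ∧
      ((∀ i, p i ≠ 3) → ¬ (3 : ℤ) ∣ ∏ i ∈ Finset.range n, (p i : ℤ))

/-- FIN (150 lines; uses NCB EXP REC).  `W` from REC, `n` with `p n ≥` both `P₀`, `P = ∏`,
`N = u P + w`, `Hyp W p (N w²)`: `N w² ≡ w³` modulo `l ∣ P`.  EXP, NCB: `N w² = t³`.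
`gcd(N, w) = 1` (`gcd(u, w) = gcd(P, w) = 1`), so `N = y³` and `w² = s³` (`-1` is a cube), `w = (w/s)³ =
v³` (`s³ ∣ w³`).  First alternative: contradiction.  Otherwise `y³ - v³ = u P`, `3 ∣ u P`: `y ≡ v` modulo
`3`, `9 ∣ y³ - v³ = u P`, but `3 ∤ u`, `9 ∤ P` (squarefree), or `9 ∤ u`, `3 ∤ P`. -/
def Stmt_FIN : Prop :=
  ∀ (m : ℕ) (f : ℤ[X]) (u w : ℤ) (p : ℕ → ℕ), 1 ≤ m → m ≤ 2 → C u * X + C w ∣ f →
    IsCoprime u w → IsGEM2 f 1 m p →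
    ((¬ ∃ v : ℤ, w = v ^ 3) ∨ (¬ (3 : ℤ) ∣ u ∧ ∃ i, p i = 3) ∨
      ((3 : ℤ) ∣ u ∧ ¬ (9 : ℤ) ∣ u ∧ ∀ i, p i ≠ 3)) →
    {q : ℕ | q.Prime ∧ q ≡ 1 [MOD m] ∧ ∀ n, p n ≠ q}.Infinite

end Pool.EMC
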