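import Mathlib

/-!
# MP_75c89d_nt, THEOREM CUB (helper66): the ring `ℤ[ω]`, tools
-/

set_option autoImplicit false

namespace Pool.EMC

/-- `ℤ[ω]`, `ω² = -1 - ω`; elements `⟨a, b⟩ = a + b ω` -/
abbrev E := QuadraticAlgebra ℤ (-1) (-1)

/-- `ω` -/
def om : E := ⟨0, 1⟩

/-- the conjugate -/
def cj (z : E) : E := ⟨z.re - z.im, -z.im⟩

/-- the norm -/
def nm (z : E) : ℤ := z.re ^ 2 - z.re * z.im + z.im ^ 2

/-- the value at a cube root of unity `r` (`r² + r + 1 = 0`) of a commutative ring -/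
def ev {R : Type*} [CommRing R] (r : R) (z : E) : R := (z.re : R) + (z.im : R) * r

theorem ext' {z w : E} (h1 : z.re = w.re) (h2 : z.im = w.im) : z = w :=
  QuadraticAlgebra.ext h1 h2

@[simp] theorem re_one' : (1 : E).re = 1 := rfl
@[simp] theorem im_one' : (1 : E).im = 0 := rfl

theorem om_re : om.re = 0 := rfl
theorem om_im : om.im = 1 := rfl

theorem om_sq : om ^ 2 = -1 - om := by
  rw [sq]
  refine ext' ?_ ?_ <;> simp [om]

theorem om_cube : om ^ 3 = 1 := by
  rw [pow_succ, om_sq, sub_mul, ← sq, om_sq]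
  ring

theorem om_pow_val (k l : ZMod 3) : om ^ (k + l).val = om ^ k.val * om ^ l.val := by
  rw [← pow_add, ZMod.val_add]
  conv_rhs => rw [← Nat.div_add_mod (k.val + l.val) 3, pow_add, pow_mul, om_cube, one_pow, one_mul]

theorem om_pow_natCast (n : ℕ) : om ^ ((n : ZMod 3)).val = om ^ n := by
  rw [ZMod.val_natCast]
  conv_rhs => rw [← Nat.div_add_mod n 3, pow_add, pow_mul, om_cube, one_pow, one_mul]

theorem nm_mul (z w : E) : nm (z * w) = nm z * nm w := by
  simp only [nm, QuadraticAlgebra.re_mul, QuadraticAlgebra.im_mul]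
  ring

theorem mul_cj (z : E) : z * cj z = ((nm z : ℤ) : E) := by
  refine ext' ?_ ?_
  · simp only [nm, cj, QuadraticAlgebra.re_mul, QuadraticAlgebra.re_intCast]
    push_cast
    ring
  · simp only [nm, cj, QuadraticAlgebra.im_mul, QuadraticAlgebra.im_intCast]
    ring

theorem nm_one : nm 1 = 1 := by
  simp [nm]

theorem nm_zero : nm 0 = 0 := by
  simp [nm]

theorem nm_intCast (n : ℤ) : nm (n : E) = n ^ 2 := by
  simp [nm]

theorem nm_pow (z : E) (n : ℕ) : nm (z ^ n) = nm z ^ n := by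
  induction n with
  | zero => simp [nm_one]
  | succ n ih => rw [pow_succ, nm_mul, ih, pow_succ]

theorem nm_cj (z : E) : nm (cj z) = nm z := by
  simp only [nm, cj]
  ring

theorem four_nm (z : E) : 4 * nm z = (2 * z.re - z.im) ^ 2 + 3 * z.im ^ 2 := by
  simp only [nm]
  ring

theorem nm_nonneg (z : E) : 0 ≤ nm z := by
  have := four_nm z
  nlinarith [sq_nonneg (2 * z.re - z.im), sq_nonneg z.im]

theorem nm_eq_zero {z : E} : nm z = 0 ↔ z = 0 := by
  constructor
  · intro h
    have h4 := four_nm z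
    rw [h] at h4
    have h1 : z.im = 0 := by
      by_contra hne
      have : 0 < z.im ^ 2 := by positivity
      nlinarith [sq_nonneg (2 * z.re - z.im)]
    have h2 : z.re = 0 := by
      rw [h1] at h4
      have : z.re ^ 2 = 0 := by nlinarith
      exact pow_eq_zero_iff (two_ne_zero) |>.1 this
    exact ext' (by simpa using h2) (by simpa using h1)
  · rintro rfl
    exact nm_zero

theorem nm_pos {z : E} (hz : z ≠ 0) : 0 < nm z :=
  lt_of_le_of_ne (nm_nonneg z) fun h => hz (nm_eq_zero.1 h.symm)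

instance : NoZeroDivisors E where
  eq_zero_or_eq_zero_of_mul_eq_zero := by
    intro a b h
    have h1 : nm a * nm b = 0 := by rw [← nm_mul, h, nm_zero]
    rcases mul_eq_zero.1 h1 with h2 | h2
    · exact Or.inl (nm_eq_zero.1 h2)
    · exact Or.inr (nm_eq_zero.1 h2)

instance : IsDomain E := NoZeroDivisors.to_isDomain E

theorem cj_mul (z w : E) : cj (z * w) = cj z * cj w := by
  refine ext' ?_ ?_
  · simp only [cj, QuadraticAlgebra.re_mul, QuadraticAlgebra.im_mul]
    ring
  · simp only [cj, QuadraticAlgebra.re_mul, QuadraticAlgebra.im_mul]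
    ring

theorem cj_add (z w : E) : cj (z + w) = cj z + cj w := by
  refine ext' ?_ ?_
  · simp only [cj, QuadraticAlgebra.re_add, QuadraticAlgebra.im_add]
    ring
  · simp only [cj, QuadraticAlgebra.re_add, QuadraticAlgebra.im_add]
    ring

theorem cj_cj (z : E) : cj (cj z) = z := by
  refine ext' ?_ ?_ <;> simp [cj]

theorem cj_intCast (n : ℤ) : cj (n : E) = n := by
  refine ext' ?_ ?_ <;> simp [cj]

theorem cj_om : cj om = om ^ 2 := by
  rw [om_sq]
  refine ext' ?_ ?_ <;> simp [cj, om]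

/-- conjugation as a ring homomorphism -/
def cjHom : E →+* E where
  toFun := cj
  map_one' := by
    refine ext' ?_ ?_ <;> simp [cj]
  map_mul' := cj_mul
  map_zero' := by
    refine ext' ?_ ?_ <;> simp [cj]
  map_add' := cj_add

theorem cjHom_apply (z : E) : cjHom z = cj z := rfl

theorem intCast_dvd {n : ℤ} {z : E} : (n : E) ∣ z ↔ n ∣ z.re ∧ n ∣ z.im := by
  constructor
  · rintro ⟨w, rfl⟩
    constructor
    · exact ⟨w.re, by simp [QuadraticAlgebra.re_mul]⟩
    · exact ⟨w.im, by simp [QuadraticAlgebra.im_mul]⟩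
  · rintro ⟨⟨a, ha⟩, ⟨b, hb⟩⟩
    refine ⟨⟨a, b⟩, ext' ?_ ?_⟩
    · simp [ha]
    · simp [hb]

theorem nm_dvd {z w : E} (h : z ∣ w) : nm z ∣ nm w := by
  obtain ⟨v, rfl⟩ := h
  exact ⟨nm v, nm_mul z v⟩

theorem nm_congr {n : ℤ} {z w : E} (h : (n : E) ∣ z - w) : n ∣ nm z - nm w := by
  obtain ⟨h1, h2⟩ := intCast_dvd.1 h
  simp only [QuadraticAlgebra.re_sub, QuadraticAlgebra.im_sub] at h1 h2
  have h3 : nm z - nm w = (z.re - w.re) * (z.re + w.re - z.im) +
      (z.im - w.im) * (z.im + w.im - w.re) := by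
    simp only [nm]
    ring
  rw [h3]
  exact dvd_add (Dvd.dvd.mul_right h1 _) (Dvd.dvd.mul_right h2 _)

section ev
variable {R : Type*} [CommRing R]

theorem ev_add (r : R) (z w : E) : ev r (z + w) = ev r z + ev r w := by
  simp only [ev, QuadraticAlgebra.re_add, QuadraticAlgebra.im_add]
  push_cast
  ring

theorem ev_mul {r : R} (hr : r ^ 2 + r + 1 = 0) (z w : E) : ev r (z * w) = ev r z * ev r w := by
  simp only [ev, QuadraticAlgebra.re_mul, QuadraticAlgebra.im_mul]
  push_cast
  linear_combination (-(z.im : R) * w.im) * hr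

theorem ev_intCast (r : R) (n : ℤ) : ev r (n : E) = n := by
  simp [ev]

theorem ev_one (r : R) : ev r 1 = 1 := by
  simp [ev]

theorem ev_om (r : R) : ev r om = r := by
  simp [ev, om]

/-- evaluation as a ring homomorphism -/
def evHom (r : R) (hr : r ^ 2 + r + 1 = 0) : E →+* R where
  toFun := ev r
  map_one' := ev_one r
  map_mul' := ev_mul hr
  map_zero' := by simp [ev]
  map_add' := ev_add r

theorem evHom_apply (r : R) (hr : r ^ 2 + r + 1 = 0) (z : E) : evHom r hr z = ev r z := rfl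

theorem ev_sub (r : R) (z w : E) : ev r (z - w) = ev r z - ev r w := by
  simp only [ev, QuadraticAlgebra.re_sub, QuadraticAlgebra.im_sub]
  push_cast
  ring

theorem ev_pow {r : R} (hr : r ^ 2 + r + 1 = 0) (z : E) (n : ℕ) : ev r (z ^ n) = ev r z ^ n :=
  map_pow (evHom r hr) z n

/-- the other root -/
theorem root_sq {r : R} (hr : r ^ 2 + r + 1 = 0) : (r ^ 2) ^ 2 + r ^ 2 + 1 = 0 := by
  linear_combination (r ^ 2 - r + 1) * hr

theorem root_cube {r : R} (hr : r ^ 2 + r + 1 = 0) : r ^ 3 = 1 := by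
  linear_combination (r - 1) * hr

/-- `ev` at the other root is `ev` of the conjugate -/
theorem ev_cj {r : R} (hr : r ^ 2 + r + 1 = 0) (z : E) : ev r (cj z) = ev (r ^ 2) z := by
  simp only [ev, cj]
  push_cast
  linear_combination (-(z.im : R)) * hr

theorem ev_mul_ev {r : R} (hr : r ^ 2 + r + 1 = 0) (z : E) :
    ev r z * ev (r ^ 2) z = ((nm z : ℤ) : R) := by
  rw [← ev_cj hr, ← ev_mul hr, mul_cj, ev_intCast]

end ev

end Pool.EMC
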